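import Pool.Agent.Lib.MP_5893d7_nt.Af.Gl
import Pool.Agent.Lib.MP_5893d7_nt.Pr.Main

/-!
MP_5893d7_nt, expressions P(n, U_n, U_(n+1)): the final statement with almost all primes.
-/

set_option autoImplicit false

namespace Pool.Agent.Lib.MP_5893d7_nt.Af

open Polynomial Finset Filter

/-- the exceptional primes are rare -/
lemma rare_exc {W : ℕ → ℤ} (hW : ∀ n, W (n + 2) = W (n + 1) + W n)
    (h0 : W 0 = 0 ∨ W 0 = 2) (h1 : W 1 = 1) {a b : ℕ} (ha : 0 < a) (A : ℕ → ℤ) (r N : ℕ)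
    (hN : 0 < N) {R : ℤ[X]} (hR : R.IsPrimitive)
    (h : ∀ n : ℕ, n % 2 = r % 2 → (a * n + b).Coprime N →
      (Int.gcd (A n) (W (a * n + b)) : ℤ) ∣ R.eval (n : ℤ))
    (h3 : ∀ g : ℤ[X], Irreducible g → g ∣ R → g.natDegree ≤ 3) :
    Pr.Rare {m : ℕ | ∃ n : ℕ, n % 2 = r % 2 ∧ m = a * n + b ∧ Int.gcd (A n) (W m) ≠ 1} := by
  refine Pr.Rare.mono ((Pr.rare_le N).union
    (Pr.poly_rare (tr R a b) (tr_ne_zero hR.ne_zero b) (tr_factor hR ha h3))) ?_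
  rintro m hm ⟨n, hn, rfl, hne⟩
  by_cases hle : a * n + b ≤ N
  · exact Or.inl hle
  · right
    obtain ⟨q, hq, hqg⟩ := Nat.exists_prime_and_dvd hne
    refine ⟨q, hq, ?_, ?_⟩
    · rw [fib_mul_lucas]
      have h2 : (q : ℤ) ∣ W (a * n + b) :=
        (Int.natCast_dvd_natCast.2 hqg).trans (Int.gcd_dvd_right _ _)
      have h4 := h2.trans (dvd_fib hW h0 h1 (a * n + b))
      exact_mod_cast h4
    · rw [tr_eval]
      have hco : (a * n + b).Coprime N := by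
        rw [Nat.Prime.coprime_iff_not_dvd hm]
        intro hd
        exact hle (Nat.le_of_dvd hN hd)
      exact ((Int.natCast_dvd_natCast.2 hqg).trans (h n hn hco)).mul_left _

/-- **common divisors**, with almost all primes -/
theorem comb_thm {W : ℕ → ℤ} (hW : ∀ n, W (n + 2) = W (n + 1) + W n)
    (h0 : W 0 = 0 ∨ W 0 = 2) (h1 : W 1 = 1) {a b : ℕ} (ha : 0 < a) (hab : a.Coprime b)
    (P : MvPolynomial (Fin 3) ℤ) (A : ℕ → ℤ)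
    (hA : ∀ n, A n = MvPolynomial.eval ![(n : ℤ), (Nat.fib n : ℤ), (Nat.fib (n + 1) : ℤ)] P)
    (r : ℕ) (hr : Odd (a * r + b) ∨ W 0 = 2) :
    ∃ (d N : ℕ) (R : ℤ[X]), 0 < d ∧ 0 < N ∧ R.IsPrimitive ∧
      R.natDegree ≤ 2 * a * P.degreeOf 0 ∧
      (∀ ρ : ℂ, aeval ρ R = 0 → ∃ x y : ℂ, y ^ 2 - x * y - x ^ 2 = (-1) ^ r ∧
        MvPolynomial.aeval ![ρ, x, y] P = 0) ∧
      (((∀ n : ℕ, n % 2 = r % 2 →
          (Int.gcd (A n) (W (a * n + b)) : ℤ) ∣ d * R.eval (n : ℤ) ∧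
          ∀ κ t : ℕ, a * n + b = 2 ^ κ * t → t.Coprime N → (κ = 0 ∨ (W 0 = 2 ∧ ¬ 2 ^ κ ∣ N)) →
            (Int.gcd (A n) (W (a * n + b)) : ℤ) ∣ R.eval (n : ℤ)) ∧
        ((∀ g : ℤ[X], Irreducible g → g ∣ R → g.natDegree ≤ 3) →
          Tendsto (fun x : ℕ => (Set.ncard {m : ℕ | m ≤ x ∧ m.Prime ∧
            ∃ n : ℕ, n % 2 = r % 2 ∧ m = a * n + b ∧ Int.gcd (A n) (W m) ≠ 1} : ℝ)
              / (Nat.primeCounting x : ℝ)) atTop (nhds 0))) ∨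
      (∀ n : ℕ, n % 2 = r % 2 →
        W (a * n + b) ∣ d * A n ∧
        ∀ κ t : ℕ, a * n + b = 2 ^ κ * t → t.Coprime N → (κ = 0 ∨ (W 0 = 2 ∧ ¬ 2 ^ κ ∣ N)) →
          W (a * n + b) ∣ A n)) := by
  obtain ⟨d, N, R, hd, hN, hR, hRd, hroots, h2⟩ := poly_thm hW h0 h1 ha hab P A hA r hr
  refine ⟨d, N, R, hd, hN, hR, hRd, hroots, ?_⟩
  rcases h2 with h2 | h2
  · left
    refine ⟨h2, fun h3 => ?_⟩
    refine rare_tendsto (rare_exc hW h0 h1 ha A r N hN hR (fun n hn hco => ?_) h3)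
    exact (h2 n hn).2 0 (a * n + b) (by rw [pow_zero, one_mul]) hco (Or.inl rfl)
  · right
    exact h2

end Pool.Agent.Lib.MP_5893d7_nt.Af
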