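import Pool.Agent.Lib.MP_5893d7_nt.Af.Mn

/-!
MP_5893d7_nt, polynomial expressions in Fibonacci numbers: the Galois group acts transitively on
the zeros of `X ^ (2 a) - c`.
-/

set_option autoImplicit false
set_option linter.unusedSectionVars false

namespace Pool.Agent.Lib.MP_5893d7_nt.Af

open Polynomial Finset IntermediateField

variable {Kb : Type} [Field Kb] [CharZero Kb] [Algebra ℚ Kb] [IsAlgClosure ℚ Kb]
  {α : Kb} {ι : Kb →+* ℂ}

/-- the action of the Galois group on the zeros of `X ^ (2 a) - c` is transitive -/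
theorem trans_key (h : Gold α ι) {a b : ℕ} (ha : 0 < a) (hab : a.Coprime b) {ε : Kb}
    (hε : ε = 1 ∨ ε = -1) {c : Kb}
    (hc : c = -α ^ (-2 * (b : ℤ)) ∨ (c = α ^ (-2 * (b : ℤ)) ∧ ε ^ a * (-1) ^ b = -1))
    {R : Finset Kb} (hne : R.Nonempty) (hR : ∀ w ∈ R, w ^ (2 * a) = c)
    (hst1 : ∀ σ : Kb ≃ₐ[ℚ] Kb, σ α = α → ∀ w ∈ R, σ w ∈ R)
    (hst2 : ∀ σ : Kb ≃ₐ[ℚ] Kb, σ α = 1 - α → ∀ w ∈ R, ε / σ w ∈ R) : R.card = 2 * a := by
  classical
  have hα := h.ne_zero
  have hAC : IsAlgClosed Kb := IsAlgClosure.isAlgClosed ℚ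
  have hc0 : c ≠ 0 := by
    rcases hc with h1 | ⟨h1, _⟩ <;> rw [h1]
    · exact neg_ne_zero.2 (zpow_ne_zero _ hα)
    · exact zpow_ne_zero _ hα
  have hw0 : ∀ w ∈ R, w ≠ 0 := by
    intro w hw h1
    have h2 := hR w hw
    rw [h1, zero_pow (by omega)] at h2
    exact hc0 h2.symm
  have hε0 : ε ≠ 0 := by
    rcases hε with h1 | h1 <;> rw [h1] <;> norm_num
  -- the cardinality is at most 2 a
  have hle : R.card ≤ 2 * a := by
    have h1 : R ⊆ (X ^ (2 * a) - C c : Kb[X]).roots.toFinset := by
      intro w hw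
      rw [Multiset.mem_toFinset, mem_roots (X_pow_sub_C_ne_zero (by omega) c), IsRoot.def]
      simp [hR w hw]
    calc R.card ≤ _ := card_le_card h1
      _ ≤ (X ^ (2 * a) - C c : Kb[X]).roots.card := Multiset.toFinset_card_le _
      _ ≤ (X ^ (2 * a) - C c : Kb[X]).natDegree := card_roots' _
      _ = 2 * a := natDegree_X_pow_sub_C
  have hpos : 0 < R.card := card_pos.2 hne
  -- the product
  set ν : Kb := ∏ w ∈ R, w with hν
  have hperm1 : ∀ σ : Kb ≃ₐ[ℚ] Kb, σ α = α → R.image σ = R := by
    intro σ hσ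
    refine eq_of_subset_of_card_le ?_ ?_
    · intro v hv
      obtain ⟨w, hw, rfl⟩ := mem_image.1 hv
      exact hst1 σ hσ w hw
    · rw [card_image_of_injective _ σ.injective]
  have hνF : ν ∈ ℚ⟮α⟯ := by
    refine Gold.mem_of_fixed _ fun σ hσ => ?_
    rw [hν, map_prod]
    conv_rhs => rw [← hperm1 σ hσ]
    rw [prod_image (fun _ _ _ _ h => σ.injective h)]
  have hνp : ν ^ (2 * a) = c ^ R.card := by
    rw [hν, ← prod_pow, prod_congr rfl hR, prod_const]
  have hνp2 : ν ^ (2 * a) = α ^ (-2 * (b : ℤ) * R.card)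
      ∨ ν ^ (2 * a) = -α ^ (-2 * (b : ℤ) * R.card) := by
    rw [hνp, zpow_mul, zpow_natCast]
    rcases hc with h1 | ⟨h1, _⟩
    · rw [h1]
      rcases Nat.even_or_odd R.card with h2 | h2
      · left
        rw [h2.neg_pow]
      · right
        rw [h2.neg_pow]
    · left
      rw [h1]
  obtain ⟨j, hj⟩ := h.unit_lemma hνF (by omega) hνp2
  have hj2 : 2 * (a : ℤ) * j = -2 * (b : ℤ) * R.card := by
    have h1 : ν ^ (2 * a) = α ^ (2 * (a : ℤ) * j) := by
      rw [mul_comm (2 * (a : ℤ)), zpow_mul]
      rcases hj with h2 | h2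
      · rw [h2]
        norm_cast
      · rw [h2, (even_two_mul a).neg_pow]
        norm_cast
    rw [h1] at hνp2
    exact h.zpow_inj hνp2
  have hdvd : a ∣ R.card := by
    have h1 : (a : ℤ) ∣ (b : ℤ) * R.card := ⟨-j, by linarith⟩
    have h2 : a ∣ b * R.card := by exact_mod_cast h1
    exact hab.dvd_of_dvd_mul_left h2
  obtain ⟨q, hq⟩ := hdvd
  have hq3 : q = 1 ∨ q = 2 := by
    have h1 : a * q ≤ a * 2 := by omega
    have h2 := Nat.le_of_mul_le_mul_left h1 ha
    have h3 : q ≠ 0 := by
      rintro rfl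
      omega
    omega
  rcases hq3 with h1 | h1
  · exfalso
    rw [h1, mul_one] at hq
    rcases hc with hc | ⟨hc, hpar⟩
    · -- the power of two
      obtain ⟨r, m, hm, hrm⟩ := Nat.exists_eq_two_pow_mul_odd (n := 2 * a) (by omega)
      have hr : 0 < r := by
        rcases Nat.eq_zero_or_pos r with h1 | h1
        · rw [h1, pow_zero, one_mul] at hrm
          rw [← hrm] at hm
          exact absurd hm (by simp)
        · exact h1
      set g : Kb[X] := ∏ w ∈ R, (X - C w) with hg
      have hgm : g.Monic := monic_prod_X_sub_C _ _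
      have hgl : g ∈ lifts (algebraMap ℚ⟮α⟯ Kb) := by
        rw [lifts_iff_coeff_lifts]
        intro i
        have h2 : g.coeff i ∈ ℚ⟮α⟯ := by
          refine Gold.mem_of_fixed _ fun σ hσ => ?_
          have h3 : g.map (σ : Kb →+* Kb) = g := by
            rw [hg, Polynomial.map_prod]
            conv_rhs => rw [← hperm1 σ hσ]
            rw [prod_image (fun _ _ _ _ h => σ.injective h)]
            refine prod_congr rfl fun w _ => ?_
            simp
          have h4 := congrArg (fun p => p.coeff i) h3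
          simp only [coeff_map] at h4
          exact h4
        exact ⟨⟨_, h2⟩, rfl⟩
      obtain ⟨g₀, hg₀⟩ := (mem_lifts _).1 hgl
      have hg₀0 : g₀ ≠ 0 := by
        rintro rfl
        rw [Polynomial.map_zero] at hg₀
        exact hgm.ne_zero hg₀.symm
      have hg₀d : g₀.natDegree = R.card := by
        rw [← natDegree_map (algebraMap ℚ⟮α⟯ Kb), hg₀, hg, natDegree_prod_of_monic _ _
          (fun w _ => monic_X_sub_C w)]
        simp
      have h2r : 2 ^ r ∣ R.card := by
        refine two_dvd h (M := a) (s0 := b) hr ⟨m, hrm⟩ _ g₀ hg₀0 hg₀d fun w hw => ?_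
        have h2 : g.eval w = 0 := by
          rw [← hg₀, eval_map_algebraMap]
          exact hw
        rw [hg, eval_prod] at h2
        obtain ⟨v, hv, h3⟩ := prod_eq_zero_iff.1 h2
        rw [eval_sub, eval_X, eval_C, sub_eq_zero] at h3
        rw [h3, hR v hv, hc]
      obtain ⟨q', hq'⟩ := h2r
      rw [← hq, hq'] at hrm
      have h3 : 2 * q' = m := by
        refine Nat.eq_of_mul_eq_mul_left (pow_pos two_pos r) ?_
        rw [← hrm]
        ring
      rw [← h3] at hm
      exact absurd hm (by simp)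
    · -- the conjugation
      have hjb : j = -(b : ℤ) := by
        rw [hq] at hj2
        have h2 : (a : ℤ) * (j + b) = 0 := by linarith
        rcases mul_eq_zero.1 h2 with h3 | h3
        · have : a = 0 := by exact_mod_cast h3
          omega
        · linarith
      obtain ⟨τ, hτ⟩ := h.exists_conj
      have hinj : Function.Injective (fun w => ε / τ w) := by
        intro v w hvw
        simp only [div_eq_mul_inv] at hvw
        exact τ.injective (inv_injective (mul_left_cancel₀ hε0 hvw))
      have hperm2 : R.image (fun w => ε / τ w) = R := by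
        refine eq_of_subset_of_card_le ?_ ?_
        · intro v hv
          obtain ⟨w, hw, rfl⟩ := mem_image.1 hv
          exact hst2 τ hτ w hw
        · rw [card_image_of_injective _ hinj]
      have hν0 : ν ≠ 0 := prod_ne_zero_iff.2 fun w hw => hw0 w hw
      have hτν0 : τ ν ≠ 0 := by
        intro h2
        exact hν0 (by simpa using h2)
      have h2 : ν * τ ν = ε ^ a := by
        have h3 : ν = ε ^ a / τ ν := by
          conv_lhs => rw [hν, ← hperm2]
          rw [prod_image (fun _ _ _ _ h => hinj h), prod_div_distrib, prod_const, hq, hν, map_prod]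
        calc ν * τ ν = (ε ^ a / τ ν) * τ ν := by rw [← h3]
          _ = ε ^ a := div_mul_cancel₀ _ hτν0
      have h3 : ν * τ ν = (-1) ^ b := by
        have h4 : ν * τ ν = α ^ j * (1 - α) ^ j := by
          rcases hj with h3 | h3
          · rw [h3, map_zpow₀, hτ]
          · rw [h3, map_neg, map_zpow₀, hτ, neg_mul_neg]
        rw [h4, ← mul_zpow, h.mul_conj, hjb, zpow_neg, zpow_natCast, ← inv_pow]
        norm_num
      rw [← h2, h3, ← mul_pow] at hpar
      norm_num at hpar
  · rw [hq, h1, mul_comm]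

end Pool.Agent.Lib.MP_5893d7_nt.Af
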