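import Pool.Agent.Lib.MP_5893d7_nt.Af.Sml

/-!
MP_5893d7_nt, zeros of linear recurrences: the theorem of Skolem, Mahler and Lech over the
rationals, in the form used here.
-/

set_option autoImplicit false

namespace Pool.Agent.Lib.MP_5893d7_nt.Af

open Finset

/-- integer recurrences -/
def Rec (d : ℕ) (c : ℕ → ℤ) (u : ℕ → ℤ) : Prop :=
  ∀ n, u (n + d) = ∑ i ∈ range d, c i * u (n + i)

/-- pure periodicity modulo q with a uniform period -/
lemma Rec.period {d : ℕ} (hd : 0 < d) {c : ℕ → ℤ} {q : ℕ} (hq : 0 < q)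
    (hc : IsCoprime (c 0) (q : ℤ)) :
    ∃ m, 0 < m ∧ ∀ u, Rec d c u → ∀ n, (q : ℤ) ∣ u (n + m) - u n := by
  classical
  have : NeZero q := ⟨hq.ne'⟩
  let φ : (Fin d → ZMod q) → (Fin d → ZMod q) := fun x i =>
    if h : (i : ℕ) + 1 < d then x ⟨i + 1, h⟩ else ∑ j : Fin d, (c j : ZMod q) * x j
  have hinj : Function.Injective φ := by
    intro x y hxy
    have h1 : ∀ i : ℕ, ∀ h : i + 1 < d, x ⟨i + 1, h⟩ = y ⟨i + 1, h⟩ := by
      intro i h
      have h2 := congrFun hxy ⟨i, by omega⟩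
      simpa [φ, h] using h2
    have h2 : ∑ j : Fin d, (c j : ZMod q) * x j = ∑ j : Fin d, (c j : ZMod q) * y j := by
      have h3 := congrFun hxy ⟨d - 1, by omega⟩
      have h4 : ¬ (d - 1 + 1 < d) := by omega
      simpa [φ, h4] using h3
    have h3 : x ⟨0, hd⟩ = y ⟨0, hd⟩ := by
      rw [← Finset.add_sum_erase _ _ (mem_univ (⟨0, hd⟩ : Fin d)),
        ← Finset.add_sum_erase _ (fun j : Fin d => (c j : ZMod q) * y j)
          (mem_univ (⟨0, hd⟩ : Fin d))] at h2
      have h4 : ∑ j ∈ univ.erase (⟨0, hd⟩ : Fin d), (c j : ZMod q) * x j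
          = ∑ j ∈ univ.erase (⟨0, hd⟩ : Fin d), (c j : ZMod q) * y j := by
        refine sum_congr rfl fun j hj => ?_
        obtain ⟨i, hi⟩ := j
        cases i with
        | zero => simp at hj
        | succ i => rw [h1 i hi]
      rw [h4] at h2
      have h5 := add_right_cancel h2
      obtain ⟨s, t, hst⟩ := hc
      have h6 : (s : ZMod q) * (c 0 : ZMod q) = 1 := by
        have h7 := congrArg (fun z : ℤ => (z : ZMod q)) hst
        push_cast at h7
        simpa using h7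
      have h8 := congrArg (fun z => (s : ZMod q) * z) h5
      simp only [← mul_assoc] at h8
      rw [h6, one_mul, one_mul] at h8
      exact h8
    funext i
    obtain ⟨i, hi⟩ := i
    cases i with
    | zero => exact h3
    | succ i => exact h1 i hi
  let σ : Equiv.Perm (Fin d → ZMod q) := Equiv.ofBijective φ
    (Finite.injective_iff_bijective.1 hinj)
  refine ⟨orderOf σ, orderOf_pos σ, fun u hu n => ?_⟩
  have hstep : ∀ n, (fun i : Fin d => ((u (n + 1 + i) : ℤ) : ZMod q))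
      = σ (fun i : Fin d => ((u (n + i) : ℤ) : ZMod q)) := by
    intro n
    funext i
    show _ = φ _ i
    simp only [φ]
    split_ifs with h
    · congr 2
      omega
    · have h1 : n + 1 + (i : ℕ) = n + d := by
        have := i.2
        omega
      rw [h1, hu n, Finset.sum_range fun i => c i * u (n + i)]
      push_cast
      rfl
  have hiter : ∀ k n, (fun i : Fin d => ((u (n + k + i) : ℤ) : ZMod q))
      = (σ ^ k) (fun i : Fin d => ((u (n + i) : ℤ) : ZMod q)) := by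
    intro k
    induction k with
    | zero => intro n; simp
    | succ k ih =>
      intro n
      rw [pow_succ', Equiv.Perm.mul_apply, ← ih n, ← hstep (n + k)]
      rfl
  have h1 := congrFun (hiter (orderOf σ) n) ⟨0, hd⟩
  rw [pow_orderOf_eq_one] at h1
  simp only [add_zero, Equiv.Perm.coe_one, id_eq] at h1
  rw [← ZMod.intCast_zmod_eq_zero_iff_dvd]
  push_cast
  rw [h1, sub_self]

/-- the quotient of a difference is again a solution -/
lemma Rec.quot {d : ℕ} {c : ℕ → ℤ} {q : ℕ} (hq : 0 < q) {m : ℕ}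
    (h : ∀ u, Rec d c u → ∀ n, (q : ℤ) ∣ u (n + m) - u n) (j : ℕ) :
    ∀ u, Rec d c u → ∃ w, Rec d c w ∧ ∀ n, (fwdDiff m)^[j] u n = (q : ℤ) ^ j * w n := by
  induction j with
  | zero => exact fun u hu => ⟨u, hu, fun n => by simp⟩
  | succ j ih =>
    intro u hu
    obtain ⟨w, hw, h1⟩ := ih u hu
    choose w' hw' using h w hw
    refine ⟨w', fun n => ?_, fun n => ?_⟩
    · have hq' : (q : ℤ) ≠ 0 := by exact_mod_cast hq.ne'
      refine mul_left_cancel₀ hq' ?_
      rw [← hw', mul_sum, add_right_comm, hw (n + m), hw n, ← sum_sub_distrib]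
      refine sum_congr rfl fun i _ => ?_
      rw [show (q : ℤ) * (c i * w' (n + i)) = c i * (q * w' (n + i)) by ring, ← hw',
        add_right_comm n m i]
      ring
    · rw [Function.iterate_succ_apply']
      simp only [fwdDiff]
      rw [h1, h1, ← mul_sub, hw', pow_succ]
      ring

lemma Rec.cl {d : ℕ} (hd : 0 < d) {c : ℕ → ℤ} {q : ℕ} (hq : 0 < q)
    (hc : IsCoprime (c 0) (q : ℤ)) :
    ∃ m, 0 < m ∧ ∀ u, Rec d c u → Cl q m 0 u := by
  obtain ⟨m, hm, h⟩ := Rec.period hd hq hc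
  refine ⟨m, hm, fun u hu j n => ?_⟩
  obtain ⟨w, _, h1⟩ := Rec.quot hq h j u hu
  rw [h1, zero_add]
  exact Dvd.intro _ rfl

/-- sequences with divisible differences for almost all moduli -/
def Nice (u : ℕ → ℤ) : Prop := ∃ K : ℤ, K ≠ 0 ∧ ∃ s : ℕ, ∀ q : ℕ, 0 < q → IsCoprime K (q : ℤ) →
  ∃ m, 0 < m ∧ Cl q m 0 (fun n => u (n + s))

/-- common data of two such sequences -/
lemma Nice.common {u v : ℕ → ℤ} (hu : Nice u) (hv : Nice v) :
    ∃ K : ℤ, K ≠ 0 ∧ ∃ s : ℕ, ∀ q : ℕ, 0 < q → IsCoprime K (q : ℤ) →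
      ∃ m, 0 < m ∧ Cl q m 0 (fun n => u (n + s)) ∧ Cl q m 0 (fun n => v (n + s)) := by
  obtain ⟨K, hK, s, h1⟩ := hu
  obtain ⟨K', hK', s', h2⟩ := hv
  refine ⟨K * K', mul_ne_zero hK hK', s + s', fun q hq hc => ?_⟩
  obtain ⟨m, hm, h3⟩ := h1 q hq hc.of_mul_left_left
  obtain ⟨m', hm', h4⟩ := h2 q hq hc.of_mul_left_right
  refine ⟨m * m', Nat.mul_pos hm hm', ?_, ?_⟩
  · have h5 := (h3.mono m').shift s'
    simp only [add_assoc, add_comm s' s] at h5
    exact h5
  · have h5 := (h4.mono m).shift s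
    rw [mul_comm m' m] at h5
    simp only [add_assoc] at h5
    exact h5

lemma Nice.add {u v : ℕ → ℤ} (hu : Nice u) (hv : Nice v) : Nice (u + v) := by
  obtain ⟨K, hK, s, h⟩ := hu.common hv
  refine ⟨K, hK, s, fun q hq hc => ?_⟩
  obtain ⟨m, hm, h1, h2⟩ := h q hq hc
  exact ⟨m, hm, h1.add h2⟩

lemma Nice.mul {u v : ℕ → ℤ} (hu : Nice u) (hv : Nice v) : Nice (u * v) := by
  obtain ⟨K, hK, s, h⟩ := hu.common hv
  refine ⟨K, hK, s, fun q hq hc => ?_⟩
  obtain ⟨m, hm, h1, h2⟩ := h q hq hc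
  exact ⟨m, hm, h1.mul h2⟩

lemma Nice.neg {u : ℕ → ℤ} (hu : Nice u) : Nice (-u) := by
  obtain ⟨K, hK, s, h⟩ := hu
  refine ⟨K, hK, s, fun q hq hc => ?_⟩
  obtain ⟨m, hm, h1⟩ := h q hq hc
  exact ⟨m, hm, h1.neg⟩

/-- every integer recurrence -/
lemma Rec.nice (d : ℕ) : ∀ (c : ℕ → ℤ) (u : ℕ → ℤ), Rec d c u → Nice u := by
  induction d with
  | zero =>
    intro c u hu
    have h1 : u = 0 := by
      funext n
      simpa using hu n
    refine ⟨1, one_ne_zero, 0, fun q hq _ => ?_⟩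
    obtain ⟨m, hm, h2⟩ := Rec.cl (d := 1) one_pos (c := fun _ => 1) hq isCoprime_one_left
    refine ⟨m, hm, h2 _ fun n => ?_⟩
    simp [h1]
  | succ d ih =>
    intro c u hu
    by_cases hc : c 0 = 0
    · obtain ⟨K, hK, s, h⟩ := ih (fun i => c (i + 1)) (fun n => u (n + 1)) (by
        intro n
        have h1 := hu n
        rw [sum_range_succ', hc, zero_mul, add_zero] at h1
        show u (n + d + 1) = ∑ i ∈ range d, c (i + 1) * u (n + i + 1)
        rw [show n + d + 1 = n + (d + 1) by ring, h1]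
        refine sum_congr rfl fun i _ => ?_
        rw [show n + (i + 1) = n + i + 1 by ring])
      refine ⟨K, hK, s + 1, fun q hq hco => ?_⟩
      obtain ⟨m, hm, h1⟩ := h q hq hco
      exact ⟨m, hm, h1⟩
    · refine ⟨c 0, hc, 0, fun q hq hco => ?_⟩
      obtain ⟨m, hm, h1⟩ := Rec.cl (Nat.succ_pos d) hq hco
      exact ⟨m, hm, h1 u hu⟩

/-- powers -/
lemma nice_pow (D : ℤ) : Nice (fun n => D ^ (n + 1)) := by
  refine Rec.nice 1 (fun _ => D) _ fun n => ?_
  simp only [range_one, sum_singleton, add_zero]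
  rw [pow_succ, mul_comm]

/-- Fibonacci and Lucas numbers on a progression -/
lemma nice_fib {W : ℕ → ℤ} (hW : ∀ n, W (n + 2) = W (n + 1) + W n) {a : ℕ} (ha : 0 < a) (b : ℕ) :
    Nice (fun n => W (a * n + b)) := by
  refine ⟨1, one_ne_zero, 0, fun q hq _ => ?_⟩
  obtain ⟨m, hm, h1⟩ := Rec.cl (d := 2) two_pos (c := fun _ => 1) hq isCoprime_one_left
  have h2 : Cl q m 0 W := h1 W fun n => by
    rw [hW n, sum_range_succ, sum_range_one, one_mul, one_mul, add_zero, add_comm]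
  have h3 := h2.mono a
  rw [mul_comm] at h3
  exact ⟨m, hm, h3.comp⟩

/-- the zeros form classes from some point on -/
lemma Nice.eventually {u : ℕ → ℤ} (hu : Nice u) :
    ∃ m n0 : ℕ, 0 < m ∧ ∀ n ≥ n0, u n = 0 → ∀ k, u (n + k * m) = 0 := by
  obtain ⟨K, hK, s, h⟩ := hu
  obtain ⟨p, hp1, hp⟩ := Nat.exists_infinite_primes (K.natAbs + 1)
  have : Fact p.Prime := ⟨hp⟩
  have hco : IsCoprime K ((p ^ 2 : ℕ) : ℤ) := by
    rw [Int.isCoprime_iff_gcd_eq_one, Int.gcd, Int.natAbs_natCast]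
    refine Nat.Coprime.pow_right 2 ?_
    rw [Nat.coprime_comm, Nat.Prime.coprime_iff_not_dvd hp]
    intro h1
    have h2 := Nat.le_of_dvd (Int.natAbs_pos.2 hK) h1
    omega
  obtain ⟨m, hm, h1⟩ := h (p ^ 2) (pow_pos hp.pos 2) hco
  have h2 : Cl ((p : ℤ) ^ 2) m 0 (fun n => u (n + s)) := by
    have h3 : ((p ^ 2 : ℕ) : ℤ) = (p : ℤ) ^ 2 := by push_cast; rfl
    rw [← h3]
    exact h1
  obtain ⟨n0, h4⟩ := h2.eventually hm
  refine ⟨m, n0 + s, hm, fun n hn h0 k => ?_⟩
  have h5 := h4 (n - s) (by omega) (by rw [show n - s + s = n by omega]; exact h0) k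
  rw [show n - s + k * m + s = n + k * m by omega] at h5
  exact h5

/-- clearing denominators -/
lemma clear {A : ℕ → ℚ} {E : LinearRecurrence ℚ} (hA : E.IsSolution A) :
    ∃ D : ℤ, D ≠ 0 ∧ ∃ A' : ℕ → ℤ, Nice A' ∧ ∀ n, (A' n : ℚ) = (D : ℚ) ^ (n + 1) * A n := by
  classical
  set d := E.order with hd
  set c : ℕ → ℚ := fun i => if h : i < d then E.coeffs ⟨i, h⟩ else 0 with hc
  have hrec : ∀ n, A (n + d) = ∑ i ∈ range d, c i * A (n + i) := by
    intro n
    rw [hA n, Finset.sum_range fun i => c i * A (n + i)]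
    refine sum_congr rfl fun i _ => ?_
    have h1 : (i : ℕ) < d := i.2
    simp [hc, h1]
  set D : ℕ := ∏ i ∈ range d, ((c i).den * (A i).den) with hD
  have hD0 : (D : ℚ) ≠ 0 := by
    have h1 : D ≠ 0 := prod_ne_zero_iff.2 fun i _ => mul_ne_zero (c i).den_nz (A i).den_nz
    exact_mod_cast h1
  have hden : ∀ x : ℚ, x.den ∣ D → ∃ z : ℤ, (D : ℚ) * x = z := by
    rintro x ⟨t, ht⟩
    refine ⟨t * x.num, ?_⟩
    have h1 : (x.den : ℚ) * x = x.num := by
      rw [mul_comm]
      exact Rat.mul_den_eq_num x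
    rw [ht]
    push_cast
    rw [← h1]
    ring
  have hci : ∀ i < d, ∃ z : ℤ, (D : ℚ) ^ (d - i) * c i = z := by
    intro i hi
    obtain ⟨z, hz⟩ := hden (c i) ((Dvd.intro _ rfl).trans (dvd_prod_of_mem _ (mem_range.2 hi)))
    refine ⟨(D : ℤ) ^ (d - i - 1) * z, ?_⟩
    rw [show d - i = (d - i - 1) + 1 by omega, pow_succ, mul_assoc, hz]
    push_cast
    simp
  have hAi : ∀ i < d, ∃ z : ℤ, (D : ℚ) * A i = z := by
    intro i hi
    exact hden (A i) ((Dvd.intro_left _ rfl).trans (dvd_prod_of_mem _ (mem_range.2 hi)))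
  choose! c' hc' using hci
  have hint : ∀ n, ∃ z : ℤ, (D : ℚ) ^ (n + 1) * A n = z := by
    intro n
    induction n using Nat.strong_induction_on with
    | _ n ih =>
      by_cases hn : n < d
      · obtain ⟨z, hz⟩ := hAi n hn
        refine ⟨(D : ℤ) ^ n * z, ?_⟩
        rw [pow_succ, mul_assoc, hz]
        push_cast
        rfl
      · obtain ⟨t, rfl⟩ : ∃ t, n = t + d := ⟨n - d, by omega⟩
        have h1 : ∀ i ∈ range d, ∃ z : ℤ, (D : ℚ) ^ (t + i + 1) * A (t + i) = z := by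
          intro i hi
          exact ih _ (by have := mem_range.1 hi; omega)
        choose! z hz using h1
        refine ⟨∑ i ∈ range d, c' i * z i, ?_⟩
        rw [hrec, mul_sum]
        push_cast
        refine sum_congr rfl fun i hi => ?_
        rw [← hz i hi, ← hc' i (mem_range.1 hi)]
        have h2 : t + d + 1 = (d - i) + (t + i + 1) := by
          have := mem_range.1 hi
          omega
        rw [h2, pow_add]
        ring
  choose A' hA' using hint
  refine ⟨D, by exact_mod_cast hD0, A', ?_, fun n => by rw [← hA' n]; push_cast; rfl⟩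
  refine Rec.nice d c' A' fun n => ?_
  have h1 : ((A' (n + d) : ℤ) : ℚ) = ((∑ i ∈ range d, c' i * A' (n + i) : ℤ) : ℚ) := by
    rw [← hA', hrec, mul_sum]
    push_cast
    refine sum_congr rfl fun i hi => ?_
    rw [← hA', ← hc' i (mem_range.1 hi)]
    have h2 : n + d + 1 = (d - i) + (n + i + 1) := by
      have := mem_range.1 hi
      omega
    rw [h2, pow_add]
    ring
  exact_mod_cast h1

/-- **Skolem-Mahler-Lech for A B = W** -/
theorem sml {W : ℕ → ℤ} (hW : ∀ n, W (n + 2) = W (n + 1) + W n) {a : ℕ} (ha : 0 < a) (b : ℕ)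
    {A B : ℕ → ℚ} {EA EB : LinearRecurrence ℚ} (hA : EA.IsSolution A) (hB : EB.IsSolution B) :
    ∃ m n0 : ℕ, 0 < m ∧ ∀ n ≥ n0, A n * B n = W (a * n + b) →
      ∀ k, A (n + k * m) * B (n + k * m) = W (a * (n + k * m) + b) := by
  obtain ⟨D, hD, A', hA', h1⟩ := clear hA
  obtain ⟨F, hF, B', hB', h2⟩ := clear hB
  have h3 := (hA'.mul hB').add (((nice_pow D).mul (nice_pow F)).mul (nice_fib hW ha b)).neg
  set u : ℕ → ℤ := A' * B' + -(((fun n => D ^ (n + 1)) * fun n => F ^ (n + 1))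
    * fun n => W (a * n + b)) with hu
  obtain ⟨m, n0, hm, h4⟩ := h3.eventually
  have hz : ∀ n, u n = 0 ↔ A n * B n = W (a * n + b) := by
    intro n
    simp only [hu, Pi.add_apply, Pi.mul_apply, Pi.neg_apply]
    have hDF : ((D : ℚ) ^ (n + 1) * (F : ℚ) ^ (n + 1)) ≠ 0 :=
      mul_ne_zero (pow_ne_zero _ (by exact_mod_cast hD)) (pow_ne_zero _ (by exact_mod_cast hF))
    rw [← @Int.cast_inj ℚ]
    push_cast
    rw [h1, h2]
    constructor
    · intro h5
      refine mul_left_cancel₀ hDF ?_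
      linear_combination h5
    · intro h5
      rw [← h5]
      ring
  exact ⟨m, n0, hm, fun n hn h5 k => (hz _).1 (h4 n hn ((hz n).2 h5) k)⟩

end Pool.Agent.Lib.MP_5893d7_nt.Af
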