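import Pool.Agent.Lib.MP_5893d7_nt.Af.Mn
import Pool.Agent.Lib.MP_5893d7_nt.Af.Rc

/-!
MP_5893d7_nt, factorisations by linear recurrences: conclusion.
-/

set_option autoImplicit false

namespace Pool.Agent.Lib.MP_5893d7_nt.Af

open Finset

attribute [-instance] DivisionRing.toRatAlgebra in
/-- the class theorem over the algebraic closure of the rationals -/
theorem class_thm' {W : ℕ → ℤ} (hW : ∀ n, W (n + 2) = W (n + 1) + W n)
    (h0 : W 0 = 0 ∨ W 0 = 2) (h1 : W 1 = 1) {a b : ℕ} (ha : 0 < a) (hab : a.Coprime b)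
    {A B : ℕ → ℚ} {EA EB : LinearRecurrence ℚ} (hA : EA.IsSolution A) (hB : EB.IsSolution B) :
    ∃ N1 n0 : ℕ, 0 < N1 ∧ ∀ N : ℕ, 0 < N → N1 ∣ N → ∀ n ≥ n0, ∀ κ t : ℕ,
      a * n + b = 2 ^ κ * t → t.Coprime N → (κ = 0 ∨ W 0 = 2) →
      (∀ k, A (N * k + n) * B (N * k + n) = W (a * (N * k + n) + b)) →
      (∃ c s : ℚ, c ≠ 0 ∧ s ≠ 0 ∧ ∀ k, A (N * k + n) = c * s ^ k) ∨
      (∃ c s : ℚ, c ≠ 0 ∧ s ≠ 0 ∧ ∀ k, B (N * k + n) = c * s ^ k) :=
  @class_thm W hW h0 h1 a b ha hab A B EA EB hA hB (AlgebraicClosure ℚ) _ _ _ _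

/-- a common prime factor of `V_s` and `U_s` -/
lemma luc_fib {W : ℕ → ℤ} (hW : ∀ n, W (n + 2) = W (n + 1) + W n) (h0 : W 0 = 2)
    (h1 : W 1 = 1) {s l : ℕ} (hl : l.Prime) (h2 : (l : ℤ) ∣ W s) (h7 : l ∣ Nat.fib s) :
    l = 2 ∧ 3 ∣ s := by
  have hfib : ∀ n, W n = 2 * Nat.fib (n + 1) - Nat.fib n
      ∧ W (n + 1) = 2 * Nat.fib (n + 2) - Nat.fib (n + 1) := by
    intro n
    induction n with
    | zero => simp [h0, h1]
    | succ n ih =>
      refine ⟨ih.2, ?_⟩
      rw [hW n, ih.1, ih.2, Nat.fib_add_two (n := n + 1), Nat.fib_add_two (n := n)]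
      push_cast
      ring
  have h8 : l = 2 := by
    have h9 : (l : ℤ) ∣ 2 * Nat.fib (s + 1) := by
      have h10 : (2 * Nat.fib (s + 1) : ℤ) = W s + Nat.fib s := by
        rw [(hfib s).1]
        ring
      rw [h10]
      exact dvd_add h2 (by exact_mod_cast h7)
    have h10 : l ∣ 2 * Nat.fib (s + 1) := by exact_mod_cast h9
    rcases (Nat.Prime.dvd_mul hl).1 h10 with h11 | h11
    · exact (Nat.prime_dvd_prime_iff_eq hl Nat.prime_two).1 h11
    · exfalso
      have h12 := Nat.dvd_gcd h7 h11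
      rw [(Nat.fib_coprime_fib_succ s).gcd_eq_one] at h12
      exact hl.one_lt.ne' (Nat.dvd_one.1 h12)
  refine ⟨h8, ?_⟩
  rw [h8] at h7
  have h11 : 2 ∣ Nat.gcd (Nat.fib s) (Nat.fib 3) := Nat.dvd_gcd h7 ⟨1, rfl⟩
  rw [← Nat.fib_gcd] at h11
  by_contra h12
  have h13 : Nat.gcd s 3 = 1 := by
    rw [Nat.gcd_comm]
    exact (Nat.Prime.coprime_iff_not_dvd Nat.prime_three).2 h12
  rw [h13] at h11
  have h14 : Nat.fib 1 = 1 := rfl
  omega

/-- common prime factors of two neighbours for the Lucas numbers of even index -/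
lemma no_common_even {W : ℕ → ℤ} (hW : ∀ n, W (n + 2) = W (n + 1) + W n) (h0 : W 0 = 2)
    (h1 : W 1 = 1) {s M : ℕ} (h2g : 2 * s.gcd M ∣ s) (h3g : ¬ 3 ∣ s.gcd M) {l : ℕ} (hl : l.Prime)
    (h2 : (l : ℤ) ∣ W s) (h3 : (l : ℤ) ∣ W (s + M)) : False := by
  have h4 : l ∣ Nat.fib (2 * s) := by exact_mod_cast h2.trans (dvd_fib hW (Or.inr h0) h1 s)
  have h5 : l ∣ Nat.fib (2 * (s + M)) := by
    exact_mod_cast h3.trans (dvd_fib hW (Or.inr h0) h1 (s + M))
  have h6 := Nat.dvd_gcd h4 h5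
  rw [← Nat.fib_gcd, Nat.gcd_mul_left, Nat.gcd_self_add_right] at h6
  have h7 : l ∣ Nat.fib s := h6.trans (Nat.fib_dvd _ _ h2g)
  obtain ⟨h8, h9⟩ := luc_fib hW h0 h1 hl h2 h7
  subst h8
  have hthree : 3 ∣ s + M := by
    -- two divides both `V` and hence `U` at `s + M`
    have h10 : (2 : ℤ) ∣ Nat.fib (s + M) := by
      have hfib : ∀ n, W n = 2 * Nat.fib (n + 1) - Nat.fib n
          ∧ W (n + 1) = 2 * Nat.fib (n + 2) - Nat.fib (n + 1) := by
        intro n
        induction n with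
        | zero => simp [h0, h1]
        | succ n ih =>
          refine ⟨ih.2, ?_⟩
          rw [hW n, ih.1, ih.2, Nat.fib_add_two (n := n + 1), Nat.fib_add_two (n := n)]
          push_cast
          ring
      have h11 : (Nat.fib (s + M) : ℤ) = 2 * Nat.fib (s + M + 1) - W (s + M) := by
        rw [(hfib (s + M)).1]
        ring
      rw [h11]
      exact dvd_sub (Dvd.intro _ rfl) h3
    exact (luc_fib hW h0 h1 Nat.prime_two h3 (by exact_mod_cast h10)).2
  exact h3g (Nat.dvd_gcd h9 ((Nat.dvd_add_right h9).1 hthree))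

/-- integer values of a geometric factor are units -/
lemma unit_of_geom {W : ℕ → ℤ} {s M : ℕ}
    (hnc : ∀ k, ∀ l : ℕ, l.Prime → (l : ℤ) ∣ W (s + M * k) → (l : ℤ) ∣ W (s + M * (k + 1)) →
      (l : ℤ) ∣ W (s + M * (k + 2)) → False)
    {y z : ℕ → ℤ} (hyz : ∀ k, y k * z k = W (s + M * k)) {c r : ℚ} (hc : c ≠ 0) (hr : r ≠ 0)
    (hy : ∀ k, (y k : ℚ) = c * r ^ k) (k : ℕ) : |y k| = 1 := by
  by_contra hne
  have h2 : (y k).natAbs ≠ 1 := by
    intro h3
    apply hne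
    rw [Int.abs_eq_natAbs, h3]
    rfl
  obtain ⟨l, hl, h3⟩ := Nat.exists_prime_and_dvd h2
  have h4 : (l : ℤ) ∣ y k := Int.natCast_dvd.2 h3
  have hstep : ∀ k, (l : ℤ) ∣ y k → (l : ℤ) ∣ y (k + 1) := by
    intro k h4
    have h5 : y (k + 1) ^ 2 = y k * y (k + 2) := by
      have h6 : ((y (k + 1) : ℚ)) ^ 2 = y k * y (k + 2) := by
        rw [hy, hy, hy]
        ring
      exact_mod_cast h6
    have h7 : (l : ℤ) ∣ y (k + 1) ^ 2 := by
      rw [h5]
      exact h4.mul_right _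
    exact (Nat.prime_iff_prime_int.1 hl).dvd_of_dvd_pow h7
  have h5 := hstep k h4
  have h6 := hstep (k + 1) h5
  refine hnc k l hl ?_ ?_ ?_
  · rw [← hyz k]
    exact h4.mul_right _
  · rw [← hyz (k + 1)]
    exact h5.mul_right _
  · rw [← hyz (k + 2)]
    exact h6.mul_right _

/-- **no algebraic factorisation** -/
theorem main_thm {W : ℕ → ℤ} (hW : ∀ n, W (n + 2) = W (n + 1) + W n)
    (h0 : W 0 = 0 ∨ W 0 = 2) (h1 : W 1 = 1) {a b : ℕ} (ha : 0 < a) (hab : a.Coprime b)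
    {A B : ℕ → ℚ} {EA EB : LinearRecurrence ℚ} (hA : EA.IsSolution A) (hB : EB.IsSolution B) :
    ∃ N : ℕ, 0 < N ∧ ∀ n ≥ N, ∀ κ t : ℕ, a * n + b = 2 ^ κ * t → t.Coprime N →
      (κ = 0 ∨ (W 0 = 2 ∧ ¬ 2 ^ κ ∣ N)) → A n * B n = W (a * n + b) →
      (∀ k, A (n + N * k) * B (n + N * k) = W (a * (n + N * k) + b)) ∧
      ((∃ c s : ℚ, c ≠ 0 ∧ s ≠ 0 ∧ ∀ k, A (n + N * k) = c * s ^ k) ∨
        (∃ c s : ℚ, c ≠ 0 ∧ s ≠ 0 ∧ ∀ k, B (n + N * k) = c * s ^ k)) ∧
      ((∀ k, ∃ y z : ℤ, A (n + N * k) = y ∧ B (n + N * k) = z) →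
        (∀ k, |A (n + N * k)| = 1) ∨ (∀ k, |B (n + N * k)| = 1)) := by
  obtain ⟨N1, n1, hN1, h2⟩ := class_thm' hW h0 h1 ha hab hA hB
  obtain ⟨m, n2, hm, h3⟩ := sml hW ha b hA hB
  refine ⟨N1 * m * (n1 + n2 + 1), by positivity, fun n hn κ t hst hco hκ h4 => ?_⟩
  set N := N1 * m * (n1 + n2 + 1) with hN
  have hN0 : 0 < N := by positivity
  have hle : n1 + n2 + 1 ≤ N := Nat.le_mul_of_pos_left _ (Nat.mul_pos hN1 hm)
  have hid : ∀ k, A (n + N * k) * B (n + N * k) = W (a * (n + N * k) + b) := by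
    intro k
    have h5 := h3 n (by omega) h4 (N1 * (n1 + n2 + 1) * k)
    rw [show N1 * (n1 + n2 + 1) * k * m = N * k by rw [hN]; ring] at h5
    exact h5
  have h5 := h2 N hN0 ⟨m * (n1 + n2 + 1), by rw [hN]; ring⟩ n (by omega) κ t hst hco
    (hκ.imp_right And.left) (by
      intro k
      rw [add_comm]
      exact hid k)
  simp only [add_comm _ n] at h5
  refine ⟨hid, h5, fun hint => ?_⟩
  choose y z hy hz using hint
  set s := a * n + b with hs
  set M := a * N with hM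
  have hsa : s.Coprime a := by
    rw [hs, add_comm, Nat.coprime_add_mul_left_left]
    exact hab.symm
  have htM : t.Coprime M :=
    Nat.Coprime.mul_right (Nat.Coprime.coprime_dvd_left ⟨2 ^ κ, by rw [hst]; ring⟩ hsa) hco
  have hyz : ∀ k, y k * z k = W (s + M * k) := by
    intro k
    have h6 := hid k
    rw [hy, hz] at h6
    rw [show s + M * k = a * (n + N * k) + b by rw [hs, hM]; ring]
    exact_mod_cast h6
  have hnc : ∀ k, ∀ l : ℕ, l.Prime → (l : ℤ) ∣ W (s + M * k) → (l : ℤ) ∣ W (s + M * (k + 1)) →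
      (l : ℤ) ∣ W (s + M * (k + 2)) → False := by
    intro k l hl e0 e1 e2
    rcases hκ with hκ0 | ⟨hW0, hκN⟩
    · have hst' : s = t := by rw [hst, hκ0, pow_zero, one_mul]
      have hco' : (s + M * k).Coprime M := by
        rw [Nat.coprime_add_mul_left_left, hst']
        exact htM
      refine no_common hW h0 h1 hco' hl e0 ?_
      rw [show s + M * k + M = s + M * (k + 1) by ring]
      exact e1
    · have hg : ∀ j, (s + M * j).gcd M = s.gcd M := by
        intro j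
        rw [Nat.gcd_add_mul_left_left]
      have h2a : (2 ^ κ).Coprime a := Nat.Coprime.coprime_dvd_left ⟨t, hst⟩ hsa
      have hgs : s.gcd M = (2 ^ κ).gcd M := by
        rw [hst]
        exact Nat.Coprime.gcd_mul_right_cancel _ htM
      obtain ⟨i, hi, hgi⟩ := (Nat.dvd_prime_pow Nat.prime_two).1 (Nat.gcd_dvd_left (2 ^ κ) M)
      have hiκ : i < κ := by
        rcases Nat.lt_or_ge i κ with h6 | h6
        · exact h6
        · exfalso
          have h7 : i = κ := le_antisymm hi h6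
          apply hκN
          have h8 : 2 ^ κ ∣ M := by
            rw [← h7, ← hgi]
            exact Nat.gcd_dvd_right _ _
          exact h2a.dvd_of_dvd_mul_left h8
      have h2g : 2 * s.gcd M ∣ s := by
        rw [hgs, hgi, ← pow_succ']
        exact (pow_dvd_pow 2 hiκ).trans ⟨t, hst⟩
      have h3g : ¬ 3 ∣ s.gcd M := by
        rw [hgs, hgi]
        intro h6
        have h7 := Nat.prime_three.dvd_of_dvd_pow h6
        omega
      have hev : ∀ j, Even j → 2 * (s + M * j).gcd M ∣ s + M * j := by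
        intro j hj
        rw [hg]
        refine dvd_add h2g ?_
        rw [mul_comm 2]
        exact Nat.mul_dvd_mul (Nat.gcd_dvd_right _ _) hj.two_dvd
      rcases Nat.even_or_odd k with hk | hk
      · refine no_common_even hW hW0 h1 (hev k hk) (by rw [hg]; exact h3g) hl e0 ?_
        rw [show s + M * k + M = s + M * (k + 1) by ring]
        exact e1
      · refine no_common_even hW hW0 h1 (hev (k + 1) (hk.add_odd odd_one)) (by rw [hg]; exact h3g)
          hl e1 ?_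
        rw [show s + M * (k + 1) + M = s + M * (k + 2) by ring]
        exact e2
  rcases h5 with ⟨c, r, hc, hr, h6⟩ | ⟨c, r, hc, hr, h6⟩
  · left
    intro k
    have h7 := unit_of_geom hnc hyz hc hr (fun k => by rw [← hy, h6]) k
    rw [hy]
    exact_mod_cast h7
  · right
    intro k
    have h7 := unit_of_geom hnc (y := z) (z := y)
      (fun k => by rw [mul_comm]; exact hyz k) hc hr (fun k => by rw [← hz, h6]) k
    rw [hz]
    exact_mod_cast h7

end Pool.Agent.Lib.MP_5893d7_nt.Af
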