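import Pool.Agent.Lib.MP_5893d7_nt.Af.Dz
import Pool.Agent.Lib.MP_5893d7_nt.Af.Fin

/-!
MP_5893d7_nt, expressions P(n, U_n, U_(n+1)): the final statement.
-/

set_option autoImplicit false

namespace Pool.Agent.Lib.MP_5893d7_nt.Af

open Finset

/-- every positive integer divides a Fibonacci number of positive index -/
lemma exists_dvd_fib {q : ℕ} (hq : 0 < q) : ∃ z, 0 < z ∧ q ∣ Nat.fib z := by
  obtain ⟨m, hm, h⟩ := Rec.period (d := 2) two_pos (c := fun _ => 1) hq isCoprime_one_left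
  refine ⟨m, hm, ?_⟩
  have h1 := h (fun n => (Nat.fib n : ℤ)) (fun n => by
    show ((Nat.fib (n + 2) : ℕ) : ℤ) = _
    rw [Nat.fib_add_two, sum_range_succ, sum_range_one]
    push_cast
    rw [one_mul, one_mul, add_zero]) 0
  simp only [zero_add, Nat.fib_zero, Nat.cast_zero, sub_zero] at h1
  exact_mod_cast h1

/-- the fixed number d is prime to W m for the relevant m -/
lemma exists_N {W : ℕ → ℤ} (hW : ∀ n, W (n + 2) = W (n + 1) + W n) (h0 : W 0 = 0 ∨ W 0 = 2)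
    (h1 : W 1 = 1) {d : ℕ} (hd : 0 < d) :
    ∃ N : ℕ, 0 < N ∧ ∀ κ t : ℕ, t.Coprime N → (κ = 0 ∨ (W 0 = 2 ∧ ¬ 2 ^ κ ∣ N)) →
      ∀ l : ℕ, l.Prime → l ∣ d → ¬ (l : ℤ) ∣ W (2 ^ κ * t) := by
  obtain ⟨z, hz, hdz⟩ := exists_dvd_fib hd
  refine ⟨6 * z, by omega, fun κ t hco hκ l hl hld hlW => ?_⟩
  have h2 : l ∣ Nat.fib (2 * (2 ^ κ * t)) := by exact_mod_cast hlW.trans (dvd_fib hW h0 h1 _)
  have h3 : l ∣ Nat.fib (6 * z) := (hld.trans hdz).trans (Nat.fib_dvd _ _ ⟨6, by ring⟩)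
  have h4 := Nat.dvd_gcd h2 h3
  rw [← Nat.fib_gcd] at h4
  have h5 : Nat.gcd (2 * (2 ^ κ * t)) (6 * z) = Nat.gcd (2 ^ (κ + 1)) (6 * z) := by
    rw [show 2 * (2 ^ κ * t) = 2 ^ (κ + 1) * t by rw [pow_succ]; ring]
    exact Nat.Coprime.gcd_mul_right_cancel _ hco
  rw [h5] at h4
  obtain ⟨i, hi, hgi⟩ := (Nat.dvd_prime_pow Nat.prime_two).1
    (Nat.gcd_dvd_left (2 ^ (κ + 1)) (6 * z))
  rw [hgi] at h4
  have hiN : 2 ^ i ∣ 6 * z := by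
    rw [← hgi]
    exact Nat.gcd_dvd_right _ _
  rcases hκ with hκ | ⟨hW0, hκ⟩
  · rw [hκ] at hi
    have h6 : i = 0 ∨ i = 1 := by omega
    have h7 : Nat.fib (2 ^ i) = 1 := by
      rcases h6 with h6 | h6 <;> rw [h6] <;> rfl
    rw [h7] at h4
    exact hl.one_lt.ne' (Nat.dvd_one.1 h4)
  · have hiκ : i < κ := by
      by_contra h6
      exact hκ ((pow_dvd_pow 2 (by omega)).trans hiN)
    have h6 : 2 ^ i ∣ 2 ^ κ * t := (pow_dvd_pow 2 hiκ.le).mul_right t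
    have h7 : l ∣ Nat.fib (2 ^ κ * t) := h4.trans (Nat.fib_dvd _ _ h6)
    obtain ⟨_, h8⟩ := luc_fib hW hW0 h1 hl hlW h7
    rcases (Nat.Prime.dvd_mul Nat.prime_three).1 h8 with h9 | h9
    · have := Nat.prime_three.dvd_of_dvd_pow h9
      omega
    · have h10 := Nat.dvd_gcd h9 (⟨2 * z, by ring⟩ : 3 ∣ 6 * z)
      rw [hco.gcd_eq_one] at h10
      omega

attribute [-instance] DivisionRing.toRatAlgebra in
theorem dich' {W : ℕ → ℤ} (hW : ∀ n, W (n + 2) = W (n + 1) + W n)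
    (h0 : W 0 = 0 ∨ W 0 = 2) (h1 : W 1 = 1) {a b : ℕ} (ha : 0 < a) (hab : a.Coprime b)
    (P : MvPolynomial (Fin 3) ℤ) {r : ℕ} (hr : Odd (a * r + b) ∨ W 0 = 2) :
    ∃ (d : ℤ) (R : Polynomial ℤ), d ≠ 0 ∧ R.IsPrimitive ∧ R.natDegree ≤ 2 * a * P.degreeOf 0 ∧
      (∀ ρ : ℂ, Polynomial.aeval ρ R = 0 → ∃ x y : ℂ, y ^ 2 - x * y - x ^ 2 = (-1) ^ r ∧
        MvPolynomial.aeval ![ρ, x, y] P = 0) ∧
      ((∀ n : ℕ, n % 2 = r % 2 → ∀ g : ℤ,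
        g ∣ MvPolynomial.eval ![(n : ℤ), (Nat.fib n : ℤ), (Nat.fib (n + 1) : ℤ)] P
        → g ∣ W (a * n + b) → g ∣ d * R.eval (n : ℤ)) ∨
      (∀ n : ℕ, n % 2 = r % 2 → W (a * n + b)
        ∣ d * MvPolynomial.eval ![(n : ℤ), (Nat.fib n : ℤ), (Nat.fib (n + 1) : ℤ)] P)) := by
  obtain ⟨α, ι, h⟩ := exists_gold (Kb := AlgebraicClosure ℚ)
  exact dich h hW h0 h1 ha hab P hr

/-- **common divisors** -/
theorem poly_thm {W : ℕ → ℤ} (hW : ∀ n, W (n + 2) = W (n + 1) + W n)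
    (h0 : W 0 = 0 ∨ W 0 = 2) (h1 : W 1 = 1) {a b : ℕ} (ha : 0 < a) (hab : a.Coprime b)
    (P : MvPolynomial (Fin 3) ℤ) (A : ℕ → ℤ)
    (hA : ∀ n, A n = MvPolynomial.eval ![(n : ℤ), (Nat.fib n : ℤ), (Nat.fib (n + 1) : ℤ)] P)
    (r : ℕ) (hr : Odd (a * r + b) ∨ W 0 = 2) :
    ∃ (d N : ℕ) (R : Polynomial ℤ), 0 < d ∧ 0 < N ∧ R.IsPrimitive ∧
      R.natDegree ≤ 2 * a * P.degreeOf 0 ∧
      (∀ ρ : ℂ, Polynomial.aeval ρ R = 0 → ∃ x y : ℂ, y ^ 2 - x * y - x ^ 2 = (-1) ^ r ∧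
        MvPolynomial.aeval ![ρ, x, y] P = 0) ∧
      ((∀ n : ℕ, n % 2 = r % 2 →
        (Int.gcd (A n) (W (a * n + b)) : ℤ) ∣ d * R.eval (n : ℤ) ∧
        ∀ κ t : ℕ, a * n + b = 2 ^ κ * t → t.Coprime N → (κ = 0 ∨ (W 0 = 2 ∧ ¬ 2 ^ κ ∣ N)) →
          (Int.gcd (A n) (W (a * n + b)) : ℤ) ∣ R.eval (n : ℤ)) ∨
      (∀ n : ℕ, n % 2 = r % 2 →
        W (a * n + b) ∣ d * A n ∧
        ∀ κ t : ℕ, a * n + b = 2 ^ κ * t → t.Coprime N → (κ = 0 ∨ (W 0 = 2 ∧ ¬ 2 ^ κ ∣ N)) →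
          W (a * n + b) ∣ A n)) := by
  obtain ⟨d, R, hd, hR, hRd, hroots, h2⟩ := dich' hW h0 h1 ha hab P hr
  have hdpos : 0 < d.natAbs := Int.natAbs_pos.2 hd
  obtain ⟨N, hN, hcop⟩ := exists_N hW h0 h1 hdpos
  have hcopr : ∀ m κ t : ℕ, m = 2 ^ κ * t → t.Coprime N → (κ = 0 ∨ (W 0 = 2 ∧ ¬ 2 ^ κ ∣ N)) →
      ∀ g : ℤ, g ∣ W m → IsCoprime g (d.natAbs : ℤ) := by
    intro m κ t hst hco hκ g hg
    rw [Int.isCoprime_iff_gcd_eq_one]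
    by_contra h4
    obtain ⟨l, hl, h5⟩ := Nat.exists_prime_and_dvd h4
    refine hcop κ t hco hκ l hl ?_ ?_
    · have h6 : (l : ℤ) ∣ (d.natAbs : ℤ) :=
        (Int.natCast_dvd_natCast.2 h5).trans (Int.gcd_dvd_right _ _)
      exact_mod_cast h6
    · rw [← hst]
      exact ((Int.natCast_dvd_natCast.2 h5).trans (Int.gcd_dvd_left _ _)).trans hg
  have hdd : ∀ x y : ℤ, x ∣ d * y → x ∣ (d.natAbs : ℤ) * y := by
    intro x y hxy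
    rcases Int.natAbs_eq d with h3 | h3
    · rw [← h3]
      exact hxy
    · rw [h3] at hxy
      have h4 : -(d.natAbs : ℤ) * y = -((d.natAbs : ℤ) * y) := by ring
      rw [h4] at hxy
      exact (dvd_neg).1 hxy
  refine ⟨d.natAbs, N, R, hdpos, hN, hR, hRd, hroots, ?_⟩
  rcases h2 with h2 | h2
  · left
    intro n hn
    have h3 : (Int.gcd (A n) (W (a * n + b)) : ℤ) ∣ d.natAbs * R.eval (n : ℤ) := by
      refine hdd _ _ (h2 n hn _ ?_ (Int.gcd_dvd_right (A n) (W (a * n + b))))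
      rw [← hA]
      exact Int.gcd_dvd_left (A n) (W (a * n + b))
    refine ⟨h3, fun κ t hst hco hκ => ?_⟩
    exact (hcopr _ κ t hst hco hκ _ (Int.gcd_dvd_right _ _)).dvd_of_dvd_mul_left h3
  · right
    intro n hn
    have h3 : W (a * n + b) ∣ d.natAbs * A n := by
      refine hdd _ _ ?_
      rw [hA]
      exact h2 n hn
    refine ⟨h3, fun κ t hst hco hκ => ?_⟩
    exact (hcopr _ κ t hst hco hκ _ dvd_rfl).dvd_of_dvd_mul_left h3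

end Pool.Agent.Lib.MP_5893d7_nt.Af
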