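import Pool.Agent.Lib.MP_5893d7_nt.Af.Dv

/-!
MP_5893d7_nt, expressions P(n, U_n, U_(n+1)): evaluation, Galois action, integrality.
-/

set_option autoImplicit false
set_option linter.unusedSectionVars false

namespace Pool.Agent.Lib.MP_5893d7_nt.Af

open Polynomial Finset IntermediateField

variable {Kb : Type} [Field Kb] [CharZero Kb] [Algebra ℚ Kb] [IsAlgClosure ℚ Kb]
  {α : Kb} {ι : Kb →+* ℂ}

/-- the three arguments -/
noncomputable def arg (α ε w : Kb) : Fin 3 → Kb[X] :=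
  ![X, C ((w - ε / w) / (2 * α - 1)), C ((α * w - (1 - α) * (ε / w)) / (2 * α - 1))]

/-- the expression as a function of `w = α ^ n`, a polynomial in `n` -/
noncomputable def Ev (α ε : Kb) (P : MvPolynomial (Fin 3) ℤ) (w : Kb) : Kb[X] :=
  MvPolynomial.aeval (arg α ε w) P

lemma Ev_poly (α ε : Kb) (P : MvPolynomial (Fin 3) ℤ) :
    ∃ (J : ℕ) (f : Kb[X][X]), ∀ w : Kb, w ≠ 0 → f.eval (C w) = C (w ^ J) * Ev α ε P w := by
  induction P using MvPolynomial.induction_on with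
  | C c => exact ⟨0, C (C (c : Kb)), fun w _ => by simp [Ev]⟩
  | add P Q hP hQ =>
    obtain ⟨J, f, hf⟩ := hP
    obtain ⟨J', f', hf'⟩ := hQ
    refine ⟨J + J', X ^ J' * f + X ^ J * f', fun w hw => ?_⟩
    simp only [eval_add, eval_mul, eval_pow, eval_X, hf w hw, hf' w hw]
    simp only [Ev, map_add, pow_add, C_mul, C_pow]
    ring
  | mul_X P i hP =>
    obtain ⟨J, f, hf⟩ := hP
    have h1 : ∃ (j : ℕ) (g : Kb[X][X]), ∀ w : Kb, w ≠ 0 → g.eval (C w) = C (w ^ j) * arg α ε w i := by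
      fin_cases i
      · refine ⟨0, C X, fun w hw => ?_⟩
        simp [arg]
      · refine ⟨1, C (C ((2 * α - 1)⁻¹)) * (X ^ 2 - C (C ε)), fun w hw => ?_⟩
        simp only [eval_mul, eval_C, eval_sub, eval_pow, eval_X]
        show C ((2 * α - 1)⁻¹) * (C w ^ 2 - C ε) = C (w ^ 1) * C ((w - ε / w) / (2 * α - 1))
        rw [← C_pow, ← C_sub, ← C_mul, ← C_mul]
        congr 1
        field_simp
      · refine ⟨1, C (C ((2 * α - 1)⁻¹)) * (C (C α) * X ^ 2 - C (C ((1 - α) * ε))), fun w hw => ?_⟩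
        simp only [eval_mul, eval_C, eval_sub, eval_pow, eval_X]
        show C ((2 * α - 1)⁻¹) * (C α * C w ^ 2 - C ((1 - α) * ε))
          = C (w ^ 1) * C ((α * w - (1 - α) * (ε / w)) / (2 * α - 1))
        rw [← C_pow, ← C_mul, ← C_sub, ← C_mul, ← C_mul]
        congr 1
        field_simp
    obtain ⟨j, g, hg⟩ := h1
    refine ⟨J + j, f * g, fun w hw => ?_⟩
    rw [eval_mul, hf w hw, hg w hw]
    simp only [Ev, map_mul, MvPolynomial.aeval_X, pow_add, C_mul]
    ring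

lemma Ev_gal (σ : Kb ≃ₐ[ℚ] Kb) {ε : Kb} (P : MvPolynomial (Fin 3) ℤ) (w w' : Kb)
    (h : ∀ i, (arg α ε w i).map (σ : Kb →+* Kb) = arg α ε w' i) :
    (Ev α ε P w).map (σ : Kb →+* Kb) = Ev α ε P w' := by
  have h1 : (mapRingHom (σ : Kb →+* Kb)).comp
        (MvPolynomial.aeval (arg α ε w) : _ →ₐ[ℤ] Kb[X]).toRingHom
      = (MvPolynomial.aeval (arg α ε w') : _ →ₐ[ℤ] Kb[X]).toRingHom := by
    refine MvPolynomial.ringHom_ext (fun c => ?_) (fun i => ?_)
    · simp
    · simpa using h i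
  exact congrArg (fun φ => φ P) h1

lemma arg_gal1 {σ : Kb ≃ₐ[ℚ] Kb} (hσ : σ α = α) {ε : Kb} (hε : ε = 1 ∨ ε = -1) (w : Kb) (i : Fin 3) :
    (arg α ε w i).map (σ : Kb →+* Kb) = arg α ε (σ w) i := by
  have h1 : σ ε = ε := by rcases hε with h | h <;> rw [h] <;> simp
  fin_cases i
  · simp [arg]
  · show (C ((w - ε / w) / (2 * α - 1))).map (σ : Kb →+* Kb) = C ((σ w - ε / σ w) / (2 * α - 1))
    rw [map_C]
    congr 1
    show σ _ = _
    simp only [map_div₀, map_sub, map_mul, map_one, map_ofNat, hσ, h1]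
  · show (C ((α * w - (1 - α) * (ε / w)) / (2 * α - 1))).map (σ : Kb →+* Kb)
      = C ((α * σ w - (1 - α) * (ε / σ w)) / (2 * α - 1))
    rw [map_C]
    congr 1
    show σ _ = _
    simp only [map_div₀, map_sub, map_mul, map_one, map_ofNat, hσ, h1]

lemma arg_gal2 {σ : Kb ≃ₐ[ℚ] Kb} (hσ : σ α = 1 - α) {ε : Kb} (hε : ε = 1 ∨ ε = -1) (w : Kb)
    (i : Fin 3) : (arg α ε w i).map (σ : Kb →+* Kb) = arg α ε (ε / σ w) i := by
  have h1 : σ ε = ε := by rcases hε with h | h <;> rw [h] <;> simp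
  have hε0 : ε ≠ 0 := by rcases hε with h | h <;> rw [h] <;> norm_num
  have h2 : ε / (ε / σ w) = σ w := by
    rw [div_div_eq_mul_div, mul_div_cancel_left₀ _ hε0]
  have h3 : 2 * (1 - α) - 1 = -(2 * α - 1) := by ring
  fin_cases i
  · simp [arg]
  · show (C ((w - ε / w) / (2 * α - 1))).map (σ : Kb →+* Kb)
      = C ((ε / σ w - ε / (ε / σ w)) / (2 * α - 1))
    rw [map_C]
    congr 1
    show σ _ = _
    simp only [map_div₀, map_sub, map_mul, map_one, map_ofNat, hσ, h1]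
    rw [h2, h3, div_neg, ← neg_div, neg_sub]
  · show (C ((α * w - (1 - α) * (ε / w)) / (2 * α - 1))).map (σ : Kb →+* Kb)
      = C ((α * (ε / σ w) - (1 - α) * (ε / (ε / σ w))) / (2 * α - 1))
    rw [map_C]
    congr 1
    show σ _ = _
    simp only [map_div₀, map_sub, map_mul, map_one, map_ofNat, hσ, h1]
    rw [h2, h3, div_neg, ← neg_div, neg_sub, sub_sub_cancel]

/-- the degree in n -/
lemma Ev_natDegree (α ε : Kb) (P : MvPolynomial (Fin 3) ℤ) (w : Kb) :
    (Ev α ε P w).natDegree ≤ P.degreeOf 0 := by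
  unfold Ev
  rw [MvPolynomial.aeval_def, MvPolynomial.eval₂_eq']
  refine natDegree_sum_le_of_forall_le _ _ fun m hm => ?_
  have h1 : m 0 ≤ P.degreeOf 0 := MvPolynomial.monomial_le_degreeOf 0 hm
  refine le_trans ?_ h1
  refine natDegree_mul_le.trans ?_
  have h2 : (algebraMap ℤ Kb[X] (MvPolynomial.coeff m P)).natDegree = 0 := by
    simp
  rw [h2, zero_add, Fin.prod_univ_three]
  have h3 : (arg α ε w 0 ^ m 0).natDegree ≤ m 0 := by
    show (X ^ m 0 : Kb[X]).natDegree ≤ m 0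
    rw [natDegree_X_pow]
  have h4 : (arg α ε w 1 ^ m 1).natDegree = 0 := by
    show (C ((w - ε / w) / (2 * α - 1)) ^ m 1).natDegree = 0
    rw [← C_pow, natDegree_C]
  have h5 : (arg α ε w 2 ^ m 2).natDegree = 0 := by
    show (C ((α * w - (1 - α) * (ε / w)) / (2 * α - 1)) ^ m 2).natDegree = 0
    rw [← C_pow, natDegree_C]
  have h6 := natDegree_mul_le (p := arg α ε w 0 ^ m 0 * arg α ε w 1 ^ m 1)
    (q := arg α ε w 2 ^ m 2)
  have h7 := natDegree_mul_le (p := arg α ε w 0 ^ m 0) (q := arg α ε w 1 ^ m 1)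
  omega

/-- multiples with integral values -/
lemma int_mult (S : Kb[X]) : ∃ d : ℤ, d ≠ 0 ∧ ∀ x : Kb, IsIntegral ℤ x →
    IsIntegral ℤ ((d : Kb) * S.eval x) := by
  induction S using Polynomial.induction_on' with
  | add p q hp hq =>
    obtain ⟨d, hd, h1⟩ := hp
    obtain ⟨e, he, h2⟩ := hq
    refine ⟨d * e, mul_ne_zero hd he, fun x hx => ?_⟩
    have h3 : ((d * e : ℤ) : Kb) * (p + q).eval x
        = (e : Kb) * ((d : Kb) * p.eval x) + (d : Kb) * ((e : Kb) * q.eval x) := by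
      rw [eval_add]
      push_cast
      ring
    rw [h3]
    exact (isIntegral_algebraMap (R := ℤ) (x := e)).mul (h1 x hx) |>.add
      ((isIntegral_algebraMap (R := ℤ) (x := d)).mul (h2 x hx))
  | monomial n c =>
    have h1 : IsAlgebraic ℤ c := by
      have h2 : IsAlgebraic ℚ c := Algebra.IsAlgebraic.isAlgebraic c
      exact (IsFractionRing.isAlgebraic_iff ℤ ℚ Kb).2 h2
    obtain ⟨d, hd, h2⟩ := h1.exists_integral_multiple
    refine ⟨d, hd, fun x hx => ?_⟩
    rw [eval_monomial, ← mul_assoc]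
    refine IsIntegral.mul ?_ (hx.pow n)
    have h3 : (d : Kb) * c = d • c := by rw [zsmul_eq_mul]
    rw [h3]
    exact h2

/-- multiples with integral values, two variables -/
lemma int_mult2 (S : Kb[X][X]) : ∃ d : ℤ, d ≠ 0 ∧ ∀ y x : Kb, IsIntegral ℤ y → IsIntegral ℤ x →
    IsIntegral ℤ ((d : Kb) * (S.eval (C x)).eval y) := by
  induction S using Polynomial.induction_on' with
  | add p q hp hq =>
    obtain ⟨d, hd, h1⟩ := hp
    obtain ⟨e, he, h2⟩ := hq
    refine ⟨d * e, mul_ne_zero hd he, fun y x hy hx => ?_⟩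
    have h3 : ((d * e : ℤ) : Kb) * ((p + q).eval (C x)).eval y
        = (e : Kb) * ((d : Kb) * (p.eval (C x)).eval y)
          + (d : Kb) * ((e : Kb) * (q.eval (C x)).eval y) := by
      rw [eval_add, eval_add]
      push_cast
      ring
    rw [h3]
    exact (isIntegral_algebraMap (R := ℤ) (x := e)).mul (h1 y x hy hx) |>.add
      ((isIntegral_algebraMap (R := ℤ) (x := d)).mul (h2 y x hy hx))
  | monomial n c =>
    obtain ⟨d, hd, h1⟩ := int_mult c
    refine ⟨d, hd, fun y x hy hx => ?_⟩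
    rw [eval_monomial, eval_mul, ← C_pow, eval_C, ← mul_assoc]
    exact (h1 y hy).mul (hx.pow n)

/-- divisibility from integrality -/
lemma dvd_of_int {g d : ℤ} (hg : g ≠ 0) {z : Kb} (hz : IsIntegral ℤ z)
    (h : (d : Kb) = g * z) : g ∣ d := by
  have hg' : (g : Kb) ≠ 0 := by exact_mod_cast hg
  have h1 : z = algebraMap ℚ Kb ((d : ℚ) / g) := by
    rw [map_div₀, map_intCast, map_intCast, h]
    field_simp
  rw [h1] at hz
  have h2 : IsIntegral ℤ ((d : ℚ) / g) :=
    (isIntegral_algHom_iff ((Algebra.ofId ℚ Kb).restrictScalars ℤ)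
        (algebraMap ℚ Kb).injective).1 hz
  obtain ⟨t, ht⟩ := IsIntegrallyClosed.isIntegral_iff.1 h2
  refine ⟨t, ?_⟩
  have h3 : (d : ℚ) = g * t := by
    have h4 : (g : ℚ) ≠ 0 := by exact_mod_cast hg
    have h5 : (t : ℚ) = (d : ℚ) / g := by rw [← ht]; simp
    rw [h5]
    field_simp
  exact_mod_cast h3

/-- the resultant identity -/
lemma res_id (f : Kb[X][X]) (F : Finset Kb) : ∃ S T : Kb[X][X],
    C (∏ w ∈ F, f.eval (C w)) = S * f + T * ∏ w ∈ F, (X - C (C w)) := by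
  classical
  induction F using Finset.induction_on with
  | empty => exact ⟨0, 1, by simp⟩
  | insert w F hw ih =>
    obtain ⟨S, T, h1⟩ := ih
    obtain ⟨g, hg⟩ := X_sub_C_dvd_sub_C_eval (p := f) (a := C w)
    refine ⟨S * f + T * ∏ w ∈ F, (X - C (C w)) - (X - C (C w)) * g * S, -(g * T), ?_⟩
    rw [prod_insert hw, prod_insert hw, C_mul, h1]
    have h2 : C (f.eval (C w)) = f - (X - C (C w)) * g := by
      rw [← hg]
      ring
    rw [h2]
    ring

end Pool.Agent.Lib.MP_5893d7_nt.Af
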