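import Pool.Agent.Lib.MP_5893d7_nt.Af.Dx

/-!
MP_5893d7_nt, expressions P(n, U_n, U_(n+1)): the dichotomy on a class modulo two.
-/

set_option autoImplicit false
set_option linter.unusedSectionVars false

namespace Pool.Agent.Lib.MP_5893d7_nt.Af

open Polynomial Finset IntermediateField

variable {Kb : Type} [Field Kb] [CharZero Kb] [Algebra ℚ Kb] [IsAlgClosure ℚ Kb]
  {α : Kb} {ι : Kb →+* ℂ}

lemma fib_binet (h : Gold α ι) (n : ℕ) :
    (Nat.fib n : Kb) = (α ^ n - (1 - α) ^ n) / (2 * α - 1) := by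
  have h5 : (2 * α - 1) ^ 2 = 5 := by linear_combination 4 * h.root
  have hne : 2 * α - 1 ≠ 0 := by
    intro h2
    rw [h2] at h5
    norm_num at h5
  have hβ : (1 - α) ^ 2 = (1 - α) + 1 := by linear_combination h.root
  have key : ∀ n : ℕ, (Nat.fib n : Kb) * (2 * α - 1) = α ^ n - (1 - α) ^ n ∧
      (Nat.fib (n + 1) : Kb) * (2 * α - 1) = α ^ (n + 1) - (1 - α) ^ (n + 1) := by
    intro n
    induction n with
    | zero =>
      constructor
      · simp
      · simp only [zero_add, Nat.fib_one, Nat.cast_one, pow_one]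
        ring
    | succ n ih =>
      refine ⟨ih.2, ?_⟩
      rw [Nat.fib_add_two]
      push_cast
      rw [add_mul, ih.1, ih.2]
      linear_combination (-α ^ n) * h.root + ((1 - α) ^ n) * hβ
  rw [eq_div_iff hne]
  exact (key n).1

lemma Ev_at (h : Gold α ι) (P : MvPolynomial (Fin 3) ℤ) (n : ℕ) :
    (Ev α ((-1) ^ n) P (α ^ n)).eval (n : Kb)
      = ((MvPolynomial.eval ![(n : ℤ), (Nat.fib n : ℤ), (Nat.fib (n + 1) : ℤ)] P : ℤ) : Kb) := by
  have hα := h.ne_zero
  have h1 : (-1 : Kb) ^ n / α ^ n = (1 - α) ^ n := by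
    have h2 : (1 - α) = -1 / α := by
      rw [eq_div_iff hα, mul_comm]
      exact h.mul_conj
    rw [h2, div_pow]
  have h2 : ∀ i, (arg α ((-1) ^ n) (α ^ n) i).eval (n : Kb)
      = ((![(n : ℤ), (Nat.fib n : ℤ), (Nat.fib (n + 1) : ℤ)] i : ℤ) : Kb) := by
    intro i
    fin_cases i
    · simp [arg]
    · show (C ((α ^ n - (-1) ^ n / α ^ n) / (2 * α - 1))).eval (n : Kb) = ((Nat.fib n : ℤ) : Kb)
      rw [eval_C, h1]
      push_cast
      rw [fib_binet h n]
    · show (C ((α * α ^ n - (1 - α) * ((-1) ^ n / α ^ n)) / (2 * α - 1))).eval (n : Kb)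
        = ((Nat.fib (n + 1) : ℤ) : Kb)
      rw [eval_C, h1]
      push_cast
      rw [fib_binet h (n + 1), pow_succ', pow_succ']
  have h3 : ((evalRingHom (n : Kb)).comp
        (MvPolynomial.aeval (arg α ((-1) ^ n) (α ^ n)) : _ →ₐ[ℤ] Kb[X]).toRingHom)
      = (Int.castRingHom Kb).comp
        (MvPolynomial.eval ![(n : ℤ), (Nat.fib n : ℤ), (Nat.fib (n + 1) : ℤ)]) := by
    refine MvPolynomial.ringHom_ext (fun c => ?_) (fun i => ?_)
    · simp
    · simpa using h2 i
  exact congrArg (fun φ => φ P) h3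

/-- rational multiples of integer primitive polynomials -/
lemma exists_prim {ρ : ℚ[X]} (hρ : ρ ≠ 0) : ∃ (R : ℤ[X]) (u v : ℤ), R.IsPrimitive ∧ u ≠ 0 ∧
    v ≠ 0 ∧ R.natDegree = ρ.natDegree ∧ C (v : ℚ) * ρ = C (u : ℚ) * R.map (Int.castRingHom ℚ) := by
  obtain ⟨b, hb⟩ := IsLocalization.integerNormalization_map_to_map (nonZeroDivisors ℤ) ρ
  set R₁ := IsLocalization.integerNormalization (nonZeroDivisors ℤ) ρ with hR₁
  have hb0 : (b : ℤ) ≠ 0 := nonZeroDivisors.coe_ne_zero b
  have hmap : R₁.map (Int.castRingHom ℚ) = C ((b : ℤ) : ℚ) * ρ := by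
    have h1 : algebraMap ℤ ℚ = Int.castRingHom ℚ := rfl
    rw [← h1, hb]
    ext i
    rw [coeff_smul, coeff_C_mul, zsmul_eq_mul]
  have hinj : Function.Injective (Int.castRingHom ℚ) := Int.cast_injective
  have hR₁0 : R₁ ≠ 0 := by
    intro h1
    rw [h1, Polynomial.map_zero] at hmap
    have h2 : C ((b : ℤ) : ℚ) * ρ ≠ 0 := mul_ne_zero (C_ne_zero.2 (by exact_mod_cast hb0)) hρ
    exact h2 hmap.symm
  refine ⟨R₁.primPart, R₁.content, b, R₁.isPrimitive_primPart, ?_, hb0, ?_, ?_⟩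
  · intro h1
    exact hR₁0 (content_eq_zero_iff.1 h1)
  · rw [R₁.natDegree_primPart, ← natDegree_map_eq_of_injective hinj R₁, hmap,
      natDegree_C_mul (by exact_mod_cast hb0)]
  · have h1 := congrArg (fun p => p.map (Int.castRingHom ℚ)) R₁.eq_C_content_mul_primPart
    simp only [hmap, Polynomial.map_mul, map_C] at h1
    exact h1

/-- **the dichotomy** on a class modulo two -/
theorem dich (h : Gold α ι) {W : ℕ → ℤ} (hW : ∀ n, W (n + 2) = W (n + 1) + W n)
    (h0 : W 0 = 0 ∨ W 0 = 2) (h1 : W 1 = 1) {a b : ℕ} (ha : 0 < a) (hab : a.Coprime b)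
    (P : MvPolynomial (Fin 3) ℤ) {r : ℕ} (hr : Odd (a * r + b) ∨ W 0 = 2) :
    ∃ (d : ℤ) (R : ℤ[X]), d ≠ 0 ∧ R.IsPrimitive ∧ R.natDegree ≤ 2 * a * P.degreeOf 0 ∧
      (∀ ρ : ℂ, aeval ρ R = 0 → ∃ x y : ℂ, y ^ 2 - x * y - x ^ 2 = (-1) ^ r ∧
        MvPolynomial.aeval ![ρ, x, y] P = 0) ∧
      ((∀ n : ℕ, n % 2 = r % 2 → ∀ g : ℤ,
        g ∣ MvPolynomial.eval ![(n : ℤ), (Nat.fib n : ℤ), (Nat.fib (n + 1) : ℤ)] P
        → g ∣ W (a * n + b) → g ∣ d * R.eval (n : ℤ)) ∨
      (∀ n : ℕ, n % 2 = r % 2 → W (a * n + b)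
        ∣ d * MvPolynomial.eval ![(n : ℤ), (Nat.fib n : ℤ), (Nat.fib (n + 1) : ℤ)] P)) := by
  classical
  have hAC : IsAlgClosed Kb := IsAlgClosure.isAlgClosed ℚ
  have hα := h.ne_zero
  set A : ℕ → ℤ := fun n =>
    MvPolynomial.eval ![(n : ℤ), (Nat.fib n : ℤ), (Nat.fib (n + 1) : ℤ)] P with hA
  set ε : Kb := (-1) ^ r with hεd
  have hε : ε = 1 ∨ ε = -1 := by
    rcases Nat.even_or_odd r with h2 | h2
    · left
      exact h2.neg_one_pow
    · right
      exact h2.neg_one_pow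
  have hεn : ∀ n, n % 2 = r % 2 → (-1 : Kb) ^ n = ε := by
    intro n hn
    rw [hεd, ← Nat.mod_add_div n 2, ← Nat.mod_add_div r 2, hn, pow_add, pow_add, pow_mul, pow_mul]
    norm_num
  have hε0 : ε ≠ 0 := by rcases hε with h2 | h2 <;> rw [h2] <;> norm_num
  obtain ⟨c1, c2, hc1, hc2, hbin⟩ := binet h.root hW h0 h1
  obtain ⟨J, f, hf⟩ := Ev_poly α ε P
  -- the values
  have hAf : ∀ n, n % 2 = r % 2 → (f.eval (C (α ^ n))).eval (n : Kb)
      = (α ^ n) ^ J * (A n : Kb) := by
    intro n hn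
    rw [hf _ (pow_ne_zero n hα), ← hεn n hn, eval_mul, eval_C, Ev_at h P n]
  have hβb : (1 - α) ^ b = (-1) ^ b * (α ^ b)⁻¹ := by
    have h2 : (1 - α) = (-1) * α⁻¹ := by
      rw [h.inv_eq]
      ring
    rw [h2, mul_pow, inv_pow]
  set C1 : Kb := c1 * α ^ b with hC1
  have hC10 : C1 ≠ 0 := mul_ne_zero hc1 (pow_ne_zero b hα)
  set c : Kb := -(c2 * (1 - α) ^ b * ε ^ a / C1) with hc
  have hWf : ∀ n, n % 2 = r % 2 → C1 * ((α ^ n) ^ (2 * a) - c) = (α ^ n) ^ a * (W (a * n + b) : Kb) := by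
    intro n hn
    have h2 : (1 - α) ^ n = ε / α ^ n := by
      rw [← hεn n hn]
      have h3 : (1 - α) = -1 / α := by
        rw [eq_div_iff hα, mul_comm]
        exact h.mul_conj
      rw [h3, div_pow]
    have h3 : C1 * ((α ^ n) ^ (2 * a) - c)
        = C1 * (α ^ n) ^ (2 * a) + c2 * (1 - α) ^ b * ε ^ a := by
      rw [hc]
      field_simp
      ring
    have h4 : α ^ n ≠ 0 := pow_ne_zero n hα
    have e1 : α ^ (a * n + b) = (α ^ n) ^ a * α ^ b := by
      rw [pow_add, mul_comm a n, pow_mul]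
    have e2 : (1 - α) ^ (a * n + b) = ((1 - α) ^ n) ^ a * (1 - α) ^ b := by
      rw [pow_add, mul_comm a n, pow_mul]
    rw [h3, hbin, hC1, e1, e2, h2, div_pow, two_mul a, pow_add (α ^ n) a a]
    field_simp
  have hcc : c = -α ^ (-2 * (b : ℤ)) ∨ (c = α ^ (-2 * (b : ℤ)) ∧ ε ^ a * (-1) ^ b = -1) := by
    have h2 : α ^ (-2 * (b : ℤ)) = (α ^ b)⁻¹ * (α ^ b)⁻¹ := by
      rw [← mul_inv, ← pow_add, ← zpow_natCast, ← zpow_neg]
      congr 1
      push_cast
      ring
    have h3 : c = -(c2 / c1) * (ε ^ a * (-1) ^ b) * α ^ (-2 * (b : ℤ)) := by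
      rw [hc, hC1, hβb, h2]
      have h4 : α ^ b ≠ 0 := pow_ne_zero b hα
      field_simp
    have h4 : ε ^ a * (-1) ^ b = (-1) ^ (a * r + b) := by
      rw [hεd, ← pow_mul, mul_comm r a, ← pow_add]
    rcases Nat.even_or_odd (a * r + b) with h5 | h5
    · have hW2 : W 0 = 2 := hr.resolve_left (by rw [Nat.not_odd_iff_even]; exact h5)
      have hc21 : c2 = c1 := by
        refine hc2.resolve_right fun h5 => ?_
        have h6 := hbin 0
        rw [hW2, h5, pow_zero, pow_zero] at h6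
        push_cast at h6
        have h7 : (2 : Kb) = 0 := by
          rw [h6]
          ring
        exact two_ne_zero h7
      left
      rw [h3, h4, h5.neg_one_pow, hc21, div_self hc1]
      ring
    · rcases hc2 with h6 | h6
      · right
        refine ⟨?_, by rw [h4, h5.neg_one_pow]⟩
        rw [h3, h4, h5.neg_one_pow, h6, div_self hc1]
        ring
      · left
        rw [h3, h4, h5.neg_one_pow, h6, neg_div, div_self hc1]
        ring
  have hc0 : c ≠ 0 := by
    rcases hcc with h2 | ⟨h2, _⟩ <;> rw [h2]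
    · exact neg_ne_zero.2 (zpow_ne_zero _ hα)
    · exact zpow_ne_zero _ hα
  set q : Kb[X] := X ^ (2 * a) - C c with hq
  have hqm : q.Monic := monic_X_pow_sub_C c (by omega)
  have hqd : q.natDegree = 2 * a := natDegree_X_pow_sub_C
  have hqe : ∀ w, q.eval w = w ^ (2 * a) - c := by
    intro w
    rw [hq]
    simp
  set Z : Finset Kb := q.roots.toFinset with hZ
  have hmemZ : ∀ w, w ∈ Z ↔ w ^ (2 * a) = c := by
    intro w
    rw [hZ, Multiset.mem_toFinset, mem_roots hqm.ne_zero, IsRoot.def, hqe, sub_eq_zero]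
  have hqsep : q.Separable := by
    refine separable_X_pow_sub_C c ?_ hc0
    have h2 : 2 * a ≠ 0 := by omega
    exact_mod_cast h2
  have hqprod : q = ∏ w ∈ Z, (X - C w) := by
    have h2 := (IsAlgClosed.splits q).eq_prod_roots_of_monic hqm
    have h3 : Z.val = q.roots := by
      rw [hZ, Multiset.toFinset_val, Multiset.dedup_eq_self]
      exact nodup_roots hqsep
    rw [Finset.prod, h3]
    exact h2
  have hq2 : ∏ w ∈ Z, (X - C (C w) : Kb[X][X]) = q.map C := by
    rw [hqprod, Polynomial.map_prod]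
    refine prod_congr rfl fun w _ => ?_
    simp
  have hq2e : ∀ x y : Kb, ((q.map C).eval (C x)).eval y = x ^ (2 * a) - c := by
    intro x y
    rw [hq]
    simp
  have hw0 : ∀ w, w ^ (2 * a) = c → w ≠ 0 := by
    intro w hw h2
    rw [h2, zero_pow (by omega)] at hw
    exact hc0 hw.symm
  have hxint : ∀ n : ℕ, IsIntegral ℤ (α ^ n) := fun n => h.isIntegral.pow n
  have hnint : ∀ n : ℕ, IsIntegral ℤ (n : Kb) := fun n => by
    have h2 := isIntegral_algebraMap (R := ℤ) (A := Kb) (x := (n : ℤ))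
    simpa using h2
  have hxinv : ∀ n : ℕ, IsIntegral ℤ ((α ^ n)⁻¹) := by
    intro n
    have h2 := h.isIntegral_zpow (-(n : ℤ))
    rw [zpow_neg, zpow_natCast] at h2
    exact h2
  -- the Galois action on Z
  have hcF1 : ∀ σ : Kb ≃ₐ[ℚ] Kb, σ α = α → σ c = c := by
    intro σ hσ
    rcases hcc with h2 | ⟨h2, _⟩ <;> rw [h2]
    · rw [map_neg, map_zpow₀, hσ]
    · rw [map_zpow₀, hσ]
  have hcF2 : ∀ σ : Kb ≃ₐ[ℚ] Kb, σ α = 1 - α → σ c = c⁻¹ := by
    intro σ hσ
    have h3 : (1 - α) ^ (-2 * (b : ℤ)) = (α ^ (-2 * (b : ℤ)))⁻¹ := by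
      have h2 : (1 - α) = (-1) * α⁻¹ := by
        rw [h.inv_eq]
        ring
      rw [h2, mul_zpow, inv_zpow, show -2 * (b : ℤ) = 2 * (-b) by ring, zpow_mul (-1 : Kb)]
      norm_num
    rcases hcc with h2 | ⟨h2, _⟩ <;> rw [h2]
    · rw [map_neg, map_zpow₀, hσ, h3, inv_neg]
    · rw [map_zpow₀, hσ, h3]
  have hZ1 : ∀ σ : Kb ≃ₐ[ℚ] Kb, σ α = α → ∀ w ∈ Z, σ w ∈ Z := by
    intro σ hσ w hw
    rw [hmemZ] at hw ⊢
    rw [← map_pow, hw, hcF1 σ hσ]
  have hZ2 : ∀ σ : Kb ≃ₐ[ℚ] Kb, σ α = 1 - α → ∀ w ∈ Z, ε / σ w ∈ Z := by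
    intro σ hσ w hw
    rw [hmemZ] at hw ⊢
    rw [div_pow, ← map_pow, hw, hcF2 σ hσ, div_inv_eq_mul]
    have h4 : ε ^ (2 * a) = 1 := by
      rcases hε with h5 | h5 <;> rw [h5]
      · exact one_pow _
      · exact (even_two_mul a).neg_one_pow
    rw [h4, one_mul]
  by_cases hne : (Z.filter (fun w => Ev α ε P w = 0)).Nonempty
  · -- all zeros are common
    have hcard : (Z.filter (fun w => Ev α ε P w = 0)).card = 2 * a := by
      refine trans_key h ha hab hε hcc hne (fun w hw => (hmemZ w).1 (mem_filter.1 hw).1) ?_ ?_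
      · intro σ hσ w hw
        obtain ⟨h2, h3⟩ := mem_filter.1 hw
        refine mem_filter.2 ⟨hZ1 σ hσ w h2, ?_⟩
        rw [← Ev_gal σ P w (σ w) (arg_gal1 hσ hε w), h3, Polynomial.map_zero]
      · intro σ hσ w hw
        obtain ⟨h2, h3⟩ := mem_filter.1 hw
        refine mem_filter.2 ⟨hZ2 σ hσ w h2, ?_⟩
        rw [← Ev_gal σ P w (ε / σ w) (arg_gal2 hσ hε w), h3, Polynomial.map_zero]
    have hZc : Z.card ≤ 2 * a := by
      rw [← hqd]
      exact (Multiset.toFinset_card_le _).trans (card_roots' _)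
    have hall : Z.filter (fun w => Ev α ε P w = 0) = Z :=
      eq_of_subset_of_card_le (filter_subset _ _) (by rw [hcard]; exact hZc)
    have hD : ∏ w ∈ Z, (X - C (C w) : Kb[X][X]) ∣ f := by
      by_cases hf0 : f = 0
      · rw [hf0]
        exact dvd_zero _
      · have h2 : ∏ w ∈ Z, (X - C (C w) : Kb[X][X])
            = ((Z.image C).val.map fun z => X - C z).prod := by
          show _ = ∏ z ∈ Z.image C, (X - C z)
          rw [prod_image (fun _ _ _ _ h => C_injective h)]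
        rw [h2, Multiset.prod_X_sub_C_dvd_iff_le_roots hf0,
          Multiset.le_iff_subset (Z.image C).nodup]
        intro z hz
        have hz' : z ∈ Z.image C := hz
        obtain ⟨w, hw, rfl⟩ := mem_image.1 hz'
        have h3 : Ev α ε P w = 0 := by
          rw [← hall] at hw
          exact (mem_filter.1 hw).2
        rw [mem_roots hf0, IsRoot.def, hf w (hw0 w ((hmemZ w).1 hw)), h3, mul_zero]
    rw [hq2] at hD
    obtain ⟨H, hH⟩ := hD
    obtain ⟨d, hd, hdint⟩ := int_mult2 (C (C C1⁻¹) * H)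
    refine ⟨d, 1, hd, isPrimitive_one, by simp, fun ρ h0 => ?_, Or.inr fun n hn => ?_⟩
    · simp at h0
    have h2 := hAf n hn
    rw [hH, eval_mul, eval_mul, hq2e] at h2
    have h3 := hWf n hn
    have h4 : α ^ n ≠ 0 := pow_ne_zero n hα
    set z : Kb := ((d : Kb) * ((C (C C1⁻¹) * H).eval (C (α ^ n))).eval (n : Kb))
      * ((α ^ n) ^ a * ((α ^ n)⁻¹) ^ J) with hz
    have hzint : IsIntegral ℤ z :=
      (hdint _ _ (hnint n) (hxint n)).mul (((hxint n).pow a).mul ((hxinv n).pow J))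
    have h5 : ((d * A n : ℤ) : Kb) = (W (a * n + b) : ℤ) * z := by
      have h6 : (A n : Kb) = ((α ^ n)⁻¹) ^ J
          * (((α ^ n) ^ (2 * a) - c) * (H.eval (C (α ^ n))).eval (n : Kb)) := by
        rw [h2, inv_pow, ← mul_assoc, inv_mul_cancel₀ (pow_ne_zero J h4), one_mul]
      have h7 : ((α ^ n) ^ (2 * a) - c) = C1⁻¹ * ((α ^ n) ^ a * (W (a * n + b) : Kb)) := by
        rw [← h3, ← mul_assoc, inv_mul_cancel₀ hC10, one_mul]
      push_cast
      rw [h6, h7, hz, eval_mul, eval_mul, eval_C, eval_C]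
      ring
    by_cases hWz : W (a * n + b) = 0
    · rw [hWz, Int.cast_zero, zero_mul] at h5
      have h6 : d * A n = 0 := by exact_mod_cast h5
      rw [hWz, h6]
    · exact dvd_of_int hWz hzint h5
  · -- no common zero: the resultant
    have hEv0 : ∀ w ∈ Z, Ev α ε P w ≠ 0 := by
      intro w hw h2
      exact hne ⟨w, mem_filter.2 ⟨hw, h2⟩⟩
    set ρ₀ : Kb[X] := ∏ w ∈ Z, Ev α ε P w with hρ₀
    have hρ₀0 : ρ₀ ≠ 0 := prod_ne_zero_iff.2 hEv0
    have hperm : ∀ (φ : Kb → Kb), Set.InjOn φ Z → (∀ w ∈ Z, φ w ∈ Z) → Z.image φ = Z := by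
      intro φ hφ hφ2
      refine eq_of_subset_of_card_le ?_ ?_
      · intro v hv
        obtain ⟨w, hw, rfl⟩ := mem_image.1 hv
        exact hφ2 w hw
      · rw [card_image_of_injOn hφ]
    have hfix : ∀ σ : Kb ≃ₐ[ℚ] Kb, ρ₀.map (σ : Kb →+* Kb) = ρ₀ := by
      intro σ
      have h3 : (σ α) ^ 2 = σ α + 1 := by
        rw [← map_pow, h.root, map_add, map_one]
      have h4 : (σ α - α) * (σ α - (1 - α)) = 0 := by
        linear_combination h3 - h.root
      rw [hρ₀, Polynomial.map_prod]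
      rcases mul_eq_zero.1 h4 with h5 | h5
      · have hσ : σ α = α := sub_eq_zero.1 h5
        have h6 := hperm σ (σ.injective.injOn) (hZ1 σ hσ)
        conv_rhs => rw [← h6]
        rw [prod_image (fun _ _ _ _ h => σ.injective h)]
        exact prod_congr rfl fun w _ => Ev_gal σ P w (σ w) (arg_gal1 hσ hε w)
      · have hσ : σ α = 1 - α := sub_eq_zero.1 h5
        have hinj : Function.Injective (fun w => ε / σ w) := by
          intro v w hvw
          simp only [div_eq_mul_inv] at hvw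
          exact σ.injective (inv_injective (mul_left_cancel₀ hε0 hvw))
        have h6 := hperm (fun w => ε / σ w) (hinj.injOn) (hZ2 σ hσ)
        conv_rhs => rw [← h6]
        rw [prod_image (fun _ _ _ _ h => hinj h)]
        exact prod_congr rfl fun w _ => Ev_gal σ P w (ε / σ w) (arg_gal2 hσ hε w)
    have hlift : ρ₀ ∈ lifts (algebraMap ℚ Kb) := by
      rw [lifts_iff_coeff_lifts]
      intro i
      have h2 : ρ₀.coeff i ∈ (⊥ : IntermediateField ℚ Kb) := by
        refine (InfiniteGalois.mem_bot_iff_fixed _).2 fun σ => ?_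
        have h3 := congrArg (fun p => p.coeff i) (hfix σ)
        simp only [coeff_map] at h3
        exact h3
      exact IntermediateField.mem_bot.1 h2
    obtain ⟨ρ, hρ⟩ := (mem_lifts _).1 hlift
    have hρ0 : ρ ≠ 0 := by
      rintro rfl
      rw [Polynomial.map_zero] at hρ
      exact hρ₀0 hρ.symm
    obtain ⟨R, u, v, hRp, hu, hv, hRd, hRe⟩ := exists_prim hρ0
    have hdeg : R.natDegree ≤ 2 * a * P.degreeOf 0 := by
      have h2 : ρ.natDegree = ρ₀.natDegree := by
        rw [← hρ, natDegree_map_eq_of_injective (algebraMap ℚ Kb).injective]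
      rw [hRd, h2, hρ₀]
      refine (natDegree_prod_le _ _).trans ?_
      refine (sum_le_card_nsmul _ _ (P.degreeOf 0) fun w _ => Ev_natDegree α ε P w).trans ?_
      rw [smul_eq_mul]
      refine Nat.mul_le_mul_right _ ?_
      rw [← hqd]
      exact (Multiset.toFinset_card_le _).trans (card_roots' _)
    have hRK : C (v : Kb) * ρ₀ = C (u : Kb) * R.map (Int.castRingHom Kb) := by
      have h2 := congrArg (fun p => p.map (algebraMap ℚ Kb)) hRe
      have h3 : (algebraMap ℚ Kb).comp (Int.castRingHom ℚ) = Int.castRingHom Kb :=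
        RingHom.ext_int _ _
      have h4 : algebraMap ℚ Kb (v : ℚ) = (v : Kb) := map_intCast _ _
      have h5 : algebraMap ℚ Kb (u : ℚ) = (u : Kb) := map_intCast _ _
      rw [Polynomial.map_mul, Polynomial.map_mul, Polynomial.map_C, Polynomial.map_C, h4, h5, hρ,
        Polynomial.map_map, h3] at h2
      exact h2
    have hroots : ∀ ρ : ℂ, aeval ρ R = 0 → ∃ x y : ℂ, y ^ 2 - x * y - x ^ 2 = (-1) ^ r ∧
        MvPolynomial.aeval ![ρ, x, y] P = 0 := by
      intro ζ hζ
      have h2 := congrArg (fun p => (p.map ι).eval ζ) hRK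
      have h3 : ι.comp (Int.castRingHom Kb) = algebraMap ℤ ℂ := RingHom.ext_int _ _
      have h3v : ι (v : Kb) = (v : ℂ) := map_intCast _ _
      have h3u : ι (u : Kb) = (u : ℂ) := map_intCast _ _
      rw [Polynomial.map_mul, Polynomial.map_mul, Polynomial.map_C, Polynomial.map_C, h3v, h3u,
        Polynomial.map_map, h3, eval_mul, eval_mul, eval_C, eval_C, eval_map_algebraMap, hζ,
        mul_zero] at h2
      have h4 : (ρ₀.map ι).eval ζ = 0 :=
        (mul_eq_zero.1 h2).resolve_left (by exact_mod_cast hv)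
      rw [hρ₀, Polynomial.map_prod, eval_prod] at h4
      obtain ⟨w, hw, h5⟩ := prod_eq_zero_iff.1 h4
      have hwne := hw0 w ((hmemZ w).1 hw)
      refine ⟨ι ((w - ε / w) / (2 * α - 1)), ι ((α * w - (1 - α) * (ε / w)) / (2 * α - 1)), ?_, ?_⟩
      · have h6 : (2 * α - 1) ≠ 0 := by
          intro h7
          have h8 : (2 * α - 1) ^ 2 = 5 := by linear_combination 4 * h.root
          rw [h7] at h8
          norm_num at h8
        have h7 : ((α * w - (1 - α) * (ε / w)) / (2 * α - 1)) ^ 2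
            - ((w - ε / w) / (2 * α - 1)) * ((α * w - (1 - α) * (ε / w)) / (2 * α - 1))
            - ((w - ε / w) / (2 * α - 1)) ^ 2 = ε := by
          have e3 : ε / w * w = ε := div_mul_cancel₀ _ hwne
          have e1 : (α * w - (1 - α) * (ε / w)) / (2 * α - 1)
              - α * ((w - ε / w) / (2 * α - 1)) = ε / w := by
            rw [← mul_div_assoc α (w - ε / w) (2 * α - 1), ← sub_div, div_eq_iff h6]
            ring
          have e2 : (α * w - (1 - α) * (ε / w)) / (2 * α - 1)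
              - (1 - α) * ((w - ε / w) / (2 * α - 1)) = w := by
            rw [← mul_div_assoc (1 - α) (w - ε / w) (2 * α - 1), ← sub_div, div_eq_iff h6]
            ring
          generalize (w - ε / w) / (2 * α - 1) = X' at e1 e2 ⊢
          generalize (α * w - (1 - α) * (ε / w)) / (2 * α - 1) = Y' at e1 e2 ⊢
          have e4 : (Y' - α * X') * (Y' - (1 - α) * X') = ε := by rw [e1, e2, e3]
          linear_combination e4 + X' ^ 2 * h.root
        have h8 := congrArg ι h7
        simp only [map_sub, map_mul, map_pow] at h8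
        rw [h8, hεd, map_pow, map_neg, map_one]
      · have h6 : ((evalRingHom ζ).comp (mapRingHom ι)).comp
              (MvPolynomial.aeval (arg α ε w) : _ →ₐ[ℤ] Kb[X]).toRingHom
            = (MvPolynomial.aeval ![ζ, ι ((w - ε / w) / (2 * α - 1)),
                ι ((α * w - (1 - α) * (ε / w)) / (2 * α - 1))] : _ →ₐ[ℤ] ℂ).toRingHom := by
          refine MvPolynomial.ringHom_ext (fun c => ?_) (fun i => ?_)
          · simp
          · fin_cases i <;> simp [arg]
        have h7 := congrArg (fun φ => φ P) h6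
        exact h7.symm.trans h5
    -- the identity
    obtain ⟨S, T, hST⟩ := res_id f Z
    set κ : Kb := ∏ w ∈ Z, w ^ J with hκ
    have hκ0 : κ ≠ 0 := prod_ne_zero_iff.2 fun w hw => pow_ne_zero J (hw0 w ((hmemZ w).1 hw))
    have hprodf : ∏ w ∈ Z, f.eval (C w) = C κ * ρ₀ := by
      rw [hκ, hρ₀, map_prod, ← prod_mul_distrib]
      exact prod_congr rfl fun w hw => hf w (hw0 w ((hmemZ w).1 hw))
    rw [hprodf, hq2] at hST
    obtain ⟨d, hd, hdint⟩ := int_mult2 (C (C κ⁻¹) * S)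
    obtain ⟨e, he, heint⟩ := int_mult2 (C (C (κ⁻¹ * C1⁻¹)) * T)
    refine ⟨d * e * u, R, mul_ne_zero (mul_ne_zero hd he) hu, hRp, hdeg, hroots,
      Or.inl fun n hn g hgA hgW => ?_⟩
    obtain ⟨A', hA'⟩ := hgA
    obtain ⟨W', hW'⟩ := hgW
    have h2 := congrArg (fun p => (p.eval (C (α ^ n))).eval (n : Kb)) hST
    simp only [eval_add, eval_mul, eval_C] at h2
    rw [hAf n hn, hq2e] at h2
    have h3 := hWf n hn
    have h7 : ((α ^ n) ^ (2 * a) - c) = C1⁻¹ * ((α ^ n) ^ a * (W (a * n + b) : Kb)) := by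
      rw [← h3, ← mul_assoc, inv_mul_cancel₀ hC10, one_mul]
    rw [h7] at h2
    have hρn : ((v : ℤ) : Kb) * ρ₀.eval (n : Kb) = (u : Kb) * ((R.eval (n : ℤ) : ℤ) : Kb) := by
      have h8 := congrArg (fun p => p.eval (n : Kb)) hRK
      simp only [eval_mul, eval_C] at h8
      have h9 : (R.map (Int.castRingHom Kb)).eval (n : Kb) = ((R.eval (n : ℤ) : ℤ) : Kb) := by
        have h10 := eval_intCast_map (Int.castRingHom Kb) R (n : ℤ)
        simpa using h10
      rw [h9] at h8
      exact h8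
    set z : Kb := (e : Kb) * (v : Kb) * (((d : Kb)
        * ((C (C κ⁻¹) * S).eval (C (α ^ n))).eval (n : Kb)) * ((α ^ n) ^ J)) * (A' : Kb)
      + (d : Kb) * (v : Kb) * (((e : Kb) * ((C (C (κ⁻¹ * C1⁻¹)) * T).eval (C (α ^ n))).eval (n : Kb))
        * ((α ^ n) ^ a)) * (W' : Kb) with hz
    have hii : ∀ m : ℤ, IsIntegral ℤ (m : Kb) := fun m => isIntegral_algebraMap (R := ℤ) (x := m)
    have hzint : IsIntegral ℤ z := by
      refine IsIntegral.add ?_ ?_
      · exact (((hii e).mul (hii v)).mul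
          ((hdint _ _ (hnint n) (hxint n)).mul ((hxint n).pow J))).mul (hii A')
      · exact (((hii d).mul (hii v)).mul
          ((heint _ _ (hnint n) (hxint n)).mul ((hxint n).pow a))).mul (hii W')
    have hAn : (A n : Kb) = (g : Kb) * A' := by
      have h8 : A n = g * A' := hA'
      rw [h8]
      push_cast
      rfl
    have hWn : (W (a * n + b) : Kb) = (g : Kb) * W' := by
      rw [hW']
      push_cast
      rfl
    have h5 : ((d * e * u * R.eval (n : ℤ) : ℤ) : Kb) = (g : ℤ) * z := by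
      rw [hAn, hWn] at h2
      have h12 : ρ₀.eval (n : Kb) = κ⁻¹ * (κ * ρ₀.eval (n : Kb)) := by
        rw [← mul_assoc, inv_mul_cancel₀ hκ0, one_mul]
      have h13 : (d : Kb) * e * ((u : Kb) * ((R.eval (n : ℤ) : ℤ) : Kb))
          = (d : Kb) * e * v * ρ₀.eval (n : Kb) := by
        rw [← hρn]
        ring
      push_cast
      rw [hz, eval_mul, eval_mul, eval_C, eval_C, eval_mul, eval_mul, eval_C, eval_C]
      rw [h2] at h12
      rw [h12] at h13
      linear_combination h13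
    by_cases hg : g = 0
    · rw [hg, Int.cast_zero, zero_mul] at h5
      have h6 : d * e * u * R.eval (n : ℤ) = 0 := by exact_mod_cast h5
      rw [hg, h6]
    · exact dvd_of_int hg hzint h5

end Pool.Agent.Lib.MP_5893d7_nt.Af
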