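import Mathlib

/-!
MP_5893d7_nt, factorisations by linear recurrences, even indices: the irreducible polynomial
`X ^ (2 ^ (r + 1)) + V X ^ (2 ^ r) + 1` with `V = 3` modulo 4.
-/

set_option autoImplicit false

namespace Pool.Agent.Lib.MP_5893d7_nt.Af

open Polynomial

/-- the polynomial -/
noncomputable def Qp (V : ℤ) (r : ℕ) : ℤ[X] := X ^ (2 ^ r * 2) + C V * X ^ (2 ^ r) + 1

lemma Qp_natDegree (V : ℤ) (r : ℕ) : (Qp V r).natDegree = 2 ^ r * 2 ∧ (Qp V r).Monic := by
  have h0 : 0 < 2 ^ r := by positivity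
  have h1 : (C V * X ^ (2 ^ r) + 1 : ℤ[X]).natDegree < 2 ^ r * 2 := by
    refine lt_of_le_of_lt (natDegree_add_le _ _) ?_
    rw [natDegree_one, max_lt_iff]
    refine ⟨lt_of_le_of_lt (natDegree_C_mul_X_pow_le _ _) (by omega), by omega⟩
  have h2 : (C V * X ^ (2 ^ r) + 1 : ℤ[X]).degree < ((2 ^ r * 2 : ℕ) : WithBot ℕ) := by
    refine lt_of_le_of_lt degree_le_natDegree ?_
    exact_mod_cast h1
  unfold Qp
  rw [add_assoc]
  refine ⟨?_, monic_X_pow_add h2⟩
  rw [natDegree_add_eq_left_of_natDegree_lt, natDegree_X_pow]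
  rw [natDegree_X_pow]
  exact h1

/-- the cube root of unity as an integer matrix -/
def om : Matrix (Fin 2) (Fin 2) ℤ := !![0, -1; 1, -1]

lemma om_sq : om ^ 2 = !![-1, 1; -1, 0] := by
  rw [sq, om]
  ext i j
  fin_cases i <;> fin_cases j <;> simp [Matrix.mul_apply, Fin.sum_univ_two]

lemma om_root : om ^ 2 + om + 1 = 0 := by
  rw [om_sq, om]
  ext i j
  fin_cases i <;> fin_cases j <;> simp

lemma om_pow (r : ℕ) : om ^ (2 ^ r) = om ∨ om ^ (2 ^ r) = om ^ 2 := by
  have h3 : om ^ 3 = 1 := by
    rw [pow_succ, om_sq, om]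
    ext i j
    fin_cases i <;> fin_cases j <;> simp [Matrix.mul_apply, Fin.sum_univ_two]
  induction r with
  | zero => left; simp
  | succ r ih =>
    rw [pow_succ 2 r, pow_mul]
    rcases ih with h | h
    · right
      rw [h]
    · left
      rw [h, ← pow_mul]
      calc om ^ (2 * 2) = om ^ 3 * om := by rw [← pow_succ]
        _ = om := by rw [h3, one_mul]

theorem Qp_irreducible {V : ℤ} (hV : ∃ t, V = 4 * t + 3) (r : ℕ) : Irreducible (Qp V r) := by
  obtain ⟨hd, hm⟩ := Qp_natDegree V r
  set q : ℤ[X] := X ^ 2 + X + 1 with hq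
  have hq2 : (X + 1 : ℤ[X]).degree < ((2 : ℕ) : WithBot ℕ) := by
    have : (X + 1 : ℤ[X]).degree = 1 := by
      rw [← C_1]
      exact degree_X_add_C 1
    rw [this]
    norm_num
  have hqm : q.Monic := by
    rw [hq, add_assoc]
    exact monic_X_pow_add hq2
  have hqn : q.natDegree = 2 := by
    rw [hq, add_assoc, natDegree_add_eq_left_of_degree_lt, natDegree_X_pow]
    rw [degree_X_pow]
    exact hq2
  have halg : algebraMap ℤ (ZMod 2) = Int.castRingHom (ZMod 2) := rfl
  refine generalizedEisenstein (K := ZMod 2) (q := q) (p := 2 ^ r) ?_ hqm hm.isPrimitive ?_ ?_ ?_ ?_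
  · have h2 : (q.map (algebraMap ℤ (ZMod 2))).natDegree = 2 := by
      rw [hqm.natDegree_map, hqn]
    refine irreducible_of_degree_le_three_of_not_isRoot ?_ ?_
    · rw [h2]
      decide
    · intro x hx
      rw [IsRoot.def, hq] at hx
      simp only [Polynomial.map_add, Polynomial.map_pow, map_X, Polynomial.map_one, eval_add,
        eval_pow, eval_X, eval_one] at hx
      revert hx
      revert x
      decide
  · rw [hd]
    positivity
  · rw [hm.leadingCoeff, map_one]
    exact one_ne_zero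
  · rw [hm.leadingCoeff, map_one, C_1, one_mul]
    have hV2 : algebraMap ℤ (ZMod 2) V = 1 := by
      obtain ⟨t, rfl⟩ := hV
      rw [halg]
      simp only [Int.coe_castRingHom]
      push_cast
      have h4 : (4 : ZMod 2) = 0 := rfl
      have h3 : (3 : ZMod 2) = 1 := rfl
      rw [h4, h3, zero_mul, zero_add]
    rw [hq, Qp]
    simp only [Polynomial.map_add, Polynomial.map_pow, map_X, Polynomial.map_one,
      Polynomial.map_mul, map_C, hV2, C_1, one_mul]
    rw [add_pow_char_pow, add_pow_char_pow, one_pow, ← pow_mul, mul_comm 2]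
  · intro h0
    have hker : RingHom.ker (algebraMap ℤ (ZMod 2)) ^ 2 = Ideal.span {(4 : ℤ)} := by
      rw [halg, ZMod.ker_intCastRingHom, Ideal.span_singleton_pow]
      norm_num
    have h1 : C (4 : ℤ) ∣ (Qp V r) %ₘ q := by
      rw [C_dvd_iff_dvd_coeff]
      intro i
      have h2 := congrArg (fun p => p.coeff i) h0
      simp only [coeff_map, coeff_zero, Ideal.Quotient.eq_zero_iff_mem, hker,
        Ideal.mem_span_singleton] at h2
      exact h2
    obtain ⟨h, hh⟩ := h1
    have h2 : aeval om ((Qp V r) %ₘ q) = aeval om (Qp V r) := by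
      refine aeval_modByMonic_eq_self_of_root ?_
      rw [hq]
      simp only [map_add, map_pow, aeval_X, map_one]
      exact om_root
    rw [hh, map_mul, aeval_C] at h2
    have h3 : aeval om (Qp V r) = (V - 1) • om ^ (2 ^ r) := by
      have h5 : (om ^ (2 ^ r)) ^ 2 + om ^ (2 ^ r) + 1 = 0 := by
        rcases om_pow r with h4 | h4
        · rw [h4, om_root]
        · rw [h4]
          have h6 : (om ^ 2) ^ 2 = om := by
            rw [om_sq, sq, om]
            ext i j
            fin_cases i <;> fin_cases j <;> simp [Matrix.mul_apply, Fin.sum_univ_two]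
          rw [h6, add_comm om, om_root]
      rw [Qp]
      simp only [map_add, map_mul, map_pow, aeval_X, map_one, aeval_C]
      rw [pow_mul, Algebra.algebraMap_eq_smul_one, smul_mul_assoc, one_mul, sub_smul, one_smul]
      have h6 : (om ^ (2 ^ r)) ^ 2 + 1 = -om ^ (2 ^ r) := by
        rw [eq_neg_iff_add_eq_zero]
        rw [← h5]
        abel
      calc (om ^ 2 ^ r) ^ 2 + V • om ^ 2 ^ r + 1 = V • om ^ 2 ^ r + ((om ^ 2 ^ r) ^ 2 + 1) := by abel
        _ = V • om ^ 2 ^ r - om ^ 2 ^ r := by rw [h6, sub_eq_add_neg]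
    rw [h3] at h2
    have h4 := congrFun (congrFun h2 1) 0
    rw [Algebra.algebraMap_eq_smul_one, smul_mul_assoc, one_mul] at h4
    obtain ⟨t, rfl⟩ := hV
    rcases om_pow r with h5 | h5
    · rw [h5] at h4
      simp only [Matrix.smul_apply, smul_eq_mul] at h4
      have h6 : om 1 0 = 1 := rfl
      rw [h6] at h4
      omega
    · rw [h5, om_sq] at h4
      simp only [Matrix.smul_apply, smul_eq_mul] at h4
      have h6 : (!![-1, 1; -1, 0] : Matrix (Fin 2) (Fin 2) ℤ) 1 0 = -1 := rfl
      rw [h6] at h4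
      omega

end Pool.Agent.Lib.MP_5893d7_nt.Af
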