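import Pool.Agent.Lib.MP_5893d7_nt.Af.Pol
import Pool.Agent.Lib.MP_5893d7_nt.Af.Eis

/-!
MP_5893d7_nt, factorisations by linear recurrences, even indices: degrees over the quadratic field
are divisible by powers of two.
-/

set_option autoImplicit false
set_option linter.unusedSectionVars false

namespace Pool.Agent.Lib.MP_5893d7_nt.Af

open Polynomial Finset IntermediateField

variable {Kb : Type} [Field Kb] [CharZero Kb] [Algebra ℚ Kb] [IsAlgClosure ℚ Kb]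
  {α : Kb} {ι : Kb →+* ℂ}

/-- Lucas numbers of even index modulo 4 -/
lemma exists_V (h : Gold α ι) (t : ℕ) (ht : ¬ 3 ∣ t) :
    ∃ V : ℤ, (∃ s, V = 4 * s + 3) ∧ (V : Kb) = α ^ (2 * t) + (α ^ (2 * t))⁻¹ := by
  have hα := h.ne_zero
  have h1 : ∀ n : ℕ, ∃ V V' : ℤ, (V : Kb) = α ^ (2 * n) + (α ^ (2 * n))⁻¹
      ∧ (V' : Kb) = α ^ (2 * (n + 1)) + (α ^ (2 * (n + 1)))⁻¹
      ∧ (n % 3 = 0 → V % 4 = 2 ∧ V' % 4 = 3) ∧ (n % 3 = 1 → V % 4 = 3 ∧ V' % 4 = 3)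
      ∧ (n % 3 = 2 → V % 4 = 3 ∧ V' % 4 = 2) := by
    intro n
    induction n with
    | zero =>
      refine ⟨2, 3, by norm_num, ?_, by norm_num, by norm_num, by norm_num⟩
      rw [zero_add, mul_one, ← inv_pow, h.inv_eq]
      push_cast
      linear_combination -2 * h.root
    | succ n ih =>
      obtain ⟨V, V', h1, h2, h3, h4, h5⟩ := ih
      refine ⟨V', 3 * V' - V, h2, ?_, fun h6 => ?_, fun h6 => ?_, fun h6 => ?_⟩
      · have h6 : α ^ 2 + (α ^ 2)⁻¹ = 3 := by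
          rw [← inv_pow, h.inv_eq]
          linear_combination 2 * h.root
        have h7 : α ^ 2 * (α ^ 2)⁻¹ = 1 := mul_inv_cancel₀ (pow_ne_zero 2 hα)
        push_cast
        rw [h1, h2, ← h6]
        rw [show 2 * (n + 1 + 1) = 2 * n + 2 + 2 by ring, show 2 * (n + 1) = 2 * n + 2 by ring,
          pow_add α (2 * n + 2) 2, pow_add α (2 * n) 2, mul_inv, mul_inv]
        linear_combination (α ^ (2 * n) + (α ^ (2 * n))⁻¹) * h7
      · have := h5 (by omega)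
        omega
      · have := h3 (by omega)
        omega
      · have := h4 (by omega)
        omega
  obtain ⟨V, V', h2, h3, h4, h5, h6⟩ := h1 t
  refine ⟨V, ⟨V / 4, ?_⟩, h2⟩
  have h7 : t % 3 = 1 ∨ t % 3 = 2 := by omega
  rcases h7 with h7 | h7
  · have := h5 h7
    omega
  · have := h6 h7
    omega

/-- the degree of a root over the quadratic field -/
lemma deg_dvd (h : Gold α ι) {w : Kb} {M s0 r : ℕ} (hr : 0 < r) (hrM : 2 ^ r ∣ 2 * M)
    (hw : w ^ (2 * M) = -α ^ (-2 * (s0 : ℤ))) :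
    2 ^ r ∣ (minpoly ℚ⟮α⟯ w).natDegree := by
  have hα := h.ne_zero
  obtain ⟨m, hm⟩ := hrM
  obtain ⟨i, hi⟩ : ∃ i : ℕ, ¬ 3 ∣ s0 + i * 2 ^ (r - 1) := by
    by_cases h3 : 3 ∣ s0
    · refine ⟨1, fun h4 => ?_⟩
      have h5 : 3 ∣ 1 * 2 ^ (r - 1) := (Nat.dvd_add_right h3).1 h4
      rw [one_mul] at h5
      have h6 := Nat.prime_three.dvd_of_dvd_pow h5
      omega
    · exact ⟨0, by simpa using h3⟩
  obtain ⟨V, hV, hVα⟩ := exists_V h _ hi
  set t := s0 + i * 2 ^ (r - 1) with ht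
  set δ : Kb := w ^ m * (α ^ i)⁻¹ with hδ
  have hδr : δ ^ (2 ^ r) = -(α ^ (2 * t))⁻¹ := by
    have h1 : w ^ (2 ^ r * m) = -(α ^ (2 * s0))⁻¹ := by
      rw [← hm, hw, neg_mul, zpow_neg]
      norm_cast
    have h2 : 2 * t = 2 * s0 + i * 2 ^ r := by
      rw [ht]
      have h3 : 2 ^ r = 2 * 2 ^ (r - 1) := by
        rw [← pow_succ', Nat.sub_add_cancel hr]
      rw [h3]
      ring
    rw [hδ, mul_pow, ← pow_mul, mul_comm m, h1, inv_pow, ← pow_mul, h2, pow_add, mul_inv, neg_mul]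
  have hroot : aeval δ ((Qp V r).map (Int.castRingHom ℚ)) = 0 := by
    rw [Qp]
    simp only [Polynomial.map_add, Polynomial.map_pow, map_X, Polynomial.map_one,
      Polynomial.map_mul, map_C, map_add, map_mul, map_pow, aeval_X, map_one, aeval_C]
    have h1 : (algebraMap ℚ Kb) ((Int.castRingHom ℚ) V) = (V : Kb) := by simp
    rw [h1, pow_mul, hδr, hVα]
    have h2 : α ^ (2 * t) * (α ^ (2 * t))⁻¹ = 1 := mul_inv_cancel₀ (pow_ne_zero _ hα)
    linear_combination -h2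
  obtain ⟨hQd, hQm⟩ := Qp_natDegree V r
  have hirr : Irreducible ((Qp V r).map (Int.castRingHom ℚ)) :=
    (IsPrimitive.Int.irreducible_iff_irreducible_map_cast hQm.isPrimitive).1 (Qp_irreducible hV r)
  have hmin : (minpoly ℚ δ).natDegree = 2 ^ r * 2 := by
    rw [← minpoly.eq_of_irreducible_of_monic hirr hroot (hQm.map _), hQm.natDegree_map, hQd]
  have hintα : IsIntegral ℚ α := Algebra.IsIntegral.isIntegral α
  have hintF : IsIntegral ℚ⟮α⟯ w := (Algebra.IsIntegral.isIntegral (R := ℚ) w).tower_top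
  have hfinF : FiniteDimensional ℚ ℚ⟮α⟯ := adjoin.finiteDimensional hintα
  have hfinL : FiniteDimensional ℚ⟮α⟯ ℚ⟮α⟯⟮w⟯ := adjoin.finiteDimensional hintF
  have hmem : δ ∈ ℚ⟮α⟯⟮w⟯ := by
    refine mul_mem (pow_mem (mem_adjoin_simple_self _ w) m) (inv_mem (pow_mem ?_ i))
    exact _root_.algebraMap_mem ℚ⟮α⟯⟮w⟯ (⟨α, mem_adjoin_simple_self ℚ α⟩ : ℚ⟮α⟯)
  have hfin : FiniteDimensional ℚ ℚ⟮α⟯⟮w⟯ := FiniteDimensional.trans ℚ ℚ⟮α⟯ ℚ⟮α⟯⟮w⟯
  have h1 : (minpoly ℚ δ).natDegree ∣ Module.finrank ℚ ℚ⟮α⟯⟮w⟯ := by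
    have h2 : minpoly ℚ δ = minpoly ℚ (⟨δ, hmem⟩ : ℚ⟮α⟯⟮w⟯) := by
      refine (minpoly.algebraMap_eq (B := ℚ⟮α⟯⟮w⟯) (B' := Kb) ?_ (⟨δ, hmem⟩ : ℚ⟮α⟯⟮w⟯))
      exact (algebraMap ℚ⟮α⟯⟮w⟯ Kb).injective
    rw [h2]
    have hi1 : IsIntegral ℚ (⟨δ, hmem⟩ : ℚ⟮α⟯⟮w⟯) := by
      refine (isIntegral_algebraMap_iff (B := Kb) (algebraMap ℚ⟮α⟯⟮w⟯ Kb).injective).1 ?_
      exact Algebra.IsIntegral.isIntegral (R := ℚ) δ
    have h3 := minpoly.degree_dvd (K := ℚ) (L := ℚ⟮α⟯⟮w⟯) (x := ⟨δ, hmem⟩) hi1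
    have h4 : @Module.finrank ℚ ℚ⟮α⟯⟮w⟯ _ _ (ℚ⟮α⟯⟮w⟯).module'
        = @Module.finrank ℚ ℚ⟮α⟯⟮w⟯ _ _ Algebra.toModule := by
      congr 1
      exact Subsingleton.elim _ _
    exact h4 ▸ h3
  have h2 : Module.finrank ℚ ℚ⟮α⟯ * Module.finrank ℚ⟮α⟯ ℚ⟮α⟯⟮w⟯ = Module.finrank ℚ ℚ⟮α⟯⟮w⟯ :=
    Module.finrank_mul_finrank ℚ ℚ⟮α⟯ ℚ⟮α⟯⟮w⟯
  have h3 : Module.finrank ℚ ℚ⟮α⟯ ∣ 2 := by
    have h4 : Module.finrank ℚ ℚ⟮α⟯ ≤ 2 := by
      rw [adjoin.finrank hintα]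
      have h5 : (X ^ 2 - X - 1 : ℚ[X]).natDegree = 2 := by compute_degree!
      rw [← h5]
      refine natDegree_le_of_dvd (minpoly.dvd ℚ α ?_) ?_
      · simp only [map_sub, map_pow, aeval_X, map_one]
        linear_combination h.root
      · intro h6
        rw [h6, natDegree_zero] at h5
        omega
    have h5 : 0 < Module.finrank ℚ ℚ⟮α⟯ := Module.finrank_pos
    interval_cases Module.finrank ℚ ℚ⟮α⟯
    · exact one_dvd 2
    · exact dvd_rfl
  rw [hmin, ← h2, adjoin.finrank hintF] at h1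
  have h4 : 2 ^ r * 2 ∣ (minpoly ℚ⟮α⟯ w).natDegree * 2 := by
    rw [mul_comm (minpoly ℚ⟮α⟯ w).natDegree]
    exact h1.trans (Nat.mul_dvd_mul_right h3 _)
  exact Nat.dvd_of_mul_dvd_mul_right two_pos h4

/-- degrees of divisors -/
lemma two_dvd (h : Gold α ι) {M s0 r : ℕ} (hr : 0 < r) (hrM : 2 ^ r ∣ 2 * M) (n : ℕ) :
    ∀ f : (ℚ⟮α⟯)[X], f ≠ 0 → f.natDegree = n →
      (∀ w : Kb, aeval w f = 0 → w ^ (2 * M) = -α ^ (-2 * (s0 : ℤ))) → 2 ^ r ∣ n := by
  have hAC : IsAlgClosed Kb := IsAlgClosure.isAlgClosed ℚ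
  induction n using Nat.strong_induction_on with
  | _ n ih =>
    intro f hf hn hroots
    rcases Nat.eq_zero_or_pos n with h0 | h0
    · rw [h0]
      exact dvd_zero _
    · obtain ⟨w, hw⟩ := IsAlgClosed.exists_aeval_eq_zero Kb f (by
        rw [degree_eq_natDegree hf, hn]
        exact_mod_cast h0.ne')
      have h1 := deg_dvd h hr hrM (hroots w hw)
      have hint : IsIntegral ℚ⟮α⟯ w := (Algebra.IsIntegral.isIntegral (R := ℚ) w).tower_top
      have hpos := minpoly.natDegree_pos hint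
      obtain ⟨g, hg⟩ := minpoly.dvd ℚ⟮α⟯ w hw
      have hg0 : g ≠ 0 := by
        rintro rfl
        rw [mul_zero] at hg
        exact hf hg
      have hm0 := minpoly.ne_zero hint
      have h2 : n = (minpoly ℚ⟮α⟯ w).natDegree + g.natDegree := by
        rw [← hn, hg, natDegree_mul hm0 hg0]
      have h3 := ih g.natDegree (by omega) g hg0 rfl (fun v hv => hroots v (by
        rw [hg, map_mul, hv, mul_zero]))
      rw [h2]
      exact dvd_add h1 h3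

/-- the polynomial of a factor has coefficients in the quadratic field -/
lemma pol_lift {S : Finset Kbˣ} {a : Kbˣ → Kb} (e : Kbˣ → ℕ) (haF : ∀ g ∈ S, a g ∈ ℚ⟮α⟯) :
    ∃ f₀ : (ℚ⟮α⟯)[X], f₀.map (algebraMap ℚ⟮α⟯ Kb) = pol S a e := by
  have h1 : pol S a e ∈ lifts (algebraMap ℚ⟮α⟯ Kb) := by
    unfold pol
    refine sum_mem fun g hg => mul_mem ?_ (X_pow_mem_lifts _ _)
    exact C'_mem_lifts ⟨⟨a g, haF g hg⟩, rfl⟩
  exact (mem_lifts _).1 h1

/-- **one of two factors has a single root**, even indices -/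
theorem core_even (h : Gold α ι) {M s0 k t : ℕ} (hM : 0 < M) (hs : s0 = 2 ^ k * t)
    (hco : t.Coprime M) {x : Kbˣ}
    (hx : (x : Kb) = α ^ M) {C1 C2 : Kb} (hC1 : C1 ≠ 0) (hC2 : C2 ≠ 0)
    (hC : -(C2 / C1) = -α ^ (-2 * (s0 : ℤ)))
    {S T : Finset Kbˣ} {a b : Kbˣ → Kb} (hS : Fac α x S a) (hT : Fac α x T b)
    (hST : ∀ g ∈ S, ∀ g' ∈ T, ∃ k : ℕ, 0 < k ∧ ∃ j : ℤ, (g * g') ^ k = x ^ j)
    (hprod : ∀ k : ℕ, (∑ g ∈ S, a g * (g : Kb) ^ (2 * k)) * (∑ g ∈ T, b g * (g : Kb) ^ (2 * k))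
      = C1 * (x : Kb) ^ (2 * k) + C2 * ((x⁻¹ : Kbˣ) : Kb) ^ (2 * k)) :
    S.card = 1 ∨ T.card = 1 := by
  classical
  have hAC : IsAlgClosed Kb := IsAlgClosure.isAlgClosed ℚ
  obtain ⟨g0, hg0, t0, ht0, e, e', he, he', hei, hei', hez, hez', hi0⟩ :=
    core_pre h hM hx hC2 hS hT hST hprod
  obtain ⟨f₀, hf₀⟩ := pol_lift e hS.aF
  set f := pol S a e with hf
  set f' := pol T b e' with hf'
  obtain ⟨hf0, hfle, gt, hgt, hgt1, hgt2⟩ := pol_top hS.ne hS.ha hei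
  obtain ⟨hf0', hfle', tt, htt, htt1, htt2⟩ := pol_top hT.ne hT.ha hei'
  rw [← hf] at hf0 hfle hgt1 hgt2
  rw [← hf'] at hf0' hfle' htt1 htt2
  have hc0 : f.coeff 0 = a g0 := by rw [← hez, hf, pol_coeff hei hg0]
  set P : Kb[X] := C C1 * X ^ (2 * M) + C C2 with hP
  have hPe : ∀ z, P.eval z = C1 * z ^ (2 * M) + C2 := by
    intro z
    rw [hP]
    simp
  have hdeg : f.natDegree + f'.natDegree = 2 * M := by
    rw [← natDegree_mul hf0 hf0', hi0, hP]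
    compute_degree!
    rw [if_neg hM.ne', add_zero]
    exact hC1
  have hroot : ∀ w, f.eval w = 0 → w ^ (2 * M) = -(C2 / C1) := by
    intro w hw
    have h1 : P.eval w = 0 := by rw [← hi0, eval_mul, hw, zero_mul]
    rw [hPe] at h1
    field_simp
    linear_combination h1
  -- the power of two
  have hf₀0 : f₀ ≠ 0 := by
    rintro rfl
    rw [Polynomial.map_zero] at hf₀
    exact hf0 hf₀.symm
  have hf₀d : f₀.natDegree = f.natDegree := by rw [← hf₀, natDegree_map]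
  have htwo : ∀ r, 0 < r → 2 ^ r ∣ 2 * M → 2 ^ r ∣ f.natDegree := by
    intro r hr hrM
    rw [← hf₀d]
    refine two_dvd h (s0 := s0) hr hrM _ f₀ hf₀0 rfl fun w hw => ?_
    have h1 : f.eval w = 0 := by
      rw [← hf₀, eval_map_algebraMap]
      exact hw
    rw [hroot w h1, hC]
  -- the constant coefficient
  set ν : Kb := f.coeff 0 / f.leadingCoeff with hν
  have hνp : ν ^ (2 * M) = (-(C2 / C1)) ^ f.natDegree := const_pow hf0 (even_two_mul M) hroot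
  have hνp2 : ν ^ (2 * M) = α ^ (-2 * (s0 : ℤ) * f.natDegree)
      ∨ ν ^ (2 * M) = -α ^ (-2 * (s0 : ℤ) * f.natDegree) := by
    rw [hνp, zpow_mul, zpow_natCast, hC]
    rcases Nat.even_or_odd f.natDegree with h2 | h2
    · left
      rw [h2.neg_pow]
    · right
      rw [h2.neg_pow]
  have hνF : ν ∈ ℚ⟮α⟯ := by
    rw [hν, hc0, hgt2]
    exact div_mem (hS.aF g0 hg0) (hS.aF gt hgt)
  obtain ⟨j, hj⟩ := h.unit_lemma hνF (by omega) hνp2
  have hj2 : 2 * (M : ℤ) * j = -2 * (s0 : ℤ) * f.natDegree := by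
    have h1 : ν ^ (2 * M) = α ^ (2 * (M : ℤ) * j) := by
      rw [mul_comm (2 * (M : ℤ)), zpow_mul]
      rcases hj with h2 | h2
      · rw [h2]
        norm_cast
      · rw [h2, (even_two_mul M).neg_pow]
        norm_cast
    rw [h1] at hνp2
    exact h.zpow_inj hνp2
  have hdvd : M ∣ 2 ^ k * f.natDegree := by
    have h1 : (M : ℤ) ∣ (s0 : ℤ) * f.natDegree := ⟨-j, by linarith⟩
    have h2 : M ∣ s0 * f.natDegree := by exact_mod_cast h1
    rw [hs, show 2 ^ k * t * f.natDegree = t * (2 ^ k * f.natDegree) by ring] at h2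
    exact hco.symm.dvd_of_dvd_mul_left h2
  obtain ⟨r, m, hm, hrm⟩ := Nat.exists_eq_two_pow_mul_odd (n := 2 * M) (by omega)
  have hr : 0 < r := by
    rcases Nat.eq_zero_or_pos r with h1 | h1
    · rw [h1, pow_zero, one_mul] at hrm
      rw [← hrm] at hm
      exact absurd hm (by simp)
    · exact h1
  have h2r : 2 ^ r ∣ f.natDegree := htwo r hr ⟨m, hrm⟩
  have hcop : ∀ i, (2 ^ i).Coprime m := fun i =>
    Nat.Coprime.pow_left i ((Nat.coprime_two_left (n := m)).2 hm)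
  have hmd : m ∣ f.natDegree := by
    have h1 : m ∣ 2 * (2 ^ k * f.natDegree) := by
      refine (Dvd.intro_left (2 ^ r) hrm.symm).trans ?_
      exact Nat.mul_dvd_mul_left 2 hdvd
    rw [← mul_assoc, ← pow_succ'] at h1
    exact (hcop (k + 1)).symm.dvd_of_dvd_mul_left h1
  have hall : 2 * M ∣ f.natDegree := by
    rw [hrm]
    exact (hcop r).mul_dvd_of_dvd_of_dvd h2r hmd
  obtain ⟨q, hq⟩ := hall
  have hq2 : q = 0 ∨ q = 1 := by
    have h1 : 2 * M * q ≤ 2 * M * 1 := by omega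
    have h2 := Nat.le_of_mul_le_mul_left h1 (by omega)
    omega
  rcases hq2 with h1 | h1
  · left
    rw [h1, mul_zero] at hq
    rw [card_eq_one]
    refine ⟨g0, ?_⟩
    ext g
    rw [mem_singleton]
    constructor
    · intro hg
      have h2 := hfle g hg
      exact hei g hg g0 hg0 (by omega)
    · rintro rfl
      exact hg0
  · right
    rw [h1] at hq
    have h2 : f'.natDegree = 0 := by omega
    rw [card_eq_one]
    refine ⟨t0, ?_⟩
    ext g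
    rw [mem_singleton]
    constructor
    · intro hg
      have h3 := hfle' g hg
      exact hei' g hg t0 ht0 (by omega)
    · rintro rfl
      exact ht0

end Pool.Agent.Lib.MP_5893d7_nt.Af
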