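import Mathlib

/-!
MP_5893d7_nt, factorisations by linear recurrences: the golden ratio in the algebraic closure of the
rationals.
-/

set_option autoImplicit false
set_option linter.unusedSectionVars false

namespace Pool.Agent.Lib.MP_5893d7_nt.Af

open Polynomial IntermediateField

variable {Kb : Type} [Field Kb] [CharZero Kb] [Algebra ℚ Kb] [IsAlgClosure ℚ Kb]

/-- the golden ratio in an algebraic closure `Kb` of the rationals, with a complex embedding -/
structure Gold {Kb : Type} [Field Kb] (α : Kb) (ι : Kb →+* ℂ) : Prop where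
  root : α ^ 2 = α + 1
  real : ι α = ((Real.goldenRatio : ℝ) : ℂ)

lemma exists_gold : ∃ (α : Kb) (ι : Kb →+* ℂ), Gold α ι := by
  have := IsAlgClosure.isAlgClosed ℚ (K := Kb)
  let ι : Kb →+* ℂ := (IsAlgClosed.lift (R := ℚ) (S := Kb) (M := ℂ)).toRingHom
  obtain ⟨s, hs⟩ := IsAlgClosed.exists_pow_nat_eq (5 : Kb) (n := 2) (by norm_num)
  have h1 : (ι s) ^ 2 = 5 := by
    rw [← map_pow, hs, map_ofNat]
  have h2 : ((Real.sqrt 5 : ℝ) : ℂ) ^ 2 = 5 := by
    rw [← Complex.ofReal_pow, Real.sq_sqrt (by norm_num)]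
    norm_num
  have h3 : ι s = ((Real.sqrt 5 : ℝ) : ℂ) ∨ ι s = -((Real.sqrt 5 : ℝ) : ℂ) :=
    sq_eq_sq_iff_eq_or_eq_neg.1 (h1.trans h2.symm)
  rcases h3 with h3 | h3
  · refine ⟨(1 + s) / 2, ι, ⟨?_, ?_⟩⟩
    · linear_combination hs / 4
    · rw [map_div₀, map_add, map_one, map_ofNat, h3, Real.goldenRatio]
      push_cast
      rfl
  · refine ⟨(1 - s) / 2, ι, ⟨?_, ?_⟩⟩
    · linear_combination hs / 4
    · rw [map_div₀, map_sub, map_one, map_ofNat, h3, Real.goldenRatio]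
      push_cast
      ring

variable {α : Kb} {ι : Kb →+* ℂ}

namespace Gold

lemma ne_zero (h : Gold α ι) : α ≠ 0 := by
  intro h1
  have h2 := h.root
  rw [h1] at h2
  norm_num at h2

lemma mul_conj (h : Gold α ι) : α * (1 - α) = -1 := by
  linear_combination -h.root

lemma conj_ne_zero (h : Gold α ι) : 1 - α ≠ 0 := by
  intro h1
  have h2 := h.mul_conj
  rw [h1, mul_zero] at h2
  norm_num at h2

lemma inv_eq (h : Gold α ι) : α⁻¹ = α - 1 := by
  rw [inv_eq_iff_eq_inv, eq_comm, inv_eq_iff_eq_inv]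
  refine eq_inv_of_mul_eq_one_left ?_
  linear_combination h.root

/-- elements of the quadratic field -/
lemma exists_xy (h : Gold α ι) {ν : Kb} (hν : ν ∈ ℚ⟮α⟯) :
    ∃ x y : ℚ, ν = (x : Kb) + (y : Kb) * α := by
  have hint : IsIntegral ℚ α := Algebra.IsIntegral.isIntegral α
  have h1 : ν ∈ (ℚ⟮α⟯).toSubalgebra := hν
  rw [adjoin_simple_toSubalgebra_of_isAlgebraic hint.isAlgebraic,
    Algebra.adjoin_singleton_eq_range_aeval] at h1
  obtain ⟨p, hp⟩ := h1
  have hp : aeval α p = ν := hp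
  set q : ℚ[X] := X ^ 2 - X - 1 with hq
  have hqm : q.Monic := by
    rw [hq]
    monicity!
  have hqr : aeval α q = 0 := by
    rw [hq]
    simp only [map_sub, map_pow, aeval_X, map_one]
    linear_combination h.root
  have h2 := aeval_modByMonic_eq_self_of_root (p := p) hqr
  have hdeg : q.degree = 2 := by
    rw [hq]
    compute_degree!
  have h3 : (p %ₘ q).degree < 2 := by
    rw [← hdeg]
    exact degree_modByMonic_lt _ hqm
  have h4 : (p %ₘ q).degree ≤ 1 := by
    rcases eq_or_ne (p %ₘ q) 0 with h5 | h5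
    · rw [h5, degree_zero]
      exact bot_le
    · rw [degree_eq_natDegree h5] at h3 ⊢
      have h6 : (p %ₘ q).natDegree < 2 := by exact_mod_cast h3
      exact_mod_cast (by omega : (p %ₘ q).natDegree ≤ 1)
  have h5 := eq_X_add_C_of_degree_le_one h4
  refine ⟨(p %ₘ q).coeff 0, (p %ₘ q).coeff 1, ?_⟩
  rw [← hp, ← h2]
  conv_lhs => rw [h5]
  simp only [map_add, map_mul, aeval_C, aeval_X]
  simp
  ring

lemma mem_self (_h : Gold α ι) : α ∈ ℚ⟮α⟯ := mem_adjoin_simple_self ℚ α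

/-- fixed elements -/
lemma mem_of_fixed (ν : Kb) (hν : ∀ σ : Kb ≃ₐ[ℚ] Kb, σ α = α → σ ν = ν) : ν ∈ ℚ⟮α⟯ := by
  have h1 := InfiniteGalois.fixedField_fixingSubgroup (k := ℚ) (K := Kb) ℚ⟮α⟯
  rw [← h1, IntermediateField.mem_fixedField_iff]
  intro σ hσ
  refine hν σ ?_
  exact (IntermediateField.mem_fixingSubgroup_iff _ _).1 hσ α (mem_adjoin_simple_self ℚ α)

lemma fixed_of_mem (h : Gold α ι) {ν : Kb} (hν : ν ∈ ℚ⟮α⟯) (σ : Kb ≃ₐ[ℚ] Kb) (hσ : σ α = α) :
    σ ν = ν := by
  obtain ⟨x, y, rfl⟩ := h.exists_xy hν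
  rw [map_add, map_mul, hσ, map_ratCast, map_ratCast]

/-- the conjugation -/
lemma exists_conj (h : Gold α ι) : ∃ τ : Kb ≃ₐ[ℚ] Kb, τ α = 1 - α := by
  by_contra h1
  push Not at h1
  have h2 : ∀ σ : Kb ≃ₐ[ℚ] Kb, σ α = α := by
    intro σ
    have h3 : (σ α) ^ 2 = σ α + 1 := by
      rw [← map_pow, h.root, map_add, map_one]
    have h4 : (σ α - α) * (σ α - (1 - α)) = 0 := by
      linear_combination h3 - h.root
    rcases mul_eq_zero.1 h4 with h5 | h5
    · exact sub_eq_zero.1 h5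
    · exact absurd (sub_eq_zero.1 h5) (h1 σ)
  have h3 : α ∈ (⊥ : IntermediateField ℚ Kb) := (InfiniteGalois.mem_bot_iff_fixed α).2 h2
  obtain ⟨q, hq⟩ := IntermediateField.mem_bot.1 h3
  have h4 := h.real
  rw [← hq, eq_ratCast, map_ratCast] at h4
  have h5 : ((q : ℝ) : ℂ) = ((Real.goldenRatio : ℝ) : ℂ) := by
    rw [← h4]
    norm_cast
  have h6 : (q : ℝ) = Real.goldenRatio := by exact_mod_cast h5
  exact Real.goldenRatio_irrational ⟨q, h6⟩

lemma conj_conj (h : Gold α ι) {τ : Kb ≃ₐ[ℚ] Kb} (hτ : τ α = 1 - α) {ν : Kb}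
    (hν : ν ∈ ℚ⟮α⟯) : τ (τ ν) = ν := by
  obtain ⟨x, y, rfl⟩ := h.exists_xy hν
  simp only [map_add, map_mul, hτ, map_ratCast, map_sub, map_one]
  ring

lemma gr_sq : Real.goldenRatio ^ 2 = Real.goldenRatio + 1 := Real.goldenRatio_sq

/-- powers are different up to sign -/
lemma zpow_inj (h : Gold α ι) {i j : ℤ} (hij : α ^ i = α ^ j ∨ α ^ i = -α ^ j) : i = j := by
  have h1 : ∀ i : ℤ, ‖ι (α ^ i)‖ = Real.goldenRatio ^ i := by
    intro i
    rw [map_zpow₀, h.real, norm_zpow, Complex.norm_real, Real.norm_of_nonneg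
      Real.goldenRatio_pos.le]
  have h2 : Real.goldenRatio ^ i = Real.goldenRatio ^ j := by
    rw [← h1, ← h1]
    rcases hij with h3 | h3
    · rw [h3]
    · rw [h3, map_neg, norm_neg]
  exact zpow_right_injective₀ Real.goldenRatio_pos (ne_of_gt Real.one_lt_goldenRatio) h2

/-- the real part of the unit lemma -/
lemma real_unit {x y : ℚ} {z : ℤ} (hz : 2 * x + y = z)
    (hn : x ^ 2 + x * y - y ^ 2 = 1 ∨ x ^ 2 + x * y - y ^ 2 = -1)
    (h1 : 1 ≤ (x : ℝ) + y * Real.goldenRatio)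
    (h2 : (x : ℝ) + y * Real.goldenRatio < Real.goldenRatio) :
    (x : ℝ) + y * Real.goldenRatio = 1 := by
  set φ := Real.goldenRatio with hφ
  have hφ2 : φ ^ 2 = φ + 1 := gr_sq
  have hφ1 : 1 < φ := Real.one_lt_goldenRatio
  have hφ3 : φ < 2 := Real.goldenRatio_lt_two
  set m : ℝ := (x : ℝ) + y * φ with hm
  have hzR : 2 * (x : ℝ) + y = z := by exact_mod_cast hz
  have h3 : m * (z - m) = (x : ℝ) ^ 2 + x * y - y ^ 2 := by
    rw [← hzR, hm]
    linear_combination (-(y : ℝ) ^ 2) * hφ2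
  have hm2 : m ^ 2 < m + 1 := by nlinarith
  rcases hn with hn | hn
  · have hnR : (x : ℝ) ^ 2 + x * y - y ^ 2 = 1 := by exact_mod_cast hn
    rw [hnR] at h3
    have hz2 : z = 2 := by
      have hlt : z < 3 := by
        by_contra h4
        have h5 : (3 : ℝ) ≤ z := by exact_mod_cast not_lt.1 h4
        nlinarith
      have hgt : 1 < z := by
        by_contra h4
        have h5 : (z : ℝ) ≤ 1 := by exact_mod_cast not_lt.1 h4
        nlinarith
      omega
    rw [hz2] at h3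
    push_cast at h3
    nlinarith
  · have hnR : (x : ℝ) ^ 2 + x * y - y ^ 2 = -1 := by exact_mod_cast hn
    rw [hnR] at h3
    have hz2 : z = 0 := by
      have hlt : z < 1 := by
        by_contra h4
        have h5 : (1 : ℝ) ≤ z := by exact_mod_cast not_lt.1 h4
        nlinarith
      have hgt : -1 < z := by
        by_contra h4
        have h5 : (z : ℝ) ≤ -1 := by exact_mod_cast not_lt.1 h4
        nlinarith
      omega
    rw [hz2] at h3
    push_cast at h3
    nlinarith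

lemma isIntegral (h : Gold α ι) : IsIntegral ℤ α := by
  refine ⟨X ^ 2 - X - 1, by monicity!, ?_⟩
  simp only [eval₂_sub, eval₂_X_pow, eval₂_X, eval₂_one]
  linear_combination h.root

lemma isIntegral_zpow (h : Gold α ι) (j : ℤ) : IsIntegral ℤ (α ^ j) := by
  have h1 : IsIntegral ℤ (α⁻¹) := by
    rw [h.inv_eq]
    exact h.isIntegral.sub isIntegral_one
  obtain ⟨n, rfl | rfl⟩ := j.eq_nat_or_neg
  · rw [zpow_natCast]
    exact h.isIntegral.pow n
  · rw [zpow_neg, zpow_natCast, ← inv_pow]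
    exact h1.pow n

/-- **the units**: an element of the quadratic field with a power `± α ^ e` -/
theorem unit_lemma (h : Gold α ι) {ν : Kb} (hν : ν ∈ ℚ⟮α⟯) {k : ℕ} (hk : 0 < k) {e : ℤ}
    (hp : ν ^ k = α ^ e ∨ ν ^ k = -α ^ e) : ∃ j : ℤ, ν = α ^ j ∨ ν = -α ^ j := by
  obtain ⟨τ, hτ⟩ := h.exists_conj
  have hα := h.ne_zero
  have hint : IsIntegral ℤ ν := by
    refine IsIntegral.of_pow hk ?_
    rcases hp with hp | hp
    · rw [hp]
      exact h.isIntegral_zpow e
    · rw [hp]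
      exact (h.isIntegral_zpow e).neg
  have hν0 : ν ≠ 0 := by
    rintro rfl
    rw [zero_pow hk.ne'] at hp
    rcases hp with hp | hp
    · exact zpow_ne_zero e hα hp.symm
    · exact zpow_ne_zero e hα (neg_eq_zero.1 hp.symm)
  obtain ⟨x, y, hxy⟩ := h.exists_xy hν
  -- the norm
  have hn : (ν * τ ν) ^ k = 1 ∨ (ν * τ ν) ^ k = -1 := by
    have h1 : (ν * τ ν) ^ k = (α * (1 - α)) ^ e := by
      rw [mul_pow, ← map_pow]
      rcases hp with hp | hp
      · rw [hp, map_zpow₀, hτ, mul_zpow]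
      · rw [hp, map_neg, map_zpow₀, hτ, mul_zpow, neg_mul_neg]
    rw [h1, h.mul_conj]
    rcases Int.even_or_odd e with h2 | h2
    · left
      exact h2.neg_one_zpow
    · right
      exact h2.neg_one_zpow
  have hnq : ν * τ ν = ((x ^ 2 + x * y - y ^ 2 : ℚ) : Kb) := by
    rw [hxy, map_add, map_mul, hτ, map_ratCast, map_ratCast]
    push_cast
    linear_combination (-(y : Kb) ^ 2) * h.root
  have hnn : x ^ 2 + x * y - y ^ 2 = 1 ∨ x ^ 2 + x * y - y ^ 2 = -1 := by
    rw [hnq] at hn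
    have h1 : |x ^ 2 + x * y - y ^ 2| ^ k = 1 := by
      rw [← abs_pow]
      rcases hn with hn | hn
      · have h2 : (x ^ 2 + x * y - y ^ 2) ^ k = 1 := by exact_mod_cast hn
        rw [h2, abs_one]
      · have h2 : (x ^ 2 + x * y - y ^ 2) ^ k = -1 := by exact_mod_cast hn
        rw [h2, abs_neg, abs_one]
    have h2 : |x ^ 2 + x * y - y ^ 2| = 1 := (pow_eq_one_iff_of_nonneg (abs_nonneg _) hk.ne').1 h1
    exact eq_or_eq_neg_of_abs_eq h2
  -- the real value
  have hreal : ∀ x y : ℚ, ι ((x : Kb) + (y : Kb) * α)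
      = (((x : ℝ) + y * Real.goldenRatio : ℝ) : ℂ) := by
    intro x y
    rw [map_add, map_mul, map_ratCast, map_ratCast, h.real]
    push_cast
    rfl
  set r : ℝ := (x : ℝ) + y * Real.goldenRatio with hr
  have hr0 : r ≠ 0 := by
    intro h1
    have h2 := hreal x y
    rw [← hxy, ← hr, h1] at h2
    exact hν0 (ι.injective (by rw [h2, map_zero]; simp))
  obtain ⟨j, hj1, hj2⟩ := exists_mem_Ico_zpow (abs_pos.2 hr0) Real.one_lt_goldenRatio
  obtain ⟨s, hs, hsr⟩ : ∃ s : ℚ, (s = 1 ∨ s = -1) ∧ |r| = s * r := by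
    rcases abs_choice r with h1 | h1
    · exact ⟨1, Or.inl rfl, by rw [h1]; simp⟩
    · exact ⟨-1, Or.inr rfl, by rw [h1]; simp⟩
  set μ : Kb := (s : Kb) * ν * α ^ (-j) with hμ
  have hμF : μ ∈ ℚ⟮α⟯ := by
    refine mul_mem (mul_mem ?_ hν) (zpow_mem h.mem_self _)
    rw [← eq_ratCast (algebraMap ℚ Kb) s]
    exact _root_.algebraMap_mem _ s
  have hμint : IsIntegral ℤ μ := by
    refine IsIntegral.mul (IsIntegral.mul ?_ hint) (h.isIntegral_zpow _)
    rcases hs with hs | hs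
    · rw [hs]
      simpa using isIntegral_one
    · rw [hs]
      push_cast
      exact isIntegral_one.neg
  obtain ⟨x', y', hxy'⟩ := h.exists_xy hμF
  have hssq : (s : Kb) ^ 2 = 1 := by
    rcases hs with hs | hs <;> rw [hs] <;> norm_num
  have hμn : x' ^ 2 + x' * y' - y' ^ 2 = 1 ∨ x' ^ 2 + x' * y' - y' ^ 2 = -1 := by
    have h1 : μ * τ μ = ((x' ^ 2 + x' * y' - y' ^ 2 : ℚ) : Kb) := by
      rw [hxy', map_add, map_mul, hτ, map_ratCast, map_ratCast]
      push_cast
      linear_combination (-(y' : Kb) ^ 2) * h.root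
    have h2 : μ * τ μ = (ν * τ ν) * (-1) ^ (-j) := by
      rw [← h.mul_conj, mul_zpow, hμ, map_mul, map_mul, map_ratCast, map_zpow₀, hτ]
      linear_combination (ν * τ ν * (α ^ (-j) * (1 - α) ^ (-j))) * hssq
    rw [h1, hnq] at h2
    rcases Int.even_or_odd (-j) with h4 | h4
    · rw [h4.neg_one_zpow, mul_one] at h2
      have h3 : x' ^ 2 + x' * y' - y' ^ 2 = x ^ 2 + x * y - y ^ 2 := by exact_mod_cast h2
      rw [h3]
      exact hnn
    · rw [h4.neg_one_zpow, mul_neg_one] at h2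
      have h3 : x' ^ 2 + x' * y' - y' ^ 2 = -(x ^ 2 + x * y - y ^ 2) := by exact_mod_cast h2
      rw [h3]
      rcases hnn with h5 | h5
      · right; rw [h5]
      · left; rw [h5]; norm_num
  obtain ⟨z, hz⟩ : ∃ z : ℤ, 2 * x' + y' = z := by
    have h1 : μ + τ μ = ((2 * x' + y' : ℚ) : Kb) := by
      rw [hxy', map_add, map_mul, hτ, map_ratCast, map_ratCast]
      push_cast
      ring
    have h2 : IsIntegral ℤ (μ + τ μ) := by
      refine hμint.add ?_
      exact hμint.map (τ.toAlgHom.restrictScalars ℤ)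
    rw [h1] at h2
    have h3 : IsIntegral ℤ (2 * x' + y') := by
      have h4 : ((2 * x' + y' : ℚ) : Kb) = algebraMap ℚ Kb (2 * x' + y') := by
        rw [eq_ratCast]
      rw [h4] at h2
      exact (isIntegral_algHom_iff ((Algebra.ofId ℚ Kb).restrictScalars ℤ)
        (algebraMap ℚ Kb).injective).1 h2
    obtain ⟨z, hz⟩ := IsIntegrallyClosed.isIntegral_iff.1 h3
    exact ⟨z, by rw [← hz]; simp⟩
  have hμr : ((x' : ℝ) + y' * Real.goldenRatio) = |r| * Real.goldenRatio ^ (-j) := by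
    have h1 := hreal x' y'
    rw [← hxy', hμ, map_mul, map_mul, map_ratCast, map_zpow₀, h.real, hxy, hreal x y] at h1
    rw [hsr]
    have h2 : ((((s : ℝ) * r * Real.goldenRatio ^ (-j) : ℝ)) : ℂ)
        = (((x' : ℝ) + y' * Real.goldenRatio : ℝ) : ℂ) := by
      rw [← h1, ← hr]
      push_cast
      rfl
    exact (Complex.ofReal_injective h2).symm
  have hφp : ∀ i : ℤ, 0 < Real.goldenRatio ^ i := fun i => zpow_pos Real.goldenRatio_pos i
  have h3 : (x' : ℝ) + y' * Real.goldenRatio = 1 := by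
    refine real_unit hz hμn ?_ ?_
    · rw [hμr, zpow_neg, ← div_eq_mul_inv, le_div_iff₀ (hφp j), one_mul]
      exact hj1
    · rw [hμr, zpow_neg, ← div_eq_mul_inv, div_lt_iff₀ (hφp j)]
      rw [zpow_add_one₀ Real.goldenRatio_pos.ne', mul_comm] at hj2
      exact hj2
  have h4 : μ = 1 := by
    refine ι.injective ?_
    have h5 := hreal x' y'
    rw [← hxy', h3] at h5
    rw [h5, map_one]
    simp
  refine ⟨j, ?_⟩
  have h5 : (s : Kb) * ν = α ^ j := by
    rw [hμ, zpow_neg] at h4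
    exact (mul_inv_eq_one₀ (zpow_ne_zero j hα)).1 h4
  rcases hs with hs | hs
  · left
    rw [hs] at h5
    simpa using h5
  · right
    rw [hs] at h5
    rw [← h5]
    push_cast
    ring

end Gold

end Pool.Agent.Lib.MP_5893d7_nt.Af
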