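import Mathlib

/-!
MP_5893d7_nt, factorisations by linear recurrences: homogeneous products in monoid algebras, and the
torsion of finitely generated groups of units.
-/

set_option autoImplicit false
set_option linter.unusedSectionVars false

namespace Pool.Agent.Lib.MP_5893d7_nt.Af

open Finset

section Graded

variable {R M Q : Type*} [CommRing R] [IsDomain R] [CommMonoid M] [CommMonoid Q]

/-- a monomial product has monomial factors -/
lemma mono_of_mul {D : Type*} [CommRing D] [IsDomain D] [TwoUniqueProds Q]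
    (x y : MonoidAlgebra D Q) (q0 : Q) (u : D) (hu : u ≠ 0)
    (h : x * y = MonoidAlgebra.single q0 u) :
    ∃ q1 q2 : Q, x.coeff.support = {q1} ∧ y.coeff.support = {q2} ∧ q1 * q2 = q0 := by
  classical
  have hx : x.coeff.support.Nonempty := by
    rw [nonempty_iff_ne_empty]
    intro h1
    have h2 : x = 0 := by
      ext q
      have h3 : q ∉ x.coeff.support := by rw [h1]; simp
      rw [Finsupp.notMem_support_iff] at h3
      simpa using h3
    rw [h2, zero_mul] at h
    have h3 := congrArg (fun z : MonoidAlgebra D Q => z.coeff q0) h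
    simp at h3
    exact hu h3.symm
  have hy : y.coeff.support.Nonempty := by
    rw [nonempty_iff_ne_empty]
    intro h1
    have h2 : y = 0 := by
      ext q
      have h3 : q ∉ y.coeff.support := by rw [h1]; simp
      rw [Finsupp.notMem_support_iff] at h3
      simpa using h3
    rw [h2, mul_zero] at h
    have h3 := congrArg (fun z : MonoidAlgebra D Q => z.coeff q0) h
    simp at h3
    exact hu h3.symm
  have key : ∀ a b, a ∈ x.coeff.support → b ∈ y.coeff.support →
      UniqueMul x.coeff.support y.coeff.support a b → a * b = q0 := by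
    intro a b ha hb hab
    have h1 := MonoidAlgebra.coeff_mul_mul_of_uniqueMul (R := D) hab
    rw [h] at h1
    by_contra h2
    have h3 : (MonoidAlgebra.single q0 u : MonoidAlgebra D Q).coeff (a * b) = 0 := by
      rw [MonoidAlgebra.coeff_single, Finsupp.single_apply, if_neg (fun h4 => h2 h4.symm)]
    rw [h3] at h1
    rcases mul_eq_zero.1 h1.symm with h4 | h4
    · exact (Finsupp.mem_support_iff.1 ha) h4
    · exact (Finsupp.mem_support_iff.1 hb) h4
  by_cases hc : 1 < #x.coeff.support * #y.coeff.support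
  · obtain ⟨p1, hp1, p2, hp2, hne, hu1, hu2⟩ :=
      TwoUniqueProds.uniqueMul_of_one_lt_card hc
    exfalso
    rw [mem_product] at hp1 hp2
    have h1 := key _ _ hp1.1 hp1.2 hu1
    have h2 := key _ _ hp2.1 hp2.2 hu2
    have h3 := hu1 hp2.1 hp2.2 (h2.trans h1.symm)
    exact hne (Prod.ext h3.1.symm h3.2.symm)
  · have h1 : 0 < #x.coeff.support := card_pos.2 hx
    have h2 : 0 < #y.coeff.support := card_pos.2 hy
    have h3 : #x.coeff.support = 1 ∧ #y.coeff.support = 1 := by
      constructor <;> nlinarith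
    obtain ⟨q1, hq1⟩ := card_eq_one.1 h3.1
    obtain ⟨q2, hq2⟩ := card_eq_one.1 h3.2
    refine ⟨q1, q2, hq1, hq2, key q1 q2 (by rw [hq1]; simp) (by rw [hq2]; simp) ?_⟩
    rw [hq1, hq2]
    intro a b ha hb _
    exact ⟨mem_singleton.1 ha, mem_singleton.1 hb⟩

/-- the grading map -/
noncomputable def grd (π : M →* Q) : MonoidAlgebra R M →+* MonoidAlgebra (MonoidAlgebra R M) Q :=
  (MonoidAlgebra.lift R (MonoidAlgebra (MonoidAlgebra R M) Q) M
    { toFun := fun m => MonoidAlgebra.single (π m) (MonoidAlgebra.single m (1 : R))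
      map_one' := by
        rw [map_one]
        rfl
      map_mul' := fun a b => by
        rw [map_mul, MonoidAlgebra.single_mul_single, MonoidAlgebra.single_mul_single,
          one_mul] }).toRingHom

omit [IsDomain R] in
lemma grd_single (π : M →* Q) (m : M) (r : R) :
    grd π (MonoidAlgebra.single m r)
      = MonoidAlgebra.single (π m) (MonoidAlgebra.single m r) := by
  show (MonoidAlgebra.lift R (MonoidAlgebra (MonoidAlgebra R M) Q) M _)
    (MonoidAlgebra.single m r) = _
  rw [MonoidAlgebra.lift_single]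
  show r • MonoidAlgebra.single (π m) (MonoidAlgebra.single m (1 : R)) = _
  rw [MonoidAlgebra.smul_single, MonoidAlgebra.smul_single, smul_eq_mul, mul_one]

open Classical in
lemma grd_coeff (π : M →* Q) (x : MonoidAlgebra R M) (q : Q) (m : M) :
    ((grd π x).coeff q).coeff m = if π m = q then x.coeff m else 0 := by
  induction x using MonoidAlgebra.induction_linear with
  | zero => simp
  | add x y hx hy =>
    rw [map_add, MonoidAlgebra.coeff_add, Finsupp.add_apply, MonoidAlgebra.coeff_add,
      Finsupp.add_apply, hx, hy, MonoidAlgebra.coeff_add, Finsupp.add_apply]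
    split_ifs <;> simp
  | single m' r =>
    rw [grd_single, MonoidAlgebra.coeff_single, MonoidAlgebra.coeff_single,
      Finsupp.single_apply, Finsupp.single_apply]
    by_cases h1 : m' = m
    · subst h1
      rw [if_pos rfl]
      split_ifs with h2
      · rw [MonoidAlgebra.coeff_single, Finsupp.single_apply, if_pos rfl]
      · rfl
    · rw [if_neg h1]
      split_ifs with h2
      · rw [MonoidAlgebra.coeff_single, Finsupp.single_apply, if_neg h1]
      · rw [MonoidAlgebra.coeff_single, Finsupp.single_apply, if_neg h1]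
      · rfl
      · rfl

/-- **factors of a homogeneous element are homogeneous** -/
theorem graded [TwoUniqueProds M] [TwoUniqueProds Q] (π : M →* Q) (x y z : MonoidAlgebra R M)
    (hz : z ≠ 0) (h : x * y = z) (q0 : Q) (hq : ∀ m ∈ z.coeff.support, π m = q0) :
    ∃ q1 q2 : Q, (∀ m ∈ x.coeff.support, π m = q1) ∧ (∀ m ∈ y.coeff.support, π m = q2) ∧
      q1 * q2 = q0 := by
  classical
  have h1 : grd π z = MonoidAlgebra.single q0 z := by
    ext q m
    rw [grd_coeff, MonoidAlgebra.coeff_single, Finsupp.single_apply]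
    by_cases hm : z.coeff m = 0
    · split_ifs <;> simp [hm]
    · have h2 := hq m (Finsupp.mem_support_iff.2 hm)
      rw [h2]
      split_ifs <;> rfl
  have h2 : grd π x * grd π y = MonoidAlgebra.single q0 z := by
    rw [← map_mul, h, h1]
  obtain ⟨q1, q2, h3, h4, h5⟩ := mono_of_mul _ _ q0 z hz h2
  refine ⟨q1, q2, fun m hm => ?_, fun m hm => ?_, h5⟩
  · have h6 : π m ∈ (grd π x).coeff.support := by
      rw [Finsupp.mem_support_iff]
      intro h7
      have h8 := grd_coeff π x (π m) m
      rw [h7, if_pos rfl] at h8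
      exact (Finsupp.mem_support_iff.1 hm) h8.symm
    rw [h3] at h6
    exact mem_singleton.1 h6
  · have h6 : π m ∈ (grd π y).coeff.support := by
      rw [Finsupp.mem_support_iff]
      intro h7
      have h8 := grd_coeff π y (π m) m
      rw [h7, if_pos rfl] at h8
      exact (Finsupp.mem_support_iff.1 hm) h8.symm
    rw [h4] at h6
    exact mem_singleton.1 h6

end Graded

section Tor

/-- the torsion of a finitely generated commutative group has an exponent -/
lemma exists_exponent (G : Type*) [CommGroup G] [Group.FG G] :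
    ∃ e : ℕ, 0 < e ∧ ∀ (g : G) (k : ℕ), 0 < k → g ^ k = 1 → g ^ e = 1 := by
  have h1 : AddGroup.FG (Additive G) := inferInstance
  have h2 : Module.Finite ℤ (Additive G) := Module.Finite.iff_addGroup_fg.2 h1
  obtain ⟨a, ha1, ha2⟩ := Submodule.annihilator_top_inter_nonZeroDivisors (R := ℤ)
    (M := Submodule.torsion ℤ (Additive G)) Submodule.torsion_isTorsion
  have ha : a ≠ 0 := nonZeroDivisors.ne_zero ha2
  refine ⟨a.natAbs, Int.natAbs_pos.2 ha, fun g k hk hg => ?_⟩
  have h3 : Additive.ofMul g ∈ Submodule.torsion ℤ (Additive G) := by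
    rw [Submodule.mem_torsion_iff]
    refine ⟨⟨(k : ℤ), mem_nonZeroDivisors_of_ne_zero (by positivity)⟩, ?_⟩
    show (k : ℤ) • Additive.ofMul g = 0
    rw [natCast_zsmul, ← ofMul_pow, hg]
    rfl
  have h4 := (Submodule.mem_annihilator.1 ha1) ⟨Additive.ofMul g, h3⟩ trivial
  have h5 : a • Additive.ofMul g = 0 := congrArg Subtype.val h4
  have h6 : g ^ a = 1 := by
    have h7 : Additive.ofMul (g ^ a) = 0 := by rw [ofMul_zpow, h5]
    exact h7
  rcases Int.natAbs_eq a with h7 | h7
  · rw [h7, zpow_natCast] at h6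
    exact h6
  · rw [h7, zpow_neg, zpow_natCast, inv_eq_one] at h6
    exact h6

variable {G : Type*} [CommGroup G]

/-- the pure closure of a cyclic subgroup -/
def pcl (x : G) : Subgroup G where
  carrier := {g | ∃ k : ℕ, 0 < k ∧ ∃ j : ℤ, g ^ k = x ^ j}
  one_mem' := ⟨1, one_pos, 0, by simp⟩
  mul_mem' := by
    rintro a b ⟨k, hk, j, h1⟩ ⟨l, hl, i, h2⟩
    refine ⟨k * l, Nat.mul_pos hk hl, j * l + i * k, ?_⟩
    rw [mul_pow, pow_mul, h1, mul_comm k l, pow_mul, h2, ← zpow_natCast, ← zpow_natCast,
      ← zpow_mul, ← zpow_mul, ← zpow_add]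
  inv_mem' := by
    rintro a ⟨k, hk, j, h1⟩
    exact ⟨k, hk, -j, by rw [inv_pow, h1, zpow_neg]⟩

lemma mem_pcl {x g : G} : g ∈ pcl x ↔ ∃ k : ℕ, 0 < k ∧ ∃ j : ℤ, g ^ k = x ^ j := Iff.rfl

lemma torsionFree_of (h : ∀ (g : G) (k : ℕ), 0 < k → g ^ k = 1 → g = 1) :
    IsMulTorsionFree G where
  pow_left_injective n hn a b hab := by
    have h1 : (a / b) ^ n = 1 := by
      rw [div_pow]
      exact div_eq_one.2 hab
    exact div_eq_one.1 (h _ n (Nat.pos_of_ne_zero hn) h1)

instance quot_tf (x : G) : IsMulTorsionFree (G ⧸ pcl x) := by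
  refine torsionFree_of fun g k hk h => ?_
  obtain ⟨g, rfl⟩ := QuotientGroup.mk_surjective g
  rw [← QuotientGroup.mk_pow, QuotientGroup.eq_one_iff] at h
  rw [QuotientGroup.eq_one_iff]
  obtain ⟨l, hl, j, h1⟩ := mem_pcl.1 h
  exact mem_pcl.2 ⟨k * l, Nat.mul_pos hk hl, j, by rw [pow_mul, h1]⟩

instance quot_tup [Group.FG G] (x : G) : TwoUniqueProds (G ⧸ pcl x) := inferInstance

lemma nat_tup : TwoUniqueProds (Multiplicative ℕ) := inferInstance

end Tor

end Pool.Agent.Lib.MP_5893d7_nt.Af
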