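import Pool.Agent.Lib.MP_5893d7_nt.Af.Seq
import Pool.Agent.Lib.MP_5893d7_nt.Af.Grd

/-!
MP_5893d7_nt, factorisations by linear recurrences: the factors of `c1 x ^ n + c2 x ^ (-n)` over a
torsion free finitely generated group of roots.
-/

set_option autoImplicit false

namespace Pool.Agent.Lib.MP_5893d7_nt.Af

open Polynomial Finset

variable {K : Type*} [Field K]

/-- the monoid of the terms `n ^ i g ^ n` -/
abbrev Mn (G : Subgroup Kˣ) : Type _ := Multiplicative ℕ × G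

/-- the value of a term at `n` -/
noncomputable def chi (G : Subgroup Kˣ) (n : ℕ) : Mn G →* K where
  toFun m := (n : K) ^ (Multiplicative.toAdd m.1) * ((m.2 : Kˣ) : K) ^ n
  map_one' := by simp
  map_mul' a b := by
    simp only [Prod.fst_mul, Prod.snd_mul, toAdd_mul, Subgroup.coe_mul, Units.val_mul, pow_add,
      mul_pow]
    ring

/-- the value at `n` -/
noncomputable def ev (G : Subgroup Kˣ) (n : ℕ) : MonoidAlgebra K (Mn G) →ₐ[K] K :=
  MonoidAlgebra.lift K K (Mn G) (chi G n)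

lemma ev_single (G : Subgroup Kˣ) (n : ℕ) (m : Mn G) (c : K) :
    ev G n (MonoidAlgebra.single m c)
      = c * ((n : K) ^ (Multiplicative.toAdd m.1) * ((m.2 : Kˣ) : K) ^ n) := by
  unfold ev
  rw [MonoidAlgebra.lift_single, smul_eq_mul]
  rfl

lemma ev_eq (G : Subgroup Kˣ) (n : ℕ) (x : MonoidAlgebra K (Mn G)) :
    ev G n x = ∑ m ∈ x.coeff.support,
      x.coeff m * ((n : K) ^ (Multiplicative.toAdd m.1) * ((m.2 : Kˣ) : K) ^ n) := by
  unfold ev
  rw [MonoidAlgebra.lift_apply]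
  rfl

/-- the values determine the element -/
theorem ev_inj [CharZero K] (G : Subgroup Kˣ) (x : MonoidAlgebra K (Mn G))
    (h : ∀ n : ℕ, ev G n x = 0) : x = 0 := by
  classical
  set s : Finset Kˣ := x.coeff.support.image fun m => (m.2 : Kˣ) with hs
  set p : Kˣ → K[X] := fun g => ∑ m ∈ x.coeff.support.filter (fun m => (m.2 : Kˣ) = g),
    C (x.coeff m) * X ^ (Multiplicative.toAdd m.1) with hp
  have h1 : ∀ n : ℕ, ∑ g ∈ s, (p g).eval (n : K) * (g : K) ^ n = 0 := by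
    intro n
    rw [← h n, ev_eq, ← sum_fiberwise_of_maps_to (g := fun m : Mn G => (m.2 : Kˣ)) (t := s)
      (fun m hm => mem_image_of_mem _ hm)]
    refine sum_congr rfl fun g _ => ?_
    rw [hp]
    simp only
    rw [eval_finsetSum, sum_mul]
    refine sum_congr rfl fun m hm => ?_
    rw [(mem_filter.1 hm).2]
    simp only [eval_mul, eval_C, eval_pow, eval_X]
    ring
  have h2 := rep_unique s p h1
  ext m
  show x.coeff m = 0
  by_contra h3
  have hm : m ∈ x.coeff.support := Finsupp.mem_support_iff.2 h3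
  have h4 := h2 (m.2 : Kˣ) (mem_image_of_mem _ hm)
  have h5 := congrArg (fun q : K[X] => q.coeff (Multiplicative.toAdd m.1)) h4
  simp only [hp, finsetSum_coeff, coeff_C_mul, coeff_X_pow, coeff_zero] at h5
  have hmem : m ∈ x.coeff.support.filter (fun m' => (m'.2 : Kˣ) = m.2) :=
    mem_filter.2 ⟨hm, rfl⟩
  rw [sum_eq_single_of_mem m hmem] at h5
  · simp only [if_true, mul_one] at h5
    exact h3 h5
  · intro b hb hbm
    rw [if_neg, mul_zero]
    intro h6
    apply hbm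
    refine Prod.ext (Multiplicative.toAdd.injective h6.symm) (Subtype.ext (mem_filter.1 hb).2)

/-- the element of given polynomials -/
noncomputable def el (G : Subgroup Kˣ) (s : Finset G) (p : Kˣ → K[X]) : MonoidAlgebra K (Mn G) :=
  ∑ g ∈ s, ∑ i ∈ (p g).support,
    MonoidAlgebra.single (Multiplicative.ofAdd i, g) ((p g).coeff i)

lemma ev_el (G : Subgroup Kˣ) (s : Finset G) (p : Kˣ → K[X]) (n : ℕ) :
    ev G n (el G s p) = ∑ g ∈ s, (p g).eval (n : K) * ((g : Kˣ) : K) ^ n := by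
  unfold el
  rw [map_sum]
  refine sum_congr rfl fun g _ => ?_
  rw [map_sum, eval_eq_sum, Polynomial.sum, sum_mul]
  refine sum_congr rfl fun i _ => ?_
  rw [ev_single]
  simp only [toAdd_ofAdd]
  ring

lemma el_coeff (G : Subgroup Kˣ) (s : Finset G) (p : Kˣ → K[X]) (i : ℕ) (g : G) (hg : g ∈ s) :
    (el G s p).coeff (Multiplicative.ofAdd i, g) = (p g).coeff i := by
  classical
  unfold el
  simp only [MonoidAlgebra.coeff_sum, Finsupp.finsetSum_apply, MonoidAlgebra.coeff_single,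
    Finsupp.single_apply, Prod.mk.injEq, EmbeddingLike.apply_eq_iff_eq]
  rw [sum_eq_single_of_mem g hg]
  · simp only [and_true, sum_ite_eq', mem_support_iff]
    by_cases h : (p g).coeff i = 0 <;> simp [h]
  · intro b _ hb
    refine sum_eq_zero fun j _ => if_neg fun h => hb h.2

/-- **the factors of `c1 x ^ n + c2 x ^ (-n)`** -/
theorem factors [CharZero K] (G : Subgroup Kˣ) [Group.FG G]
    (htf : ∀ (g : G) (k : ℕ), 0 < k → g ^ k = 1 → g = 1) (x : G) (hx : x ≠ x⁻¹) (c1 c2 : K)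
    (hc1 : c1 ≠ 0) (s t : Finset Kˣ) (p q : Kˣ → K[X]) (hs : ∀ g ∈ s, g ∈ G)
    (ht : ∀ g ∈ t, g ∈ G) (u v : ℕ → K)
    (hu : ∀ n, u n = ∑ g ∈ s, (p g).eval (n : K) * (g : K) ^ n)
    (hv : ∀ n, v n = ∑ g ∈ t, (q g).eval (n : K) * (g : K) ^ n)
    (h : ∀ n : ℕ, u n * v n = c1 * ((x : Kˣ) : K) ^ n + c2 * (((x : Kˣ)⁻¹ : Kˣ) : K) ^ n) :
    ∃ (S T : Finset Kˣ) (a b : Kˣ → K), S.Nonempty ∧ T.Nonempty ∧ (∀ g ∈ S, g ∈ G) ∧
      (∀ g ∈ T, g ∈ G) ∧ (∀ g ∈ S, a g ≠ 0) ∧ (∀ g ∈ T, b g ≠ 0) ∧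
      (∀ n, u n = ∑ g ∈ S, a g * (g : K) ^ n) ∧ (∀ n, v n = ∑ g ∈ T, b g * (g : K) ^ n) ∧
      (∀ g ∈ S, ∀ g' ∈ S, ∃ k : ℕ, 0 < k ∧ ∃ j : ℤ, (g / g') ^ k = (x : Kˣ) ^ j) ∧
      (∀ g ∈ T, ∀ g' ∈ T, ∃ k : ℕ, 0 < k ∧ ∃ j : ℤ, (g / g') ^ k = (x : Kˣ) ^ j) ∧
      ∀ g ∈ S, ∀ g' ∈ T, ∃ k : ℕ, 0 < k ∧ ∃ j : ℤ, (g * g') ^ k = (x : Kˣ) ^ j := by
  classical
  have := torsionFree_of htf
  set U := el G (s.subtype (· ∈ G)) p with hU
  set V := el G (t.subtype (· ∈ G)) q with hV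
  set z : MonoidAlgebra K (Mn G) := MonoidAlgebra.single (1, x) c1
    + MonoidAlgebra.single (1, x⁻¹) c2 with hz
  have hevU : ∀ n, ev G n U = u n := by
    intro n
    rw [hU, ev_el, hu n]
    exact sum_subtype_of_mem (fun g : Kˣ => (p g).eval (n : K) * (g : K) ^ n) hs
  have hevV : ∀ n, ev G n V = v n := by
    intro n
    rw [hV, ev_el, hv n]
    exact sum_subtype_of_mem (fun g : Kˣ => (q g).eval (n : K) * (g : K) ^ n) ht
  have hUV : U * V = z := by
    have h1 : U * V - z = 0 := by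
      refine ev_inj G _ fun n => ?_
      rw [map_sub, map_mul, hevU, hevV, h n, hz, map_add, ev_single, ev_single]
      simp
    exact sub_eq_zero.1 h1
  have hzx : z.coeff (1, x) = c1 := by
    rw [hz, MonoidAlgebra.coeff_add, Finsupp.add_apply, MonoidAlgebra.coeff_single,
      MonoidAlgebra.coeff_single, Finsupp.single_apply, Finsupp.single_apply, if_pos rfl, if_neg,
      add_zero]
    intro h1
    exact hx (Prod.ext_iff.1 h1).2.symm
  have hz0 : z ≠ 0 := by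
    intro h1
    rw [h1] at hzx
    exact hc1 hzx.symm
  set π : Mn G →* Multiplicative ℕ × (G ⧸ pcl x) :=
    MonoidHom.prodMap (MonoidHom.id _) (QuotientGroup.mk' (pcl x)) with hπ
  have hxp : (QuotientGroup.mk' (pcl x)) x = 1 := by
    rw [QuotientGroup.mk'_apply, QuotientGroup.eq_one_iff]
    exact mem_pcl.2 ⟨1, one_pos, 1, by simp⟩
  have hxz : ∀ m ∈ z.coeff.support, π m = 1 := by
    intro m hm
    rw [hz, MonoidAlgebra.coeff_add] at hm
    have h1 := Finsupp.support_add hm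
    rw [mem_union] at h1
    rcases h1 with h1 | h1
    · have h2 := Finsupp.support_single_subset (by
        rw [MonoidAlgebra.coeff_single] at h1
        exact h1)
      rw [mem_singleton] at h2
      rw [h2, hπ, MonoidHom.prodMap_def, MonoidHom.prod_apply]
      simp only [MonoidHom.comp_apply, MonoidHom.coe_fst, MonoidHom.coe_snd, map_one]
      rw [hxp]
      rfl
    · have h2 := Finsupp.support_single_subset (by
        rw [MonoidAlgebra.coeff_single] at h1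
        exact h1)
      rw [mem_singleton] at h2
      rw [h2, hπ, MonoidHom.prodMap_def, MonoidHom.prod_apply]
      simp only [MonoidHom.comp_apply, MonoidHom.coe_fst, MonoidHom.coe_snd, map_one, map_inv]
      rw [hxp, inv_one]
      rfl
  have := nat_tup
  obtain ⟨q1, q2, h1, h2, h3⟩ := graded π U V z hz0 hUV 1 hxz
  have hq1 : q1.1 = 1 ∧ q2.1 = 1 := by
    have h4 := congrArg (fun q => Multiplicative.toAdd q.1) h3
    simp only [Prod.fst_mul, toAdd_mul, Prod.fst_one, toAdd_one] at h4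
    have h5 : Multiplicative.toAdd q1.1 = 0 ∧ Multiplicative.toAdd q2.1 = 0 := by omega
    exact ⟨Multiplicative.toAdd.injective h5.1, Multiplicative.toAdd.injective h5.2⟩
  -- the general part for one factor
  have gen : ∀ (s : Finset Kˣ) (p : Kˣ → K[X]) (u : ℕ → K) (hs : ∀ g ∈ s, g ∈ G)
      (hu : ∀ n, u n = ∑ g ∈ s, (p g).eval (n : K) * (g : K) ^ n)
      (q1 : Multiplicative ℕ × (G ⧸ pcl x)) (hq : q1.1 = 1)
      (h1 : ∀ m ∈ (el G (s.subtype (· ∈ G)) p).coeff.support, π m = q1)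
      (hne : el G (s.subtype (· ∈ G)) p ≠ 0),
      ∃ (S : Finset Kˣ) (a : Kˣ → K), S.Nonempty ∧ (∀ g ∈ S, g ∈ G) ∧ (∀ g ∈ S, a g ≠ 0) ∧
        (∀ n, u n = ∑ g ∈ S, a g * (g : K) ^ n) ∧
        ∀ (g : G), (g : Kˣ) ∈ S → QuotientGroup.mk' (pcl x) g = q1.2 := by
    intro s p u hs hu q1 hq h1 hne
    have hc : ∀ g ∈ s, ∀ i, (p g).coeff i ≠ 0 →
        i = 0 ∧ ∀ hg : g ∈ G, QuotientGroup.mk' (pcl x) ⟨g, hg⟩ = q1.2 := by
      intro g hg i hi
      have hgs : (⟨g, hs g hg⟩ : G) ∈ s.subtype (· ∈ G) := by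
        rw [mem_subtype]
        exact hg
      have h4 := el_coeff G (s.subtype (· ∈ G)) p i ⟨g, hs g hg⟩ hgs
      have h5 := h1 (Multiplicative.ofAdd i, ⟨g, hs g hg⟩) (by
        rw [Finsupp.mem_support_iff, h4]
        exact hi)
      have h6 := congrArg Prod.fst h5
      have h7 := congrArg Prod.snd h5
      rw [hq] at h6
      refine ⟨?_, fun _ => h7⟩
      exact Multiplicative.ofAdd.injective h6
    have hpc : ∀ g ∈ s, p g = C ((p g).coeff 0) := by
      intro g hg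
      ext i
      rw [coeff_C]
      split_ifs with h4
      · rw [h4]
      · by_contra h5
        exact h4 (hc g hg i h5).1
    refine ⟨s.filter fun g => (p g).coeff 0 ≠ 0, fun g => (p g).coeff 0, ?_, ?_, ?_, ?_, ?_⟩
    · by_contra h4
      apply hne
      rw [not_nonempty_iff_eq_empty] at h4
      unfold el
      refine sum_eq_zero fun g hg => ?_
      rw [mem_subtype] at hg
      have h5 : (p g).coeff 0 = 0 := by
        by_contra h6
        have h7 : (g : Kˣ) ∈ s.filter fun g => (p g).coeff 0 ≠ 0 := mem_filter.2 ⟨hg, h6⟩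
        rw [h4] at h7
        simp at h7
      have h6 : p g = 0 := by rw [hpc g hg, h5, C_0]
      rw [h6]
      simp
    · intro g hg
      exact hs g (mem_filter.1 hg).1
    · intro g hg
      exact (mem_filter.1 hg).2
    · intro n
      rw [hu n, sum_filter]
      refine sum_congr rfl fun g hg => ?_
      rw [hpc g hg, eval_C]
      simp only [coeff_C_zero]
      split_ifs with h4
      · rfl
      · rw [not_not] at h4
        rw [h4, zero_mul]
    · intro g hg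
      exact (hc g (mem_filter.1 hg).1 0 (mem_filter.1 hg).2).2 g.2
  have hU0 : U ≠ 0 := by
    intro h4
    rw [h4, zero_mul] at hUV
    exact hz0 hUV.symm
  have hV0 : V ≠ 0 := by
    intro h4
    rw [h4, mul_zero] at hUV
    exact hz0 hUV.symm
  obtain ⟨S, a, hS1, hS2, hS3, hS4, hS5⟩ := gen s p u hs hu q1 hq1.1 h1 hU0
  obtain ⟨T, b, hT1, hT2, hT3, hT4, hT5⟩ := gen t q v ht hv q2 hq1.2 h2 hV0
  have conv : ∀ g : G, QuotientGroup.mk' (pcl x) g = 1 →
      ∃ k : ℕ, 0 < k ∧ ∃ j : ℤ, (g : Kˣ) ^ k = (x : Kˣ) ^ j := by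
    intro g hg
    rw [QuotientGroup.mk'_apply, QuotientGroup.eq_one_iff] at hg
    obtain ⟨k, hk, j, h4⟩ := mem_pcl.1 hg
    exact ⟨k, hk, j, by
      have h5 := congrArg (fun y : G => (y : Kˣ)) h4
      simpa using h5⟩
  refine ⟨S, T, a, b, hS1, hT1, hS2, hT2, hS3, hT3, hS4, hT4, ?_, ?_, ?_⟩
  · intro g hg g' hg'
    refine conv (⟨g, hS2 g hg⟩ / ⟨g', hS2 g' hg'⟩) ?_
    rw [_root_.map_div, hS5 ⟨g, hS2 g hg⟩ hg, hS5 ⟨g', hS2 g' hg'⟩ hg', div_self']
  · intro g hg g' hg'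
    refine conv (⟨g, hT2 g hg⟩ / ⟨g', hT2 g' hg'⟩) ?_
    rw [_root_.map_div, hT5 ⟨g, hT2 g hg⟩ hg, hT5 ⟨g', hT2 g' hg'⟩ hg', div_self']
  · intro g hg g' hg'
    refine conv (⟨g, hS2 g hg⟩ * ⟨g', hT2 g' hg'⟩) ?_
    rw [map_mul, hS5 ⟨g, hS2 g hg⟩ hg, hT5 ⟨g', hT2 g' hg'⟩ hg']
    exact congrArg Prod.snd h3

end Pool.Agent.Lib.MP_5893d7_nt.Af
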