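import Pool.Agent.Lib.MP_5893d7_nt.Af.Fld
import Pool.Agent.Lib.MP_5893d7_nt.Af.Str

/-!
MP_5893d7_nt, factorisations by linear recurrences: the Galois group acts on the roots of a rational
valued sequence; the roots of the factors lie in the quadratic field.
-/

set_option autoImplicit false
set_option linter.unusedSectionVars false

namespace Pool.Agent.Lib.MP_5893d7_nt.Af

open Polynomial Finset IntermediateField

variable {Kb : Type} [Field Kb] [CharZero Kb] [Algebra ℚ Kb] [IsAlgClosure ℚ Kb]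
  {α : Kb} {ι : Kb →+* ℂ}

/-- the action on units -/
noncomputable def su (σ : Kb ≃ₐ[ℚ] Kb) : Kbˣ →* Kbˣ := Units.map (σ : Kb →* Kb)

lemma su_val (σ : Kb ≃ₐ[ℚ] Kb) (g : Kbˣ) : ((su σ g : Kbˣ) : Kb) = σ g := rfl

lemma su_symm (σ : Kb ≃ₐ[ℚ] Kb) (g : Kbˣ) : su σ.symm (su σ g) = g := by
  ext
  rw [su_val, su_val]
  exact σ.symm_apply_apply _

lemma su_inj (σ : Kb ≃ₐ[ℚ] Kb) : Function.Injective (su σ) := by
  intro g g' h
  rw [← su_symm σ g, h, su_symm]

/-- **the roots of a rational valued sequence are permuted** -/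
theorem stable (S : Finset Kbˣ) (a : Kbˣ → Kb) (ha : ∀ g ∈ S, a g ≠ 0) (u : ℕ → ℚ)
    (hu : ∀ n, (u n : Kb) = ∑ g ∈ S, a g * (g : Kb) ^ n) (σ : Kb ≃ₐ[ℚ] Kb) (g : Kbˣ)
    (hg : g ∈ S) : su σ g ∈ S ∧ a (su σ g) = σ (a g) := by
  classical
  set S' := S.image (su σ) with hS'
  set p : Kbˣ → Kb[X] := fun g => C ((if g ∈ S then a g else 0)
    - (if g ∈ S' then σ (a (su σ.symm g)) else 0)) with hp
  have h1 : ∀ n : ℕ, ∑ g ∈ S ∪ S', (p g).eval (n : Kb) * (g : Kb) ^ n = 0 := by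
    intro n
    simp only [hp, eval_C, sub_mul, sum_sub_distrib, ite_mul, zero_mul]
    rw [← sum_filter, ← sum_filter]
    have h2 : (S ∪ S').filter (fun g => g ∈ S) = S := by
      ext g
      simp only [mem_filter, mem_union]
      tauto
    have h3 : (S ∪ S').filter (fun g => g ∈ S') = S' := by
      ext g
      simp only [mem_filter, mem_union]
      tauto
    rw [h2, h3, ← hu n, hS', sum_image (fun _ _ _ _ h => su_inj σ h)]
    have h4 := congrArg σ (hu n)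
    rw [map_ratCast, map_sum] at h4
    rw [sub_eq_zero, h4]
    refine sum_congr rfl fun g _ => ?_
    rw [map_mul, map_pow, su_symm, su_val]
  have h2 := rep_unique (S ∪ S') p h1 (su σ g) (mem_union_right _ (mem_image_of_mem _ hg))
  rw [hp] at h2
  simp only at h2
  rw [if_pos (mem_image_of_mem (su σ) hg), su_symm, ← C_0] at h2
  have h3 := C_injective h2
  have h4 : σ (a g) ≠ 0 := by
    intro h5
    exact ha g hg (by simpa using h5)
  by_cases h5 : su σ g ∈ S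
  · rw [if_pos h5] at h3
    exact ⟨h5, sub_eq_zero.1 h3⟩
  · rw [if_neg h5, zero_sub, neg_eq_zero] at h3
    exact absurd h3 h4

/-- **the roots are fixed** -/
theorem fixed_roots {G : Subgroup Kbˣ} (htf : ∀ g ∈ G, ∀ k : ℕ, 0 < k → g ^ k = 1 → g = 1)
    {S : Finset Kbˣ} (hS : ∀ g ∈ S, g ∈ G) {σ : Kb ≃ₐ[ℚ] Kb} (hσ : ∀ g ∈ S, su σ g ∈ S)
    {x : Kbˣ} (hx : su σ x = x)
    (hr : ∀ g ∈ S, ∀ g' ∈ S, ∃ k : ℕ, 0 < k ∧ ∃ j : ℤ, (g / g') ^ k = x ^ j) :
    ∀ g ∈ S, su σ g = g := by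
  classical
  intro g0 hg0
  set l : Kbˣ := su σ g0 / g0 with hl
  have h1 : ∀ g ∈ S, su σ g = l * g := by
    intro g hg
    obtain ⟨k, hk, j, h2⟩ := hr g hg g0 hg0
    have h3 : (su σ (g / g0) / (g / g0)) ^ k = 1 := by
      rw [div_pow, ← map_pow, h2, map_zpow, hx, div_self']
    have h4 : su σ (g / g0) / (g / g0) = 1 := by
      refine htf _ ?_ k hk h3
      rw [_root_.map_div]
      exact div_mem (div_mem (hS _ (hσ g hg)) (hS _ (hσ g0 hg0)))
        (div_mem (hS g hg) (hS g0 hg0))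
    rw [div_eq_one, _root_.map_div, div_eq_div_iff_mul_eq_mul] at h4
    rw [hl, div_mul_eq_mul_div, eq_div_iff_mul_eq', h4, mul_comm g]
  have h2 : S.image (su σ) = S := by
    refine eq_of_subset_of_card_le (fun y hy => ?_) ?_
    · obtain ⟨g, hg, rfl⟩ := mem_image.1 hy
      exact hσ g hg
    · rw [card_image_of_injective _ (su_inj σ)]
  have h3 : ∏ g ∈ S, su σ g = ∏ g ∈ S, g := by
    conv_rhs => rw [← h2]
    rw [prod_image (fun _ _ _ _ h => su_inj σ h)]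
  rw [prod_congr rfl h1, prod_mul_distrib, prod_const, mul_eq_right] at h3
  have h4 : l = 1 := by
    refine htf l ?_ _ (card_pos.2 ⟨g0, hg0⟩) h3
    rw [hl]
    exact div_mem (hS _ (hσ g0 hg0)) (hS g0 hg0)
  rw [h1 g0 hg0, h4, one_mul]

/-- **normal form of the roots**: `g = ± α ^ (e g) g0` -/
theorem normal_form (h : Gold α ι) {S : Finset Kbˣ} (hne : S.Nonempty)
    (hF : ∀ g ∈ S, (g : Kb) ∈ ℚ⟮α⟯) {M : ℕ} {x : Kbˣ} (hx : (x : Kb) = α ^ M)
    (hr : ∀ g ∈ S, ∀ g' ∈ S, ∃ k : ℕ, 0 < k ∧ ∃ j : ℤ, (g / g') ^ k = x ^ j)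
    (htf : ∀ g ∈ S, ∀ g' ∈ S, (g / g') ^ 2 = 1 → g = g') :
    ∃ g0 ∈ S, ∃ e : Kbˣ → ℕ, (∀ g ∈ S, (g : Kb) = α ^ (e g) * g0 ∨ (g : Kb) = -(α ^ (e g) * g0)) ∧
      ∀ g ∈ S, ∀ g' ∈ S, e g = e g' → g = g' := by
  classical
  obtain ⟨g1, hg1⟩ := hne
  have h1 : ∀ g : Kbˣ, ∃ j : ℤ, g ∈ S → ((g : Kb) = α ^ j * g1 ∨ (g : Kb) = -(α ^ j * g1)) := by
    intro g
    by_cases hg : g ∈ S
    · obtain ⟨k, hk, j, h2⟩ := hr g hg g1 hg1
      have h3 : ((g : Kb) / g1) ^ k = α ^ ((M : ℤ) * j) := by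
        have h4 := congrArg (fun y : Kbˣ => (y : Kb)) h2
        simp only [Units.val_pow_eq_pow_val, Units.val_div_eq_div_val,
          Units.val_zpow_eq_zpow_val] at h4
        rw [h4, hx, zpow_mul, zpow_natCast]
      obtain ⟨j', h4⟩ := h.unit_lemma (div_mem (hF g hg) (hF g1 hg1)) hk (Or.inl h3)
      refine ⟨j', fun _ => ?_⟩
      rcases h4 with h4 | h4
      · left
        rw [← h4, div_mul_cancel₀ _ g1.ne_zero]
      · right
        rw [← neg_mul, ← h4, div_mul_cancel₀ _ g1.ne_zero]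
    · exact ⟨0, fun h2 => absurd h2 hg⟩
  choose j hj using h1
  obtain ⟨g0, hg0, hmin⟩ := exists_min_image S j ⟨g1, hg1⟩
  refine ⟨g0, hg0, fun g => (j g - j g0).toNat, fun g hg => ?_, fun g hg g' hg' he => ?_⟩
  · have h2 := hmin g hg
    have h3 : α ^ (j g - j g0).toNat = α ^ (j g) * (α ^ (j g0))⁻¹ := by
      rw [← zpow_natCast, Int.toNat_of_nonneg (by omega), zpow_sub₀ h.ne_zero, div_eq_mul_inv]
    have h4 : α ^ (j g0) ≠ 0 := zpow_ne_zero _ h.ne_zero
    simp only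
    rw [h3]
    rcases hj g hg with h5 | h5 <;> rcases hj g0 hg0 with h6 | h6
    · left
      rw [h5, h6]
      field_simp
    · right
      rw [h5, h6]
      field_simp
    · right
      rw [h5, h6]
      field_simp
    · left
      rw [h5, h6]
      field_simp
  · have h2 := hmin g hg
    have h3 := hmin g' hg'
    simp only at he
    have h4 : j g = j g' := by omega
    refine htf g hg g' hg' ?_
    ext
    simp only [Units.val_pow_eq_pow_val, Units.val_div_eq_div_val, Units.val_one]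
    have h7 : α ^ (j g') ≠ 0 := zpow_ne_zero _ h.ne_zero
    have h8 : (g1 : Kb) ≠ 0 := g1.ne_zero
    rcases hj g hg with h5 | h5 <;> rcases hj g' hg' with h6 | h6 <;>
      rw [h5, h6, h4] <;> field_simp

end Pool.Agent.Lib.MP_5893d7_nt.Af
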