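import Pool.Agent.Lib.MP_5893d7_nt.Af.Dw
import Pool.Agent.Lib.MP_5893d7_nt.Pr.Defs

/-!
MP_5893d7_nt, expressions P(n, U_n, U_(n+1)) at prime indices: passing from the values of R to
those of an integer polynomial in m = a n + b.
-/

set_option autoImplicit false

namespace Pool.Agent.Lib.MP_5893d7_nt.Af

open Polynomial Finset Filter

/-- relative density zero as a limit -/
lemma rare_tendsto {A : Set ℕ} (h : Pr.Rare A) :
    Tendsto (fun x : ℕ => (Set.ncard {p : ℕ | p ≤ x ∧ p.Prime ∧ p ∈ A} : ℝ)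
      / (Nat.primeCounting x : ℝ)) atTop (nhds 0) := by
  classical
  rw [Metric.tendsto_atTop]
  intro η hη
  obtain ⟨X, hX⟩ := h (η / 2) (by linarith)
  refine ⟨X, fun x hx => ?_⟩
  have hfin : {p : ℕ | p ≤ x ∧ p.Prime ∧ p ∈ A}.Finite :=
    (Set.finite_Iic x).subset fun p hp => hp.1
  have h1 := hX x hx hfin.toFinset fun p hp => by
    have h2 := (Set.Finite.mem_toFinset hfin).1 hp
    exact ⟨h2.2.1, h2.1, h2.2.2⟩
  rw [← Set.ncard_eq_toFinset_card _ hfin] at h1
  rw [dist_zero_right, Real.norm_eq_abs, abs_of_nonneg (by positivity)]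
  rcases Nat.eq_zero_or_pos (Nat.primeCounting x) with h2 | h2
  · rw [h2, Nat.cast_zero, div_zero]
    exact hη
  · have h3 : (0 : ℝ) < Nat.primeCounting x := by exact_mod_cast h2
    rw [div_lt_iff₀ h3]
    nlinarith

/-- the polynomial in `m = a n + b` -/
noncomputable def tr (R : ℤ[X]) (a b : ℕ) : ℤ[X] :=
  (R.scaleRoots (a : ℤ)).comp (X - C (b : ℤ))

lemma tr_eval (R : ℤ[X]) (a b n : ℕ) :
    (tr R a b).eval ((a * n + b : ℕ) : ℤ) = (a : ℤ) ^ R.natDegree * R.eval (n : ℤ) := by
  unfold tr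
  rw [eval_comp, eval_sub, eval_X, eval_C]
  have h1 : (((a * n + b : ℕ) : ℤ) - (b : ℤ)) = (a : ℤ) * n := by
    push_cast
    ring
  rw [h1]
  have := scaleRoots_eval₂_mul (p := R) (RingHom.id ℤ) (n : ℤ) (a : ℤ)
  simpa [eval₂_id] using this

lemma tr_ne_zero {R : ℤ[X]} (hR : R ≠ 0) {a : ℕ} (b : ℕ) : tr R a b ≠ 0 := by
  unfold tr
  intro h
  have h1 : (R.scaleRoots (a : ℤ)) = 0 := by
    have h2 := congrArg (fun p => p.comp (X + C (b : ℤ))) h
    simp only [comp_assoc, sub_comp, X_comp, C_comp, zero_comp, add_sub_cancel_right,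
      comp_X] at h2
    exact h2
  exact scaleRoots_ne_zero hR _ h1

/-- the irreducible factors have the same degrees -/
lemma tr_factor {R : ℤ[X]} (hR : R.IsPrimitive) {a b : ℕ} (ha : 0 < a)
    (h3 : ∀ g : ℤ[X], Irreducible g → g ∣ R → g.natDegree ≤ 3) :
    ∀ g : ℤ[X], Irreducible g → g ∣ tr R a b → g.natDegree ≤ 3 := by
  intro g hg hgd
  by_cases hd0 : g.natDegree = 0
  · omega
  have haZ : (a : ℤ) ≠ 0 := by exact_mod_cast ha.ne'
  have haQ : (a : ℚ) ≠ 0 := by exact_mod_cast ha.ne'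
  have hgp : g.IsPrimitive := hg.isPrimitive hd0
  have hgQ : Irreducible (g.map (Int.castRingHom ℚ)) :=
    (IsPrimitive.Int.irreducible_iff_irreducible_map_cast hgp).1 hg
  -- the polynomial `g (a X + b)`
  set u : ℤ[X] := g.comp (C (a : ℤ) * X + C (b : ℤ)) with hu
  have hlin : (C (a : ℤ) * X + C (b : ℤ) : ℤ[X]).natDegree = 1 := natDegree_linear haZ
  have hud : u.natDegree = g.natDegree := by
    rw [hu, natDegree_comp, hlin, mul_one]
  have hcomp : (tr R a b).comp (C (a : ℤ) * X + C (b : ℤ)) = C ((a : ℤ) ^ R.natDegree) * R := by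
    refine Polynomial.funext fun z => ?_
    unfold tr
    simp only [eval_comp, eval_sub, eval_X, eval_C, eval_add, eval_mul, add_sub_cancel_right]
    have := scaleRoots_eval₂_mul (p := R) (RingHom.id ℤ) z (a : ℤ)
    simpa [eval₂_id] using this
  have hudvd : u ∣ C ((a : ℤ) ^ R.natDegree) * R := by
    rw [← hcomp, hu]
    obtain ⟨v, hv⟩ := hgd
    rw [hv, mul_comp]
    exact Dvd.intro _ rfl
  have hu0 : u ≠ 0 := by
    intro h
    rw [h, natDegree_zero] at hud
    exact hd0 hud.symm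
  -- an irreducible factor of the primitive part
  set w : ℤ[X] := u.primPart with hw
  have hwp : w.IsPrimitive := u.isPrimitive_primPart
  have hwd : w.natDegree = g.natDegree := by rw [hw, u.natDegree_primPart, hud]
  have hwR : w ∣ R := by
    have h1 : w ∣ C ((a : ℤ) ^ R.natDegree) * R := u.primPart_dvd.trans hudvd
    have h2 : C ((a : ℤ) ^ R.natDegree) * R ≠ 0 :=
      mul_ne_zero (C_ne_zero.2 (pow_ne_zero _ haZ)) hR.ne_zero
    have h4 := (hwp.dvd_primPart_iff_dvd h2).2 h1
    rw [primPart_mul h2, hR.primPart_eq] at h4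
    have h5 : IsUnit (C ((a : ℤ) ^ R.natDegree) : ℤ[X]).primPart := isUnit_primPart_C _
    exact (h5.dvd_mul_left).1 h4
  have hwu : ¬ IsUnit w := by
    intro h
    have := natDegree_eq_zero_of_isUnit h
    omega
  obtain ⟨h, hh, hhw⟩ := WfDvdMonoid.exists_irreducible_factor hwu hwp.ne_zero
  have hh3 := h3 h hh (hhw.trans hwR)
  have hhd : h.natDegree ≠ 0 := by
    intro h0
    have h1 := eq_C_of_natDegree_eq_zero h0
    have h2 : IsUnit (h.coeff 0) := by
      rw [h1] at hhw
      exact (isPrimitive_iff_isUnit_of_C_dvd.1 hwp) _ hhw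
    apply hh.not_isUnit
    rw [h1]
    exact h2.map C
  -- over the rationals
  set l : ℚ[X] := C ((a : ℚ)⁻¹) * X - C ((b : ℚ) / a) with hl
  have hld : l.natDegree = 1 := by
    rw [hl, sub_eq_add_neg, ← C_neg]
    exact natDegree_linear (inv_ne_zero haQ)
  have hul : (u.map (Int.castRingHom ℚ)).comp l = g.map (Int.castRingHom ℚ) := by
    rw [hu, Polynomial.map_comp, comp_assoc]
    have h1 : ((C (a : ℤ) * X + C (b : ℤ) : ℤ[X]).map (Int.castRingHom ℚ)).comp l = X := by
      rw [hl]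
      refine Polynomial.funext fun z => ?_
      simp only [Polynomial.map_add, Polynomial.map_mul, map_C, map_X, eval_comp, eval_add,
        eval_mul, eval_C, eval_X, eval_sub]
      simp only [Int.coe_castRingHom, Int.cast_natCast]
      field_simp
      ring
    rw [h1, comp_X]
  have hdvd : (h.map (Int.castRingHom ℚ)).comp l ∣ g.map (Int.castRingHom ℚ) := by
    rw [← hul]
    obtain ⟨v, hv⟩ := hhw.trans u.primPart_dvd
    rw [hv, Polynomial.map_mul, mul_comp]
    exact Dvd.intro _ rfl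
  have hdeg1 : ((h.map (Int.castRingHom ℚ)).comp l).natDegree = h.natDegree := by
    rw [natDegree_comp, hld, mul_one, natDegree_map_eq_of_injective]
    exact Int.cast_injective
  have hnu : ¬ IsUnit ((h.map (Int.castRingHom ℚ)).comp l) := by
    intro h1
    have := natDegree_eq_zero_of_isUnit h1
    omega
  have hass : Associated ((h.map (Int.castRingHom ℚ)).comp l) (g.map (Int.castRingHom ℚ)) :=
    (hgQ.dvd_iff.1 hdvd).resolve_left hnu |>.symm
  have hdeg2 := natDegree_eq_of_degree_eq (degree_eq_degree_of_associated hass)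
  rw [hdeg1, natDegree_map_eq_of_injective (f := Int.castRingHom ℚ) Int.cast_injective] at hdeg2
  omega

end Pool.Agent.Lib.MP_5893d7_nt.Af
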