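import Mathlib

/-!
MP_5893d7_nt, zeros of linear recurrences: the elementary p-adic lemma (Hansel).
-/

set_option autoImplicit false

namespace Pool.Agent.Lib.MP_5893d7_nt.Af

open Polynomial Finset

/-- factorials are small p-adically -/
lemma exists_coef (p : ℕ) [hp : Fact p.Prime] (j : ℕ) :
    ∃ c : ℤ_[p], c * (j.factorial : ℤ_[p]) = (p : ℤ_[p]) ^ (2 * j) ∧ (p : ℤ_[p]) ^ j ∣ c := by
  obtain ⟨w, hw⟩ : p ^ padicValNat p j.factorial ∣ j.factorial := pow_padicValNat_dvd
  set v := padicValNat p j.factorial with hv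
  have hj0 : j.factorial ≠ 0 := j.factorial_ne_zero
  have hwp : ¬ p ∣ w := by
    rintro ⟨t, rfl⟩
    have h1 : p ^ (v + 1) ∣ j.factorial := ⟨t, by rw [hw]; ring⟩
    exact pow_succ_padicValNat_not_dvd hj0 h1
  have hvj : v ≤ j := by
    have h1 := sub_one_mul_padicValNat_factorial (p := p) j
    have h2 := hp.out.two_le
    rw [← hv] at h1
    calc v = 1 * v := (one_mul v).symm
      _ ≤ (p - 1) * v := Nat.mul_le_mul_right v (by omega)
      _ ≤ j := by rw [h1]; exact Nat.sub_le _ _
  have hu : IsUnit (w : ℤ_[p]) := by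
    rw [PadicInt.isUnit_iff, PadicInt.norm_natCast_eq_one_iff]
    exact (Nat.Prime.coprime_iff_not_dvd hp.out).2 hwp
  obtain ⟨u, hu⟩ := hu
  refine ⟨(p : ℤ_[p]) ^ (2 * j - v) * (u⁻¹ : ℤ_[p]ˣ), ?_, ?_⟩
  · have h1 : 2 * j = (2 * j - v) + v := by omega
    rw [hw]
    push_cast
    rw [← hu]
    calc (p : ℤ_[p]) ^ (2 * j - v) * (u⁻¹ : ℤ_[p]ˣ) * (p ^ v * u)
        = (p : ℤ_[p]) ^ (2 * j - v) * p ^ v * ((u⁻¹ : ℤ_[p]ˣ) * u) := by ring
      _ = (p : ℤ_[p]) ^ (2 * j) := by rw [Units.inv_mul, mul_one, ← pow_add, ← h1]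
  · exact (pow_dvd_pow _ (by omega)).mul_right _

/-- a p-adically analytic integer sequence with infinitely many zeros vanishes -/
theorem hansel (p : ℕ) [hp : Fact p.Prime] (d : ℕ → ℤ) (f : ℕ → ℤ)
    (hf : ∀ k, f k = ∑ j ∈ range (k + 1), (k.choose j : ℤ) * ((p : ℤ) ^ (2 * j) * d j))
    (hinf : {k | f k = 0}.Infinite) : ∀ k, f k = 0 := by
  classical
  choose c hc1 hc2 using exists_coef p
  intro t
  have key : ∀ s : ℕ, ((p : ℤ) ^ s) ∣ f t := by
    intro s
    obtain ⟨Z, hZ, hZs⟩ := hinf.exists_subset_card_eq s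
    set n : ℕ := t + Z.sup id with hn
    set R : ℤ_[p][X] := ∑ j ∈ range (n + 1), C (c j * (d j : ℤ_[p])) * descPochhammer ℤ_[p] j
      with hR
    have hev : ∀ k ≤ n, R.eval (k : ℤ_[p]) = (f k : ℤ_[p]) := by
      intro k hk
      rw [hR, eval_finsetSum, hf k]
      push_cast
      rw [← sum_subset (s₁ := range (k + 1)) (range_subset_range.2 (by omega))]
      · refine sum_congr rfl fun j _ => ?_
        rw [eval_mul, eval_C, descPochhammer_eval_eq_descFactorial,
          Nat.descFactorial_eq_factorial_mul_choose, ← hc1 j]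
        push_cast
        ring
      · intro j _ hj
        rw [eval_mul, descPochhammer_eval_eq_descFactorial, Nat.descFactorial_of_lt]
        · simp
        · simpa [mem_range, Nat.lt_succ_iff] using hj
    have hcast : Function.Injective (fun z : ℕ => (z : ℤ_[p])) := Nat.cast_injective
    set Z' : Finset ℤ_[p] := Z.image (fun z : ℕ => (z : ℤ_[p])) with hZ'
    have hcard : Z'.card = s := by rw [hZ', card_image_of_injective _ hcast, hZs]
    have hroot : ∀ z ∈ Z', R.eval z = 0 := by
      intro z hz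
      obtain ⟨k, hk, rfl⟩ := mem_image.1 hz
      have h1 : k ≤ Z.sup id := le_sup (f := id) hk
      have h2 : f k = 0 := hZ hk
      rw [hev k (by omega), h2, Int.cast_zero]
    set D : ℤ_[p][X] := (Z'.val.map fun z => X - C z).prod with hD
    have hDm : D.Monic := monic_multiset_prod_of_monic _ _ fun z _ => monic_X_sub_C z
    have hDd : D.natDegree = s := by
      rw [hD, natDegree_multiset_prod_X_sub_C_eq_card]
      exact hcard
    have hdvd : D ∣ R := by
      by_cases hR0 : R = 0
      · rw [hR0]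
        exact dvd_zero _
      · rw [hD, Multiset.prod_X_sub_C_dvd_iff_le_roots hR0, Multiset.le_iff_subset Z'.nodup]
        intro z hz
        rw [mem_roots hR0]
        exact hroot z hz
    set π := PadicInt.toZModPow (p := p) s with hπ
    have hdvd' : D.map π ∣ R.map π := Polynomial.map_dvd π hdvd
    have hπp : π ((p : ℤ_[p]) ^ s) = 0 := by
      rw [← RingHom.mem_ker, hπ, PadicInt.ker_toZModPow]
      exact Ideal.mem_span_singleton_self _
    have hπc : ∀ j, s ≤ j → π (c j) = 0 := by
      intro j hj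
      obtain ⟨y, hy⟩ := (pow_dvd_pow (p : ℤ_[p]) hj).trans (hc2 j)
      rw [hy, map_mul, hπp, zero_mul]
    by_cases hs : s = 0
    · rw [hs, pow_zero]
      exact one_dvd _
    have : Nontrivial (ZMod (p ^ s)) := by
      have h1 : 1 < p ^ s := Nat.one_lt_pow hs hp.out.one_lt
      have : Fact (1 < p ^ s) := ⟨h1⟩
      exact ZMod.nontrivial _
    have hdeg : (R.map π).degree < (D.map π).degree := by
      rw [degree_eq_natDegree (hDm.map π).ne_zero, hDm.natDegree_map, hDd, hR,
        Polynomial.map_sum]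
      refine (degree_sum_le _ _).trans_lt ((Finset.sup_lt_iff ?_).2 fun j _ => ?_)
      · exact WithBot.bot_lt_coe _
      · rw [Polynomial.map_mul, map_C, map_mul]
        rcases le_or_gt s j with hj | hj
        · rw [hπc j hj, zero_mul, C_0, zero_mul, degree_zero]
          exact WithBot.bot_lt_coe _
        · refine (degree_mul_le _ _).trans_lt ?_
          have h1 : (C (π (c j) * π (d j : ℤ_[p]))).degree ≤ 0 := degree_C_le
          have h2 : ((descPochhammer ℤ_[p] j).map π).degree ≤ (j : ℕ) := by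
            refine degree_map_le.trans ?_
            refine degree_le_natDegree.trans ?_
            rw [descPochhammer_natDegree]
          calc _ ≤ (0 : WithBot ℕ) + (j : ℕ) := add_le_add h1 h2
            _ = (j : ℕ) := zero_add _
            _ < (s : ℕ) := by exact_mod_cast hj
    have hR0 : R.map π = 0 := by
      by_contra h1
      exact (hDm.map π).not_dvd_of_degree_lt h1 hdeg hdvd'
    have h1 : π (R.eval (t : ℤ_[p])) = 0 := by
      rw [← eval_map_apply, hR0, eval_zero]
    rw [hev t (by omega), map_intCast, ZMod.intCast_zmod_eq_zero_iff_dvd] at h1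
    exact_mod_cast h1
  by_contra h0
  have h1 := key (f t).natAbs
  have h2 := Int.le_of_dvd (abs_pos.2 h0) ((dvd_abs _ _).2 h1)
  have h3 : (f t).natAbs < p ^ (f t).natAbs := Nat.lt_pow_self hp.out.one_lt
  have h4 : |f t| = ((f t).natAbs : ℤ) := Int.abs_eq_natAbs _
  rw [h4] at h2
  have h5 : p ^ (f t).natAbs ≤ (f t).natAbs := by exact_mod_cast h2
  omega

end Pool.Agent.Lib.MP_5893d7_nt.Af
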