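import Pool.Agent.Lib.MP_5893d7_nt.Af.Evn

/-!
MP_5893d7_nt, factorisations by linear recurrences: assembly.
-/

set_option autoImplicit false
set_option linter.unusedSectionVars false

namespace Pool.Agent.Lib.MP_5893d7_nt.Af

open Polynomial Finset IntermediateField

/-- closed form of the Fibonacci and Lucas numbers -/
lemma binet {K : Type} [Field K] [CharZero K] {α : K} (hα : α ^ 2 = α + 1) {W : ℕ → ℤ}
    (hW : ∀ n, W (n + 2) = W (n + 1) + W n) (h0 : W 0 = 0 ∨ W 0 = 2) (h1 : W 1 = 1) :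
    ∃ c1 c2 : K, c1 ≠ 0 ∧ (c2 = c1 ∨ c2 = -c1) ∧
      ∀ n, (W n : K) = c1 * α ^ n + c2 * (1 - α) ^ n := by
  have h5 : (2 * α - 1) ^ 2 = 5 := by linear_combination 4 * hα
  have hne : 2 * α - 1 ≠ 0 := by
    intro h2
    rw [h2] at h5
    norm_num at h5
  have hβ : (1 - α) ^ 2 = (1 - α) + 1 := by linear_combination hα
  have key : ∀ c1 c2 : K, (W 0 : K) = c1 + c2 → (W 1 : K) = c1 * α + c2 * (1 - α) →
      ∀ n, (W n : K) = c1 * α ^ n + c2 * (1 - α) ^ n ∧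
        (W (n + 1) : K) = c1 * α ^ (n + 1) + c2 * (1 - α) ^ (n + 1) := by
    intro c1 c2 h2 h3 n
    induction n with
    | zero =>
      refine ⟨by simpa using h2, by simpa using h3⟩
    | succ n ih =>
      refine ⟨ih.2, ?_⟩
      have h4 := hW n
      have h6 : (W (n + 1 + 1) : K) = W (n + 1) + W n := by exact_mod_cast h4
      rw [h6, ih.1, ih.2]
      linear_combination (-c1 * α ^ n) * hα + (-c2 * (1 - α) ^ n) * hβ
  rcases h0 with h0 | h0
  · refine ⟨1 / (2 * α - 1), -(1 / (2 * α - 1)), one_div_ne_zero hne, Or.inr rfl,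
      fun n => (key _ _ ?_ ?_ n).1⟩
    · rw [h0]
      push_cast
      ring
    · rw [h1]
      push_cast
      field_simp
      ring
  · refine ⟨1, 1, one_ne_zero, Or.inl rfl, fun n => (key _ _ ?_ ?_ n).1⟩
    · rw [h0]
      push_cast
      norm_num
    · rw [h1]
      push_cast
      ring

/-- divisibility -/
lemma dvd_fib {W : ℕ → ℤ} (hW : ∀ n, W (n + 2) = W (n + 1) + W n) (h0 : W 0 = 0 ∨ W 0 = 2)
    (h1 : W 1 = 1) (n : ℕ) : W n ∣ (Nat.fib (2 * n) : ℤ) := by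
  rcases h0 with h0 | h0
  · have h2 : ∀ n, W n = Nat.fib n ∧ W (n + 1) = Nat.fib (n + 1) := by
      intro n
      induction n with
      | zero => simp [h0, h1]
      | succ n ih =>
        refine ⟨ih.2, ?_⟩
        rw [hW n, ih.1, ih.2, Nat.fib_add_two]
        push_cast
        ring
    rw [(h2 n).1]
    exact_mod_cast Nat.fib_dvd _ _ (Dvd.intro_left 2 rfl)
  · have h2 : ∀ n, W n = 2 * Nat.fib (n + 1) - Nat.fib n
        ∧ W (n + 1) = 2 * Nat.fib (n + 2) - Nat.fib (n + 1) := by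
      intro n
      induction n with
      | zero => simp [h0, h1]
      | succ n ih =>
        refine ⟨ih.2, ?_⟩
        rw [hW n, ih.1, ih.2, Nat.fib_add_two (n := n + 1), Nat.fib_add_two (n := n)]
        push_cast
        ring
    rw [(h2 n).1, Nat.fib_two_mul]
    have h3 : Nat.fib n ≤ 2 * Nat.fib (n + 1) := by
      have := Nat.fib_le_fib_succ (n := n)
      omega
    push_cast [Nat.cast_sub h3]
    exact Dvd.intro_left _ rfl

/-- neighbours on a class are coprime -/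
lemma no_common {W : ℕ → ℤ} (hW : ∀ n, W (n + 2) = W (n + 1) + W n) (h0 : W 0 = 0 ∨ W 0 = 2)
    (h1 : W 1 = 1) {s M : ℕ} (hc : s.Coprime M) {l : ℕ} (hl : l.Prime)
    (h2 : (l : ℤ) ∣ W s) (h3 : (l : ℤ) ∣ W (s + M)) : False := by
  have h4 : l ∣ Nat.fib (2 * s) := by exact_mod_cast h2.trans (dvd_fib hW h0 h1 s)
  have h5 : l ∣ Nat.fib (2 * (s + M)) := by exact_mod_cast h3.trans (dvd_fib hW h0 h1 (s + M))
  have h6 := Nat.dvd_gcd h4 h5
  rw [← Nat.fib_gcd, Nat.gcd_mul_left, Nat.gcd_self_add_right, hc.gcd_eq_one] at h6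
  have h7 : Nat.fib (2 * 1) = 1 := rfl
  rw [h7] at h6
  exact hl.one_lt.ne' (Nat.dvd_one.1 h6)

variable {Kb : Type} [Field Kb] [CharZero Kb] [Algebra ℚ Kb] [IsAlgClosure ℚ Kb]

/-- closed form over the algebraic closure -/
lemma rep_rat {A : ℕ → ℚ} {E : LinearRecurrence ℚ} (hA : E.IsSolution A) :
    ∃ n0 : ℕ, ∃ s : Finset Kbˣ, ∃ p : Kbˣ → Kb[X],
      ∀ n ≥ n0, (A n : Kb) = ∑ g ∈ s, (p g).eval (n : Kb) * (g : Kb) ^ n := by
  have := IsAlgClosure.isAlgClosed ℚ (K := Kb)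
  refine exists_rep ⟨E.order, fun i => ((E.coeffs i : ℚ) : Kb)⟩ (fun n => (A n : Kb)) ?_
  intro n
  have h1 := hA n
  show (A (n + E.order) : Kb) = ∑ i : Fin E.order, (E.coeffs i : Kb) * (A (n + i) : Kb)
  rw [h1]
  push_cast
  rfl

open Classical in
/-- closed form on a residue class -/
lemma rep_class {A : ℕ → ℚ} {n0 : ℕ} {s : Finset Kbˣ} {p : Kbˣ → Kb[X]}
    (h : ∀ n ≥ n0, (A n : Kb) = ∑ g ∈ s, (p g).eval (n : Kb) * (g : Kb) ^ n) (N n : ℕ)
    (hn : n0 ≤ n) : ∃ q : Kbˣ → Kb[X], ∀ k : ℕ, (A (N * k + n) : Kb)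
      = ∑ g ∈ s.image (fun g => g ^ N), (q g).eval (k : Kb) * (g : Kb) ^ k := by
  refine ⟨fun g' => ∑ g ∈ s.filter (fun g => g ^ N = g'),
    C ((g : Kb) ^ n) * (p g).comp (C (N : Kb) * X + C (n : Kb)), fun k => ?_⟩
  rw [h _ (by omega), ← sum_fiberwise_of_maps_to (g := fun g : Kbˣ => g ^ N)
    (t := s.image fun g => g ^ N) (fun g hg => mem_image_of_mem _ hg)]
  refine sum_congr rfl fun g' _ => ?_
  rw [eval_finsetSum, sum_mul]
  refine sum_congr rfl fun g hg => ?_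
  rw [← (mem_filter.1 hg).2]
  simp only [eval_mul, eval_C, eval_comp, eval_add, eval_X, Units.val_pow_eq_pow_val]
  rw [pow_add, pow_mul]
  push_cast
  ring

/-- the data of a factor from its roots -/
lemma fac_of {α : Kb} {ι : Kb →+* ℂ} (h : Gold α ι) {G : Subgroup Kbˣ}
    (htf : ∀ g ∈ G, ∀ k : ℕ, 0 < k → g ^ k = 1 → g = 1) {x : Kbˣ} {M : ℕ}
    (hx : (x : Kb) = α ^ M) {S : Finset Kbˣ} {a : Kbˣ → Kb} (hne : S.Nonempty)
    (hS : ∀ g ∈ S, g ∈ G) (ha : ∀ g ∈ S, a g ≠ 0) {u : ℕ → ℚ}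
    (hu : ∀ n, (u n : Kb) = ∑ g ∈ S, a g * (g : Kb) ^ n)
    (hr : ∀ g ∈ S, ∀ g' ∈ S, ∃ k : ℕ, 0 < k ∧ ∃ j : ℤ, (g / g') ^ k = x ^ j) :
    Fac α x S a := by
  have hst := fun (σ : Kb ≃ₐ[ℚ] Kb) (g : Kbˣ) (hg : g ∈ S) => stable S a ha u hu σ g hg
  have hfix : ∀ σ : Kb ≃ₐ[ℚ] Kb, σ α = α → ∀ g ∈ S, su σ g = g := by
    intro σ hσ
    refine fixed_roots htf hS (fun g hg => (hst σ g hg).1) (x := x) ?_ hr
    ext
    rw [su_val, hx, map_pow, hσ]
  refine ⟨hne, ha, fun g hg => ?_, fun g hg => ?_, hr, fun g hg g' hg' h2 => ?_, hst⟩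
  · refine Gold.mem_of_fixed _ fun σ hσ => ?_
    rw [← su_val, hfix σ hσ g hg]
  · refine Gold.mem_of_fixed _ fun σ hσ => ?_
    rw [← (hst σ g hg).2, hfix σ hσ g hg]
  · exact div_eq_one.1 (htf _ (div_mem (hS g hg) (hS g' hg')) 2 two_pos h2)

/-- a sequence with one root is geometric -/
lemma geom_of {S : Finset Kbˣ} {a : Kbˣ → Kb} (ha : ∀ g ∈ S, a g ≠ 0) {u : ℕ → ℚ}
    (hu : ∀ n, (u n : Kb) = ∑ g ∈ S, a g * (g : Kb) ^ n) (hc : S.card = 1) :
    ∃ c s : ℚ, c ≠ 0 ∧ s ≠ 0 ∧ ∀ k, u k = c * s ^ k := by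
  obtain ⟨g, rfl⟩ := card_eq_one.1 hc
  simp only [sum_singleton] at hu
  have hag := ha g (mem_singleton_self g)
  have h0 : (u 0 : Kb) = a g := by rw [hu 0, pow_zero, mul_one]
  have h1 : (u 1 : Kb) = a g * g := by rw [hu 1, pow_one]
  have hu0 : u 0 ≠ 0 := by
    intro h2
    rw [h2] at h0
    exact hag (by rw [← h0]; simp)
  have hu1 : u 1 ≠ 0 := by
    intro h2
    rw [h2] at h1
    have h3 : a g * (g : Kb) = 0 := by rw [← h1]; simp
    rcases mul_eq_zero.1 h3 with h4 | h4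
    · exact hag h4
    · exact g.ne_zero h4
  refine ⟨u 0, u 1 / u 0, hu0, div_ne_zero hu1 hu0, fun k => ?_⟩
  have h2 : (u k : Kb) = ((u 0 * (u 1 / u 0) ^ k : ℚ) : Kb) := by
    push_cast
    rw [hu k, h1, h0, mul_div_cancel_left₀ _ hag]
  exact_mod_cast h2

/-- **factorisations on a class are geometric** -/
theorem class_thm {W : ℕ → ℤ} (hW : ∀ n, W (n + 2) = W (n + 1) + W n)
    (h0 : W 0 = 0 ∨ W 0 = 2) (h1 : W 1 = 1) {a b : ℕ} (ha : 0 < a) (hab : a.Coprime b)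
    {A B : ℕ → ℚ} {EA EB : LinearRecurrence ℚ} (hA : EA.IsSolution A) (hB : EB.IsSolution B)
    (Kb : Type) [Field Kb] [CharZero Kb] [Algebra ℚ Kb] [IsAlgClosure ℚ Kb] :
    ∃ N1 n0 : ℕ, 0 < N1 ∧ ∀ N : ℕ, 0 < N → N1 ∣ N → ∀ n ≥ n0, ∀ κ t : ℕ,
      a * n + b = 2 ^ κ * t → t.Coprime N → (κ = 0 ∨ W 0 = 2) →
      (∀ k, A (N * k + n) * B (N * k + n) = W (a * (N * k + n) + b)) →
      (∃ c s : ℚ, c ≠ 0 ∧ s ≠ 0 ∧ ∀ k, A (N * k + n) = c * s ^ k) ∨
      (∃ c s : ℚ, c ≠ 0 ∧ s ≠ 0 ∧ ∀ k, B (N * k + n) = c * s ^ k) := by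
  classical
  obtain ⟨α, ι, hG⟩ := exists_gold (Kb := Kb)
  obtain ⟨c1, c2, hc1, hc2, hbin⟩ := binet hG.root hW h0 h1
  obtain ⟨nA, sA, pA, hAr⟩ := rep_rat (Kb := Kb) hA
  obtain ⟨nB, sB, pB, hBr⟩ := rep_rat (Kb := Kb) hB
  set αu : Kbˣ := Units.mk0 α hG.ne_zero with hαu
  set G0 : Subgroup Kbˣ := Subgroup.closure ((sA ∪ sB ∪ {αu} : Finset Kbˣ) : Set Kbˣ) with hG0
  have hfg0 : Group.FG G0 := Group.closure_finset_fg _
  obtain ⟨e, he, hexp⟩ := exists_exponent G0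
  have hexp' : ∀ g ∈ G0, ∀ k : ℕ, 0 < k → g ^ k = 1 → g ^ e = 1 := by
    intro g hg k hk h2
    have h3 := hexp ⟨g, hg⟩ k hk (Subtype.ext (by simpa using h2))
    simpa using congrArg Subtype.val h3
  refine ⟨2 * e, max nA nB, by omega, ?_⟩
  rintro N hN0 ⟨t', hNt⟩ n hn κ t hst hco hκ h
  set e' : ℕ := e * t' with he'
  have hN : N = 2 * e' := by rw [hNt, he']; ring
  set G : Subgroup Kbˣ := G0.map (powMonoidHom N) with hGd
  have hfgG : Group.FG G := by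
    rw [Group.fg_iff_subgroup_fg, Subgroup.fg_iff_submonoid_fg]
    have h2 := (Subgroup.fg_iff_submonoid_fg G0).1 ((Group.fg_iff_subgroup_fg G0).1 hfg0)
    exact h2.map (powMonoidHom N)
  have htf : ∀ g ∈ G, ∀ k : ℕ, 0 < k → g ^ k = 1 → g = 1 := by
    rintro _ ⟨g, hg, rfl⟩ k hk h2
    simp only [powMonoidHom_apply] at h2 ⊢
    have h3 := hexp' g hg (N * k) (by positivity) (by rw [pow_mul]; exact h2)
    have h4 : N = e * (2 * t') := by rw [hN, he']; ring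
    rw [h4, pow_mul, h3, one_pow]
  have hmem : ∀ g ∈ sA ∪ sB ∪ {αu}, g ^ N ∈ G := by
    intro g hg
    exact ⟨g, Subgroup.subset_closure (mem_coe.2 hg), rfl⟩
  set M : ℕ := a * N with hM
  have hM0 : 0 < M := Nat.mul_pos ha hN0
  set x : Kbˣ := αu ^ M with hx
  have hxv : (x : Kb) = α ^ M := by rw [hx, Units.val_pow_eq_pow_val]; rfl
  have hxG : x ∈ G := by
    rw [hx, hM, mul_comm, pow_mul]
    exact pow_mem (hmem αu (by simp)) _
  have hxx : x ≠ x⁻¹ := by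
    intro h2
    have h3 : x ^ 2 = 1 := by
      rw [sq]
      exact mul_eq_one_iff_eq_inv.2 h2
    have h4 := htf x hxG 2 two_pos h3
    have h5 : α ^ ((M : ℕ) : ℤ) = α ^ (0 : ℤ) := by
      rw [zpow_natCast, zpow_zero, ← hxv, h4]
      rfl
    have h6 := hG.zpow_inj (Or.inl h5)
    omega
  obtain ⟨qA, hqA⟩ := rep_class hAr N n (le_trans (le_max_left _ _) hn)
  obtain ⟨qB, hqB⟩ := rep_class hBr N n (le_trans (le_max_right _ _) hn)
  set s0 : ℕ := a * n + b with hs0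
  have hodd : Odd t := by
    rw [← Nat.not_even_iff_odd]
    intro h2
    have h3 : 2 ∣ N := ⟨e', hN⟩
    have h4 := Nat.dvd_gcd h2.two_dvd h3
    rw [hco.gcd_eq_one] at h4
    omega
  have hcoM : t.Coprime M := by
    refine Nat.Coprime.mul_right ?_ hco
    have h2 : s0.Coprime a := by
      rw [hs0, add_comm, Nat.coprime_add_mul_left_left]
      exact hab.symm
    exact Nat.Coprime.coprime_dvd_left ⟨2 ^ κ, by rw [hst]; ring⟩ h2
  have hβN : (1 - α) ^ M = ((x⁻¹ : Kbˣ) : Kb) := by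
    have h2 : (1 - α) = -α⁻¹ := by
      rw [hG.inv_eq]
      ring
    have h3 : Even M := ⟨a * e', by rw [hM, hN]; ring⟩
    rw [h2, h3.neg_pow, inv_pow, ← hxv]
    simp
  have hw : ∀ k : ℕ, (W (a * (N * k + n) + b) : Kb)
      = (c1 * α ^ s0) * (x : Kb) ^ k + (c2 * (1 - α) ^ s0) * ((x⁻¹ : Kbˣ) : Kb) ^ k := by
    intro k
    have h2 : a * (N * k + n) + b = M * k + s0 := by rw [hM, hs0]; ring
    have e1 : α ^ (M * k + s0) = (x : Kb) ^ k * α ^ s0 := by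
      rw [hxv, ← pow_mul, ← pow_add]
    have e2 : (1 - α) ^ (M * k + s0) = ((x⁻¹ : Kbˣ) : Kb) ^ k * (1 - α) ^ s0 := by
      rw [← hβN, ← pow_mul, ← pow_add]
    rw [h2, hbin, e1, e2]
    ring
  have hprod : ∀ k : ℕ, (A (N * k + n) : Kb) * (B (N * k + n) : Kb)
      = (c1 * α ^ s0) * (x : Kb) ^ k + (c2 * (1 - α) ^ s0) * ((x⁻¹ : Kbˣ) : Kb) ^ k := by
    intro k
    rw [← hw k]
    exact_mod_cast h k
  have hC1 : c1 * α ^ s0 ≠ 0 := mul_ne_zero hc1 (pow_ne_zero _ hG.ne_zero)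
  have hc20 : c2 ≠ 0 := by
    rcases hc2 with h2 | h2
    · rw [h2]; exact hc1
    · rw [h2]; exact neg_ne_zero.2 hc1
  have hC2 : c2 * (1 - α) ^ s0 ≠ 0 := mul_ne_zero hc20 (pow_ne_zero _ hG.conj_ne_zero)
  have hsAG : ∀ g ∈ sA.image (fun g => g ^ N), g ∈ G := by
    intro g hg
    obtain ⟨g', hg', rfl⟩ := mem_image.1 hg
    exact hmem g' (by simp [hg'])
  have hsBG : ∀ g ∈ sB.image (fun g => g ^ N), g ∈ G := by
    intro g hg
    obtain ⟨g', hg', rfl⟩ := mem_image.1 hg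
    exact hmem g' (by simp [hg'])
  have htf' : ∀ (g : G) (k : ℕ), 0 < k → g ^ k = 1 → g = 1 := by
    intro g k hk h2
    have h3 : (g : Kbˣ) ^ k = 1 := by simpa using congrArg Subtype.val h2
    exact Subtype.ext (htf g g.2 k hk h3)
  obtain ⟨S, T, a', b', hS1, hT1, hS2, hT2, hS3, hT3, hS4, hT4, hS5, hT5, hST⟩ :=
    factors G htf' ⟨x, hxG⟩ (fun h2 => hxx (congrArg Subtype.val h2)) (c1 * α ^ s0)
      (c2 * (1 - α) ^ s0) hC1 _ _ qA qB hsAG hsBG (fun k => (A (N * k + n) : Kb))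
      (fun k => (B (N * k + n) : Kb)) hqA hqB hprod
  have hFS := fac_of hG htf hxv hS1 hS2 hS3 (u := fun k => A (N * k + n)) hS4 hS5
  have hFT := fac_of hG htf hxv hT1 hT2 hT3 (u := fun k => B (N * k + n)) hT4 hT5
  have hα0 := hG.ne_zero
  have hzp : α ^ (-2 * (s0 : ℤ)) = (α ^ s0)⁻¹ * (α ^ s0)⁻¹ := by
    rw [← mul_inv, ← pow_add, ← zpow_natCast, ← zpow_neg]
    congr 1
    push_cast
    ring
  have hprod2 : ∀ k : ℕ, (∑ g ∈ S, a' g * (g : Kb) ^ (2 * k)) * (∑ g ∈ T, b' g * (g : Kb) ^ (2 * k))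
      = (c1 * α ^ s0) * (x : Kb) ^ (2 * k)
        + (c2 * (1 - α) ^ s0) * ((x⁻¹ : Kbˣ) : Kb) ^ (2 * k) := by
    intro k
    rw [← hS4 (2 * k), ← hT4 (2 * k)]
    exact hprod (2 * k)
  have hcore : S.card = 1 ∨ T.card = 1 := by
    rcases Nat.eq_zero_or_pos κ with hκ0 | hκ0
    · have hst' : s0 = t := by rw [hst, hκ0, pow_zero, one_mul]
      have hratio : -(c2 * (1 - α) ^ s0 / (c1 * α ^ s0)) = α ^ (-2 * (s0 : ℤ))
          ∨ -(c2 * (1 - α) ^ s0 / (c1 * α ^ s0)) = -α ^ (-2 * (s0 : ℤ)) := by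
        have h2 : (1 - α) ^ s0 = -(α ^ s0)⁻¹ := by
          have h3 : (1 - α) = -α⁻¹ := by
            rw [hG.inv_eq]
            ring
          rw [h3, hst', hodd.neg_pow, inv_pow]
        have h4 : α ^ s0 ≠ 0 := pow_ne_zero _ hα0
        rw [h2, hzp]
        rcases hc2 with h5 | h5
        · left
          rw [h5]
          field_simp
        · right
          rw [h5]
          field_simp
      exact core hG hM0 (hst' ▸ hodd) (hst' ▸ hcoM) hxv hC1 hC2 hratio hFS hFT hST hprod2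
    · have hW2 : W 0 = 2 := hκ.resolve_left hκ0.ne'
      have hc21 : c2 = c1 := by
        refine hc2.resolve_right fun h5 => ?_
        have h6 := hbin 0
        rw [hW2, h5, pow_zero, pow_zero] at h6
        push_cast at h6
        have h7 : (2 : Kb) = 0 := by
          rw [h6]
          ring
        exact two_ne_zero h7
      have hev : Even s0 := by
        rw [hst]
        exact Even.mul_right ((Nat.even_pow.2 ⟨even_two, hκ0.ne'⟩)) t
      have hratio : -(c2 * (1 - α) ^ s0 / (c1 * α ^ s0)) = -α ^ (-2 * (s0 : ℤ)) := by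
        have h2 : (1 - α) ^ s0 = (α ^ s0)⁻¹ := by
          have h3 : (1 - α) = -α⁻¹ := by
            rw [hG.inv_eq]
            ring
          rw [h3, hev.neg_pow, inv_pow]
        have h4 : α ^ s0 ≠ 0 := pow_ne_zero _ hα0
        rw [h2, hzp, hc21]
        field_simp
      exact core_even hG hM0 hst hcoM hxv hC1 hC2 hratio hFS hFT hST hprod2
  rcases hcore with h2 | h2
  · left
    exact geom_of hS3 (u := fun k => A (N * k + n)) hS4 h2
  · right
    exact geom_of hT3 (u := fun k => B (N * k + n)) hT4 h2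

end Pool.Agent.Lib.MP_5893d7_nt.Af
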