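import Pool.Agent.Lib.MP_5893d7_nt.Af.Gal

/-!
MP_5893d7_nt, factorisations by linear recurrences: one of the two factors has a single root.
-/

set_option autoImplicit false
set_option linter.unusedSectionVars false

namespace Pool.Agent.Lib.MP_5893d7_nt.Af

open Polynomial Finset IntermediateField

variable {Kb : Type} [Field Kb] [CharZero Kb] [Algebra ℚ Kb] [IsAlgClosure ℚ Kb]
  {α : Kb} {ι : Kb →+* ℂ}

/-- the polynomial of a factor -/
noncomputable def pol (S : Finset Kbˣ) (a : Kbˣ → Kb) (e : Kbˣ → ℕ) : Kb[X] :=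
  ∑ g ∈ S, C (a g) * X ^ e g

lemma pol_coeff {S : Finset Kbˣ} {a : Kbˣ → Kb} {e : Kbˣ → ℕ}
    (he : ∀ g ∈ S, ∀ g' ∈ S, e g = e g' → g = g') {g : Kbˣ} (hg : g ∈ S) :
    (pol S a e).coeff (e g) = a g := by
  unfold pol
  rw [finsetSum_coeff, sum_eq_single_of_mem g hg]
  · simp
  · intro g' hg' hne
    rw [coeff_C_mul, coeff_X_pow, if_neg, mul_zero]
    intro h1
    exact hne (he g hg g' hg' h1).symm

lemma pol_mem {S : Finset Kbˣ} {a : Kbˣ → Kb} {e : Kbˣ → ℕ} {i : ℕ}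
    (hi : (pol S a e).coeff i ≠ 0) : ∃ g ∈ S, e g = i := by
  by_contra h1
  push Not at h1
  apply hi
  unfold pol
  rw [finsetSum_coeff]
  refine sum_eq_zero fun g hg => ?_
  rw [coeff_C_mul, coeff_X_pow, if_neg (fun h2 => h1 g hg h2.symm), mul_zero]

lemma pol_eval {S : Finset Kbˣ} {a : Kbˣ → Kb} {e : Kbˣ → ℕ} {g0 : Kbˣ}
    (he : ∀ g ∈ S, (g : Kb) = α ^ (e g) * g0 ∨ (g : Kb) = -(α ^ (e g) * g0)) (k : ℕ) :
    ∑ g ∈ S, a g * (g : Kb) ^ (2 * k) = (g0 : Kb) ^ (2 * k) * (pol S a e).eval (α ^ (2 * k)) := by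
  unfold pol
  rw [eval_finsetSum, mul_sum]
  refine sum_congr rfl fun g hg => ?_
  simp only [eval_mul, eval_C, eval_pow, eval_X]
  have h1 : (g : Kb) ^ (2 * k) = (α ^ (e g) * g0) ^ (2 * k) := by
    rcases he g hg with h2 | h2
    · rw [h2]
    · rw [h2, (even_two_mul k).neg_pow]
  rw [h1, mul_pow, ← pow_mul, ← pow_mul, mul_comm (e g)]
  ring

lemma pol_top {S : Finset Kbˣ} {a : Kbˣ → Kb} {e : Kbˣ → ℕ} (hne : S.Nonempty)
    (ha : ∀ g ∈ S, a g ≠ 0) (he : ∀ g ∈ S, ∀ g' ∈ S, e g = e g' → g = g') :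
    pol S a e ≠ 0 ∧ (∀ g ∈ S, e g ≤ (pol S a e).natDegree) ∧
      ∃ g ∈ S, e g = (pol S a e).natDegree ∧ (pol S a e).leadingCoeff = a g := by
  obtain ⟨g1, hg1⟩ := hne
  have h0 : pol S a e ≠ 0 := by
    intro h1
    have h2 := pol_coeff (a := a) he hg1
    rw [h1, coeff_zero] at h2
    exact ha g1 hg1 h2.symm
  refine ⟨h0, fun g hg => ?_, ?_⟩
  · refine le_natDegree_of_ne_zero ?_
    rw [pol_coeff he hg]
    exact ha g hg
  · obtain ⟨g, hg, h1⟩ := pol_mem (i := (pol S a e).natDegree) (leadingCoeff_ne_zero.2 h0)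
    refine ⟨g, hg, h1, ?_⟩
    rw [leadingCoeff, ← h1, pol_coeff he hg]

/-- the constant coefficient of a divisor of `C1 X ^ N + C2` -/
lemma const_pow [IsAlgClosed Kb] {f : Kb[X]} (hf : f ≠ 0) {N : ℕ} (hN : Even N) {c : Kb}
    (hr : ∀ w, f.eval w = 0 → w ^ N = c) :
    (f.coeff 0 / f.leadingCoeff) ^ N = c ^ f.natDegree := by
  have hs : f.Splits := IsAlgClosed.splits f
  have h1 := hs.coeff_zero_eq_leadingCoeff_mul_prod_roots
  have h2 : f.coeff 0 / f.leadingCoeff = (-1) ^ f.natDegree * f.roots.prod := by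
    rw [h1]
    have h3 := leadingCoeff_ne_zero.2 hf
    field_simp
  have h3 : f.roots.prod ^ N = (f.roots.map (fun w => w ^ N)).prod := by
    rw [Multiset.prod_map_pow, Multiset.map_id']
  rw [h2, mul_pow, ← pow_mul, mul_comm f.natDegree N, pow_mul, hN.neg_one_pow, one_pow, one_mul,
    h3, hs.natDegree_eq_card_roots, ← Multiset.prod_replicate]
  congr 1
  rw [Multiset.eq_replicate]
  refine ⟨Multiset.card_map _ _, fun b hb => ?_⟩
  obtain ⟨w, hw, rfl⟩ := Multiset.mem_map.1 hb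
  exact hr w (mem_roots'.1 hw).2

/-- the data of one factor -/
structure Fac (α : Kb) (x : Kbˣ) (S : Finset Kbˣ) (a : Kbˣ → Kb) : Prop where
  ne : S.Nonempty
  ha : ∀ g ∈ S, a g ≠ 0
  hF : ∀ g ∈ S, (g : Kb) ∈ ℚ⟮α⟯
  aF : ∀ g ∈ S, a g ∈ ℚ⟮α⟯
  hr : ∀ g ∈ S, ∀ g' ∈ S, ∃ k : ℕ, 0 < k ∧ ∃ j : ℤ, (g / g') ^ k = x ^ j
  tf : ∀ g ∈ S, ∀ g' ∈ S, (g / g') ^ 2 = 1 → g = g'
  st : ∀ (σ : Kb ≃ₐ[ℚ] Kb), ∀ g ∈ S, su σ g ∈ S ∧ a (su σ g) = σ (a g)

/-- the two factors as polynomials -/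
theorem core_pre (h : Gold α ι) {M : ℕ} (hM : 0 < M) {x : Kbˣ}
    (hx : (x : Kb) = α ^ M) {C1 C2 : Kb} (hC2 : C2 ≠ 0)
    {S T : Finset Kbˣ} {a b : Kbˣ → Kb} (hS : Fac α x S a) (hT : Fac α x T b)
    (hST : ∀ g ∈ S, ∀ g' ∈ T, ∃ k : ℕ, 0 < k ∧ ∃ j : ℤ, (g * g') ^ k = x ^ j)
    (hprod : ∀ k : ℕ, (∑ g ∈ S, a g * (g : Kb) ^ (2 * k)) * (∑ g ∈ T, b g * (g : Kb) ^ (2 * k))
      = C1 * (x : Kb) ^ (2 * k) + C2 * ((x⁻¹ : Kbˣ) : Kb) ^ (2 * k)) :
    ∃ g0 ∈ S, ∃ t0 ∈ T, ∃ e e' : Kbˣ → ℕ,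
      (∀ g ∈ S, (g : Kb) = α ^ (e g) * g0 ∨ (g : Kb) = -(α ^ (e g) * g0)) ∧
      (∀ g ∈ T, (g : Kb) = α ^ (e' g) * t0 ∨ (g : Kb) = -(α ^ (e' g) * t0)) ∧
      (∀ g ∈ S, ∀ g' ∈ S, e g = e g' → g = g') ∧ (∀ g ∈ T, ∀ g' ∈ T, e' g = e' g' → g = g') ∧
      e g0 = 0 ∧ e' t0 = 0 ∧ pol S a e * pol T b e' = C C1 * X ^ (2 * M) + C C2 := by
  classical
  have hα := h.ne_zero
  obtain ⟨g0, hg0, e, he, hei⟩ := normal_form h hS.ne hS.hF hx hS.hr hS.tf
  obtain ⟨t0, ht0, e', he', hei'⟩ := normal_form h hT.ne hT.hF hx hT.hr hT.tf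
  set f := pol S a e with hf
  set f' := pol T b e' with hf'
  obtain ⟨hf0, hfle, gt, hgt, hgt1, hgt2⟩ := pol_top hS.ne hS.ha hei
  obtain ⟨hf0', hfle', tt, htt, htt1, htt2⟩ := pol_top hT.ne hT.ha hei'
  rw [← hf] at hf0 hfle hgt1 hgt2
  rw [← hf'] at hf0' hfle' htt1 htt2
  have hez : e g0 = 0 := by
    have h1 : (α ^ (e g0 : ℤ) = α ^ (0 : ℤ)) ∨ (α ^ (e g0 : ℤ) = -α ^ (0 : ℤ)) := by
      rw [zpow_natCast, zpow_zero]
      rcases he g0 hg0 with h2 | h2
      · left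
        exact (mul_left_eq_self₀.1 h2.symm).resolve_right g0.ne_zero
      · right
        have h3 : (-α ^ (e g0)) * (g0 : Kb) = g0 := by rw [neg_mul]; exact h2.symm
        have h4 := (mul_left_eq_self₀.1 h3).resolve_right g0.ne_zero
        rw [← h4, neg_neg]
    have h2 := h.zpow_inj h1
    exact_mod_cast h2
  have hez' : e' t0 = 0 := by
    have h1 : (α ^ (e' t0 : ℤ) = α ^ (0 : ℤ)) ∨ (α ^ (e' t0 : ℤ) = -α ^ (0 : ℤ)) := by
      rw [zpow_natCast, zpow_zero]
      rcases he' t0 ht0 with h2 | h2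
      · left
        exact (mul_left_eq_self₀.1 h2.symm).resolve_right t0.ne_zero
      · right
        have h3 : (-α ^ (e' t0)) * (t0 : Kb) = t0 := by rw [neg_mul]; exact h2.symm
        have h4 := (mul_left_eq_self₀.1 h3).resolve_right t0.ne_zero
        rw [← h4, neg_neg]
    have h2 := h.zpow_inj h1
    exact_mod_cast h2
  have hc0 : f.coeff 0 = a g0 := by rw [← hez, hf, pol_coeff hei hg0]
  have hc0' : f'.coeff 0 = b t0 := by rw [← hez', hf', pol_coeff hei' ht0]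
  -- the common factor
  obtain ⟨i, hi⟩ : ∃ i : ℤ, (((g0 : Kb) * t0) * x) ^ 2 = α ^ (2 * i) := by
    obtain ⟨k, hk, j, h1⟩ := hST g0 hg0 t0 ht0
    have h2 : ((g0 : Kb) * t0 * x) ^ k = α ^ ((M : ℤ) * (j + k)) := by
      have h3 := congrArg (fun y : Kbˣ => (y : Kb)) h1
      simp only [Units.val_pow_eq_pow_val, Units.val_mul, Units.val_zpow_eq_zpow_val] at h3
      rw [mul_pow, h3, hx, mul_add, zpow_add₀ hα, zpow_mul, zpow_natCast, zpow_mul, zpow_natCast,
        zpow_natCast]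
    have h3 : ((g0 : Kb) * t0 * x) ∈ ℚ⟮α⟯ := by
      refine mul_mem (mul_mem (hS.hF g0 hg0) (hT.hF t0 ht0)) ?_
      rw [hx]
      exact pow_mem h.mem_self _
    obtain ⟨i, h4⟩ := h.unit_lemma h3 hk (Or.inl h2)
    refine ⟨i, ?_⟩
    rw [mul_comm (2 : ℤ), zpow_mul]
    rcases h4 with h4 | h4
    · rw [h4]
      norm_cast
    · rw [h4, neg_sq]
      norm_cast
  have hZ : ∀ k : ℕ, (f * f').eval (α ^ (2 * k)) * (α ^ (2 * k)) ^ i
      = C1 * (α ^ (2 * k)) ^ (2 * M) + C2 := by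
    intro k
    have h1 := hprod k
    rw [pol_eval he k, pol_eval he' k] at h1
    have h2 : (x : Kb) ^ (2 * k) * ((x⁻¹ : Kbˣ) : Kb) ^ (2 * k) = 1 := by
      rw [← mul_pow, Units.mul_inv, one_pow]
    have h3 : (α ^ (2 * k)) ^ i = ((g0 : Kb) * t0 * x) ^ (2 * k) := by
      rw [pow_mul ((g0 : Kb) * t0 * x) 2 k, hi, ← zpow_natCast α (2 * k), ← zpow_mul,
        ← zpow_natCast (α ^ (2 * i)) k, ← zpow_mul]
      congr 1
      push_cast
      ring
    have h4 : (α ^ (2 * k)) ^ (2 * M) = (x : Kb) ^ (2 * k) * (x : Kb) ^ (2 * k) := by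
      rw [hx, ← pow_mul, ← pow_mul, ← pow_add]
      congr 1
      ring
    rw [h3, h4, eval_mul, mul_pow, mul_pow]
    linear_combination ((x : Kb) ^ (2 * k)) * h1 + C2 * h2
  set P : Kb[X] := C C1 * X ^ (2 * M) + C C2 with hP
  have hPe : ∀ z, P.eval z = C1 * z ^ (2 * M) + C2 := by
    intro z
    rw [hP]
    simp
  have hinf : Set.Infinite (Set.range fun k : ℕ => α ^ (2 * k)) := by
    refine Set.infinite_range_of_injective fun k l hkl => ?_
    have h1 : (α ^ ((2 * k : ℕ) : ℤ) = α ^ ((2 * l : ℕ) : ℤ)) := by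
      rw [zpow_natCast, zpow_natCast]
      exact hkl
    have h2 := h.zpow_inj (Or.inl h1)
    omega
  have hP0 : P.coeff 0 = C2 := by
    rw [hP, coeff_add, coeff_C_mul, coeff_X_pow, if_neg (by omega), mul_zero, zero_add, coeff_C_zero]
  have hff0 : (f * f').coeff 0 ≠ 0 := by
    rw [mul_coeff_zero, hc0, hc0']
    exact mul_ne_zero (hS.ha g0 hg0) (hT.ha t0 ht0)
  have hi0 : f * f' = P := by
    rcases lt_trichotomy i 0 with h1 | h1 | h1
    · exfalso
      obtain ⟨n, hn⟩ : ∃ n : ℕ, i = -((n : ℤ) + 1) := ⟨(-i - 1).toNat, by omega⟩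
      have h2 : f * f' = P * X ^ (n + 1) := by
        refine eq_of_infinite_eval_eq _ _ (hinf.mono ?_)
        rintro _ ⟨k, rfl⟩
        have h3 := hZ k
        have h4 : (α ^ (2 * k)) ^ i * (α ^ (2 * k)) ^ (n + 1) = 1 := by
          rw [hn, ← zpow_natCast (α ^ (2 * k)) (n + 1), ← zpow_add₀ (pow_ne_zero _ hα)]
          push_cast
          rw [neg_add_cancel, zpow_zero]
        show (f * f').eval (α ^ (2 * k)) = (P * X ^ (n + 1)).eval (α ^ (2 * k))
        rw [eval_mul (p := P), eval_pow, eval_X, hPe]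
        linear_combination ((α ^ (2 * k)) ^ (n + 1)) * h3
          - ((f * f').eval (α ^ (2 * k))) * h4
      apply hff0
      rw [h2, mul_coeff_zero, coeff_X_pow, if_neg (by omega), mul_zero]
    · refine eq_of_infinite_eval_eq _ _ (hinf.mono ?_)
      rintro _ ⟨k, rfl⟩
      have h3 := hZ k
      rw [h1, zpow_zero, mul_one] at h3
      show (f * f').eval (α ^ (2 * k)) = P.eval (α ^ (2 * k))
      rw [hPe, h3]
    · exfalso
      obtain ⟨n, hn⟩ : ∃ n : ℕ, i = (n : ℤ) + 1 := ⟨(i - 1).toNat, by omega⟩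
      have h2 : f * f' * X ^ (n + 1) = P := by
        refine eq_of_infinite_eval_eq _ _ (hinf.mono ?_)
        rintro _ ⟨k, rfl⟩
        have h3 := hZ k
        have h4 : (α ^ (2 * k)) ^ i = (α ^ (2 * k)) ^ (n + 1) := by
          rw [hn]
          exact_mod_cast rfl
        show (f * f' * X ^ (n + 1)).eval (α ^ (2 * k)) = P.eval (α ^ (2 * k))
        rw [eval_mul, eval_pow, eval_X, hPe, ← h3, h4]
      have h3 := congrArg (fun q : Kb[X] => q.coeff 0) h2
      simp only [mul_coeff_zero, coeff_X_pow, hP0] at h3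
      rw [if_neg (by omega), mul_zero] at h3
      exact hC2 h3.symm
  exact ⟨g0, hg0, t0, ht0, e, e', he, he', hei, hei', hez, hez', hi0⟩

/-- **one of two factors has a single root** -/
theorem core (h : Gold α ι) {M s0 : ℕ} (hM : 0 < M) (hs : Odd s0) (hco : s0.Coprime M) {x : Kbˣ}
    (hx : (x : Kb) = α ^ M) {C1 C2 : Kb} (hC1 : C1 ≠ 0) (hC2 : C2 ≠ 0)
    (hC : -(C2 / C1) = α ^ (-2 * (s0 : ℤ)) ∨ -(C2 / C1) = -α ^ (-2 * (s0 : ℤ)))
    {S T : Finset Kbˣ} {a b : Kbˣ → Kb} (hS : Fac α x S a) (hT : Fac α x T b)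
    (hST : ∀ g ∈ S, ∀ g' ∈ T, ∃ k : ℕ, 0 < k ∧ ∃ j : ℤ, (g * g') ^ k = x ^ j)
    (hprod : ∀ k : ℕ, (∑ g ∈ S, a g * (g : Kb) ^ (2 * k)) * (∑ g ∈ T, b g * (g : Kb) ^ (2 * k))
      = C1 * (x : Kb) ^ (2 * k) + C2 * ((x⁻¹ : Kbˣ) : Kb) ^ (2 * k)) :
    S.card = 1 ∨ T.card = 1 := by
  classical
  have hAC : IsAlgClosed Kb := IsAlgClosure.isAlgClosed ℚ
  have hα := h.ne_zero
  obtain ⟨g0, hg0, t0, ht0, e, e', he, he', hei, hei', hez, hez', hi0⟩ :=
    core_pre h hM hx hC2 hS hT hST hprod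
  set f := pol S a e with hf
  set f' := pol T b e' with hf'
  obtain ⟨hf0, hfle, gt, hgt, hgt1, hgt2⟩ := pol_top hS.ne hS.ha hei
  obtain ⟨hf0', hfle', tt, htt, htt1, htt2⟩ := pol_top hT.ne hT.ha hei'
  rw [← hf] at hf0 hfle hgt1 hgt2
  rw [← hf'] at hf0' hfle' htt1 htt2
  have hc0 : f.coeff 0 = a g0 := by rw [← hez, hf, pol_coeff hei hg0]
  set P : Kb[X] := C C1 * X ^ (2 * M) + C C2 with hP
  have hPe : ∀ z, P.eval z = C1 * z ^ (2 * M) + C2 := by
    intro z
    rw [hP]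
    simp
  have hdeg : f.natDegree + f'.natDegree = 2 * M := by
    rw [← natDegree_mul hf0 hf0', hi0, hP]
    compute_degree!
    rw [if_neg hM.ne', add_zero]
    exact hC1
  -- the constant coefficient
  set ν : Kb := f.coeff 0 / f.leadingCoeff with hν
  have hνp : ν ^ (2 * M) = (-(C2 / C1)) ^ f.natDegree := by
    refine const_pow hf0 (even_two_mul M) fun w hw => ?_
    have h1 : P.eval w = 0 := by rw [← hi0, eval_mul, hw, zero_mul]
    rw [hPe] at h1
    field_simp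
    linear_combination h1
  have hνp2 : ν ^ (2 * M) = α ^ (-2 * (s0 : ℤ) * f.natDegree)
      ∨ ν ^ (2 * M) = -α ^ (-2 * (s0 : ℤ) * f.natDegree) := by
    rw [hνp, zpow_mul, zpow_natCast]
    rcases hC with h1 | h1
    · left
      rw [h1]
    · rw [h1]
      rcases Nat.even_or_odd f.natDegree with h2 | h2
      · left
        rw [h2.neg_pow]
      · right
        rw [h2.neg_pow]
  have hνF : ν ∈ ℚ⟮α⟯ := by
    rw [hν, hc0, hgt2]
    exact div_mem (hS.aF g0 hg0) (hS.aF gt hgt)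
  obtain ⟨j, hj⟩ := h.unit_lemma hνF (by omega) hνp2
  have hj2 : 2 * (M : ℤ) * j = -2 * (s0 : ℤ) * f.natDegree := by
    have h1 : ν ^ (2 * M) = α ^ (2 * (M : ℤ) * j) := by
      rw [mul_comm (2 * (M : ℤ)), zpow_mul]
      rcases hj with h2 | h2
      · rw [h2]
        norm_cast
      · rw [h2, (even_two_mul M).neg_pow]
        norm_cast
    rw [h1] at hνp2
    exact h.zpow_inj hνp2
  have hdvd : M ∣ f.natDegree := by
    have h1 : (M : ℤ) ∣ (s0 : ℤ) * f.natDegree := ⟨-j, by linarith⟩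
    have h2 : M ∣ s0 * f.natDegree := by exact_mod_cast h1
    exact hco.symm.dvd_of_dvd_mul_left h2
  obtain ⟨q, hq⟩ := hdvd
  have hq3 : q = 0 ∨ q = 1 ∨ q = 2 := by
    have h1 : M * q ≤ M * 2 := by omega
    have h2 := Nat.le_of_mul_le_mul_left h1 hM
    omega
  rcases hq3 with h1 | h1 | h1
  · left
    rw [h1, mul_zero] at hq
    rw [card_eq_one]
    refine ⟨g0, ?_⟩
    ext g
    rw [mem_singleton]
    constructor
    · intro hg
      have h2 := hfle g hg
      exact hei g hg g0 hg0 (by omega)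
    · rintro rfl
      exact hg0
  · exfalso
    rw [h1, mul_one] at hq
    have hjs : j = -(s0 : ℤ) := by
      rw [hq] at hj2
      have h2 : (M : ℤ) * (j + s0) = 0 := by linarith
      rcases mul_eq_zero.1 h2 with h3 | h3
      · have : M = 0 := by exact_mod_cast h3
        omega
      · linarith
    obtain ⟨τ, hτ⟩ := h.exists_conj
    have hτi : (1 - α) = -α⁻¹ := by
      rw [h.inv_eq]
      ring
    obtain ⟨hg2, ha2⟩ := hS.st τ g0 hg0
    obtain ⟨hg3, ha3⟩ := hS.st τ gt hgt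
    have hee : (e (su τ gt) : ℤ) = (e (su τ g0) : ℤ) - f.natDegree := by
      refine h.zpow_inj ?_
      have h2 : (su τ gt : Kb) = α ^ ((e (su τ g0) : ℤ) - f.natDegree) * g0
          ∨ (su τ gt : Kb) = -(α ^ ((e (su τ g0) : ℤ) - f.natDegree) * g0) := by
        have h3 : τ (gt : Kb) = (1 - α) ^ f.natDegree * (su τ g0 : Kb)
            ∨ τ (gt : Kb) = -((1 - α) ^ f.natDegree * (su τ g0 : Kb)) := by
          rw [su_val]
          rcases he gt hgt with h4 | h4
          · left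
            rw [h4, map_mul, map_pow, hτ, hgt1]
          · right
            rw [h4, map_neg, map_mul, map_pow, hτ, hgt1]
        have h5 : (1 - α) ^ f.natDegree = α ^ (-(f.natDegree : ℤ))
            ∨ (1 - α) ^ f.natDegree = -α ^ (-(f.natDegree : ℤ)) := by
          rw [hτi, zpow_neg, zpow_natCast, ← inv_pow]
          rcases Nat.even_or_odd f.natDegree with h6 | h6
          · left
            rw [h6.neg_pow]
          · right
            rw [h6.neg_pow]
        have h6 : α ^ ((e (su τ g0) : ℤ) - f.natDegree)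
            = α ^ (-(f.natDegree : ℤ)) * α ^ (e (su τ g0)) := by
          rw [← zpow_natCast α (e (su τ g0)), ← zpow_add₀ hα]
          congr 1
          ring
        rw [h6, su_val τ gt]
        rcases h3 with h3 | h3 <;> rcases h5 with h5 | h5 <;>
          rcases he _ hg2 with h7 | h7 <;> rw [h3, h5, h7]
        · left; ring
        · right; ring
        · right; ring
        · left; ring
        · right; ring
        · left; ring
        · left; ring
        · right; ring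
      rw [zpow_natCast]
      have hg00 : (g0 : Kb) ≠ 0 := g0.ne_zero
      rcases h2 with h2 | h2 <;> rcases he _ hg3 with h3 | h3
      · left
        exact mul_right_cancel₀ hg00 (h3.symm.trans h2)
      · right
        refine mul_right_cancel₀ hg00 ?_
        rw [neg_mul, ← h2, h3, neg_neg]
      · right
        refine mul_right_cancel₀ hg00 ?_
        rw [neg_mul, ← h3, h2]
      · left
        refine mul_right_cancel₀ hg00 ?_
        exact neg_injective (h3.symm.trans h2)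
    have hle2 := hfle _ hg2
    have htop : su τ g0 = gt := by
      refine hei _ hg2 gt hgt ?_
      omega
    rw [htop] at ha2
    have hν1 : ν * τ ν = 1 := by
      have h2 : ν = a g0 / τ (a g0) := by rw [hν, hc0, hgt2, ha2]
      have h3 : τ (τ (a g0)) = a g0 := h.conj_conj hτ (hS.aF g0 hg0)
      have h4 : a g0 ≠ 0 := hS.ha g0 hg0
      have h5 : τ (a g0) ≠ 0 := by
        intro h6
        exact h4 (by simpa using h6)
      rw [h2, map_div₀, h3]
      field_simp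
    have hν2 : ν * τ ν = -1 := by
      have h2 : ν * τ ν = α ^ j * (1 - α) ^ j := by
        rcases hj with h3 | h3
        · rw [h3, map_zpow₀, hτ]
        · rw [h3, map_neg, map_zpow₀, hτ, neg_mul_neg]
      rw [h2, ← mul_zpow, h.mul_conj, hjs]
      have h3 : Odd (-(s0 : ℤ)) := by
        rw [odd_neg]
        exact_mod_cast hs
      exact h3.neg_one_zpow
    rw [hν1] at hν2
    norm_num at hν2
  · right
    rw [h1] at hq
    have h2 : f'.natDegree = 0 := by omega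
    rw [card_eq_one]
    refine ⟨t0, ?_⟩
    ext g
    rw [mem_singleton]
    constructor
    · intro hg
      have h3 := hfle' g hg
      exact hei' g hg t0 ht0 (by omega)
    · rintro rfl
      exact ht0

end Pool.Agent.Lib.MP_5893d7_nt.Af
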