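import Mathlib

/-!
MP_5893d7_nt, factorisations by linear recurrences: closed forms of linear recurrence sequences over an
algebraically closed field, and the independence of the sequences `n ^ i * g ^ n`.
-/

set_option autoImplicit false

namespace Pool.Agent.Lib.MP_5893d7_nt.Af

open Polynomial Finset

/-- the shift of sequences -/
noncomputable def shf (K : Type*) [Field K] : Module.End K (ℕ → K) where
  toFun u := fun n => u (n + 1)
  map_add' _ _ := rfl
  map_smul' _ _ := rfl

variable {K : Type*} [Field K]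

lemma shf_apply (u : ℕ → K) (n : ℕ) : shf K u n = u (n + 1) := rfl

lemma shf_pow_apply (u : ℕ → K) (k n : ℕ) : (shf K ^ k) u n = u (n + k) := by
  induction k generalizing n with
  | zero => rfl
  | succ k ih =>
    rw [pow_succ', Module.End.mul_apply, shf_apply, ih]
    congr 1
    omega

lemma sub_apply (g : K) (u : ℕ → K) (n : ℕ) :
    ((shf K - g • (1 : Module.End K (ℕ → K))) u) n = u (n + 1) - g * u n := rfl

/-- sums of polynomials are polynomials -/
lemma exists_sum_poly [CharZero K] (q : K[X]) :
    ∃ Q : K[X], ∀ n : ℕ, ∑ k ∈ range n, q.eval (k : K) = Q.eval (n : K) := by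
  have h1 : ∀ i : ℕ, ∃ Q : K[X], ∀ n : ℕ, ∑ k ∈ range n, (k : K) ^ i = Q.eval (n : K) := by
    intro i
    refine ⟨(C (1 / ((i : ℚ) + 1)) * (Polynomial.bernoulli (i + 1) - C (_root_.bernoulli (i + 1)))).map
      (algebraMap ℚ K), fun n => ?_⟩
    have h2 := sum_range_pow_eq_bernoulli_sub n i
    have h3 : ((i : ℚ) + 1) ≠ 0 := by positivity
    have h4 : ∑ k ∈ range n, (k : ℚ) ^ i
        = (C (1 / ((i : ℚ) + 1)) * (Polynomial.bernoulli (i + 1) - C (_root_.bernoulli (i + 1)))).eval
          (n : ℚ) := by
      rw [eval_mul, eval_C, eval_sub, eval_C]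
      rw [Nat.succ_eq_add_one] at h2
      rw [← h2]
      field_simp
    have h5 := congrArg (algebraMap ℚ K) h4
    rw [map_sum] at h5
    simp only [map_pow, map_natCast] at h5
    rw [h5, ← map_natCast (algebraMap ℚ K) n, eval_map_apply]
  choose Q hQ using h1
  refine ⟨∑ i ∈ q.support, C (q.coeff i) * Q i, fun n => ?_⟩
  rw [eval_finsetSum]
  simp only [eval_mul, eval_C, ← hQ]
  simp only [eval_eq_sum, Polynomial.sum, mul_sum]
  rw [sum_comm]

/-- generalised eigenvectors of the shift -/
lemma exists_poly [CharZero K] {g : K} (hg : g ≠ 0) (k : ℕ) (w : ℕ → K)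
    (h : ((shf K - g • (1 : Module.End K (ℕ → K))) ^ k) w = 0) :
    ∃ p : K[X], ∀ n : ℕ, w n = p.eval (n : K) * g ^ n := by
  induction k generalizing w with
  | zero =>
    refine ⟨0, fun n => ?_⟩
    rw [pow_zero, Module.End.one_apply] at h
    rw [h]
    simp
  | succ k ih =>
    rw [pow_succ, Module.End.mul_apply] at h
    obtain ⟨q, hq⟩ := ih _ h
    obtain ⟨Q, hQ⟩ := exists_sum_poly q
    refine ⟨C (w 0) + C g⁻¹ * Q, fun n => ?_⟩
    induction n with
    | zero =>
      have h1 := hQ 0
      rw [range_zero, sum_empty] at h1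
      rw [eval_add, eval_C, eval_mul, eval_C, ← h1]
      simp
    | succ n ihn =>
      have h1 := hq n
      rw [sub_apply] at h1
      have h2 := hQ (n + 1)
      rw [sum_range_succ, hQ n] at h2
      rw [eval_add, eval_C, eval_mul, eval_C] at ihn ⊢
      rw [← h2]
      have h3 : w (n + 1) = g * w n + q.eval (n : K) * g ^ n := by
        rw [← h1]
        ring
      rw [h3, ihn]
      field_simp
      ring

/-- **closed form of a linear recurrence sequence** -/
theorem exists_rep [IsAlgClosed K] [CharZero K] (E : LinearRecurrence K) (u : ℕ → K)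
    (hu : E.IsSolution u) :
    ∃ n0 : ℕ, ∃ s : Finset Kˣ, ∃ p : Kˣ → K[X],
      ∀ n ≥ n0, u n = ∑ g ∈ s, (p g).eval (n : K) * (g : K) ^ n := by
  classical
  have hW : ∀ w ∈ E.solSpace, shf K w ∈ E.solSpace := by
    intro w hw n
    have h1 := hw (n + 1)
    rw [shf_apply]
    have h2 : n + E.order + 1 = n + 1 + E.order := by omega
    rw [h2, h1]
    refine sum_congr rfl fun i _ => ?_
    rw [shf_apply]
    congr 2
    omega
  have : FiniteDimensional K E.solSpace := Module.Finite.equiv E.toInit.symm
  set f : Module.End K E.solSpace := (shf K).restrict hW with hf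
  have h1 := Module.End.iSup_maxGenEigenspace_eq_top f
  have h2 : (⟨u, hu⟩ : E.solSpace) ∈ ⨆ μ : K, f.maxGenEigenspace μ := by
    rw [h1]
    trivial
  obtain ⟨l, hl, hs⟩ := (Submodule.mem_iSup_iff_exists_finsupp _ _).1 h2
  have key : ∀ μ : K, ∃ k : ℕ, ((shf K - μ • (1 : Module.End K (ℕ → K))) ^ k)
      (l μ : ℕ → K) = 0 := by
    intro μ
    obtain ⟨k, hk⟩ := (Module.End.mem_maxGenEigenspace _ _ _).1 (hl μ)
    refine ⟨k, ?_⟩
    have h3 : ∀ (j : ℕ) (w : E.solSpace),
        (((f - μ • (1 : Module.End K E.solSpace)) ^ j) w : ℕ → K)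
          = ((shf K - μ • (1 : Module.End K (ℕ → K))) ^ j) (w : ℕ → K) := by
      intro j
      induction j with
      | zero => intro w; rfl
      | succ j ih =>
        intro w
        rw [pow_succ, pow_succ, Module.End.mul_apply, Module.End.mul_apply, ih]
        rfl
    have h4 := h3 k (l μ)
    rw [hk] at h4
    exact h4.symm
  choose k hk using key
  have hp : ∀ g : Kˣ, ∃ p : K[X], ∀ n : ℕ, (l (g : K) : ℕ → K) n = p.eval (n : K) * (g : K) ^ n :=
    fun g => exists_poly g.ne_zero (k g) _ (hk g)
  choose p hp using hp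
  refine ⟨k 0, l.support.preimage (fun g : Kˣ => (g : K)) (Units.val_injective.injOn), p,
    fun n hn => ?_⟩
  have h5 : u n = ∑ μ ∈ l.support, (l μ : ℕ → K) n := by
    have h6 := congrArg (fun w : E.solSpace => (w : ℕ → K) n) hs
    simp only at h6
    rw [← h6, Finsupp.sum, AddSubmonoidClass.coe_finsetSum, Finset.sum_apply]
  have h7 := sum_preimage (fun g : Kˣ => (g : K)) l.support Units.val_injective.injOn
    (fun μ => (l μ : ℕ → K) n) (fun μ _ hμ => by
      have h8 : μ = 0 := by
        by_contra h9
        exact hμ ⟨Units.mk0 μ h9, rfl⟩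
      subst h8
      have h9 := hk 0
      rw [zero_smul, sub_zero] at h9
      have h10 := shf_pow_apply (l 0 : ℕ → K) (k 0) (n - k 0)
      rw [h9, Nat.sub_add_cancel hn] at h10
      exact h10.symm)
  rw [h5, ← h7]
  exact sum_congr rfl fun g _ => hp g n

/-- **independence**: polynomial multiples of different powers -/
theorem rep_unique [CharZero K] (s : Finset Kˣ) (p : Kˣ → K[X])
    (h : ∀ n : ℕ, ∑ g ∈ s, (p g).eval (n : K) * (g : K) ^ n = 0) : ∀ g ∈ s, p g = 0 := by
  classical
  have hv : ∀ (g : Kˣ) (m : ℕ) (q : K[X]), q.natDegree < m →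
      ((shf K - (g : K) • (1 : Module.End K (ℕ → K))) ^ m)
        (fun n : ℕ => q.eval (n : K) * (g : K) ^ n) = 0 := by
    intro g m
    induction m with
    | zero => intro q hq; omega
    | succ m ih =>
      intro q hq
      rw [pow_succ, Module.End.mul_apply]
      have h1 : (shf K - (g : K) • (1 : Module.End K (ℕ → K)))
          (fun n : ℕ => q.eval (n : K) * (g : K) ^ n)
          = (g : K) • (fun n : ℕ => (taylor 1 q - q).eval (n : K) * (g : K) ^ n) := by
        funext n
        rw [sub_apply, Pi.smul_apply, smul_eq_mul, eval_sub, taylor_eval]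
        push_cast
        ring
      rw [h1, map_smul]
      by_cases h2 : taylor 1 q - q = 0
      · rw [h2]
        simp only [eval_zero, zero_mul]
        have h3 : (fun _ : ℕ => (0 : K)) = 0 := rfl
        rw [h3, map_zero, smul_zero]
      · rw [ih, smul_zero]
        have h3 : q ≠ 0 := by
          rintro rfl
          apply h2
          simp
        have h4 : (taylor 1 q - q).degree < q.degree := by
          have h5 := degree_sub_lt_left (p := taylor 1 q) (q := q) (degree_taylor _ _)
            (by intro h6; exact h3 ((taylor_eq_zero _ _).1 h6)) (leadingCoeff_taylor _ _)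
          rwa [degree_taylor] at h5
        have h5 := natDegree_lt_natDegree h2 h4
        omega
  have hind := Module.End.independent_maxGenEigenspace (shf K)
  have h0 : ∀ g ∈ s, (fun n : ℕ => (p g).eval (n : K) * (g : K) ^ n) = 0 := by
    have h1 := (iSupIndep_iff_finsetSum_eq_zero_imp_eq_zero _).1
      (hind.comp (f := fun g : Kˣ => (g : K)) Units.val_injective)
    refine h1 s (fun g => fun n : ℕ => (p g).eval (n : K) * (g : K) ^ n) (fun g hg => ?_) ?_
    · exact (Module.End.mem_maxGenEigenspace _ _ _).2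
        ⟨(p g).natDegree + 1, hv g _ _ (Nat.lt_succ_self _)⟩
    · funext n
      rw [Finset.sum_apply]
      exact h n
  intro g hg
  have h1 := h0 g hg
  refine Polynomial.eq_zero_of_infinite_isRoot _ (Set.Infinite.mono (s := Set.range
    (fun n : ℕ => (n : K))) ?_ (Set.infinite_range_of_injective Nat.cast_injective))
  rintro _ ⟨n, rfl⟩
  have h2 := congrFun h1 n
  simp only [Pi.zero_apply, mul_eq_zero] at h2
  rcases h2 with h2 | h2
  · exact h2
  · exact absurd h2 (pow_ne_zero _ g.ne_zero)

end Pool.Agent.Lib.MP_5893d7_nt.Af
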