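import Pool.Agent.Lib.MP_5893d7_nt.Af.Han

/-!
MP_5893d7_nt, zeros of linear recurrences: sequences with divisible differences.
-/

set_option autoImplicit false

namespace Pool.Agent.Lib.MP_5893d7_nt.Af

open Finset

/-- the differences of step m are divisible by the powers of q -/
def Cl (q : ℤ) (m a : ℕ) (u : ℕ → ℤ) : Prop := ∀ j n, q ^ (a + j) ∣ (fwdDiff m)^[j] u n

lemma Cl.dif {q : ℤ} {m a : ℕ} {u : ℕ → ℤ} (h : Cl q m a u) : Cl q m (a + 1) (fwdDiff m u) := by
  intro j n
  have h1 := h (j + 1) n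
  rw [Function.iterate_succ_apply] at h1
  rw [show a + 1 + j = a + (j + 1) by ring]
  exact h1

lemma iter_shift (m t : ℕ) (j : ℕ) : ∀ (u : ℕ → ℤ) (n : ℕ),
    (fwdDiff m)^[j] (fun n => u (n + t)) n = (fwdDiff m)^[j] u (n + t) := by
  induction j with
  | zero => intro u n; rfl
  | succ j ih =>
    intro u n
    rw [Function.iterate_succ_apply, Function.iterate_succ_apply, ← ih (fwdDiff m u) n]
    have h1 : (fwdDiff m fun n => u (n + t)) = fun n => fwdDiff m u (n + t) := by
      funext n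
      simp only [fwdDiff]
      rw [add_right_comm]
    rw [h1]

lemma Cl.shift {q : ℤ} {m a : ℕ} {u : ℕ → ℤ} (h : Cl q m a u) (t : ℕ) :
    Cl q m a (fun n => u (n + t)) := by
  intro j n
  rw [iter_shift]
  exact h j (n + t)

lemma Cl.add {q : ℤ} {m a : ℕ} {u v : ℕ → ℤ} (h : Cl q m a u) (h' : Cl q m a v) :
    Cl q m a (u + v) := by
  intro j n
  rw [fwdDiff_iter_add]
  exact dvd_add (h j n) (h' j n)

lemma Cl.neg {q : ℤ} {m a : ℕ} {u : ℕ → ℤ} (h : Cl q m a u) : Cl q m a (-u) := by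
  intro j n
  have h1 := fwdDiff_iter_const_smul (h := m) (-1 : ℤ) u j
  have h2 : (-1 : ℤ) • u = -u := by simp
  rw [h2] at h1
  rw [h1]
  simpa using h j n

lemma Cl.mul_aux (q : ℤ) (m : ℕ) (j : ℕ) : ∀ (a b : ℕ) (u v : ℕ → ℤ), Cl q m a u → Cl q m b v →
    ∀ n, q ^ (a + b + j) ∣ (fwdDiff m)^[j] (u * v) n := by
  induction j with
  | zero =>
    intro a b u v hu hv n
    have h1 := hu 0 n
    have h2 := hv 0 n
    simp only [Function.iterate_zero, id_eq, add_zero, Pi.mul_apply] at h1 h2 ⊢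
    rw [pow_add]
    exact mul_dvd_mul h1 h2
  | succ j ih =>
    intro a b u v hu hv n
    have h1 : fwdDiff m (u * v) = (fwdDiff m u) * (fun n => v (n + m)) + u * fwdDiff m v := by
      funext n
      simp only [fwdDiff, Pi.mul_apply, Pi.add_apply]
      ring
    rw [Function.iterate_succ_apply, h1, fwdDiff_iter_add]
    refine dvd_add ?_ ?_
    · have h2 := ih (a + 1) b _ _ hu.dif (hv.shift m) n
      rwa [show a + 1 + b + j = a + b + (j + 1) by ring] at h2
    · have h2 := ih a (b + 1) _ _ hu hv.dif n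
      rwa [show a + (b + 1) + j = a + b + (j + 1) by ring] at h2

lemma Cl.mul {q : ℤ} {m a b : ℕ} {u v : ℕ → ℤ} (h : Cl q m a u) (h' : Cl q m b v) :
    Cl q m (a + b) (u * v) := fun j n => Cl.mul_aux q m j a b u v h h' n

lemma Cl.dif_mul {q : ℤ} {m a : ℕ} {u : ℕ → ℤ} (h : Cl q m a u) (t : ℕ) :
    Cl q m (a + 1) (fwdDiff (m * t) u) := by
  induction t with
  | zero =>
    intro j n
    have h1 : fwdDiff (m * 0) u = fun _ => 0 := by
      funext n
      simp [fwdDiff]
    rw [h1]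
    cases j with
    | zero => simp
    | succ j =>
      have h2 : (fun _ : ℕ => (0 : ℤ)) = 0 := rfl
      have h3 := fwdDiff_iter_const_smul (h := m) (0 : ℤ) (0 : ℕ → ℤ) (j + 1)
      rw [zero_smul, zero_smul] at h3
      rw [h2, h3]
      simp
  | succ t ih =>
    have h1 : fwdDiff (m * (t + 1)) u
        = fwdDiff (m * t) u + fun n => (fwdDiff m u) (n + m * t) := by
      funext n
      simp only [fwdDiff, Pi.add_apply]
      rw [show n + m * (t + 1) = n + m * t + m by ring]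
      ring
    rw [h1]
    exact ih.add (h.dif.shift _)

lemma Cl.mono_aux (q : ℤ) (m t : ℕ) (j : ℕ) : ∀ (a : ℕ) (u : ℕ → ℤ), Cl q m a u →
    ∀ n, q ^ (a + j) ∣ (fwdDiff (m * t))^[j] u n := by
  induction j with
  | zero => intro a u hu n; exact hu 0 n
  | succ j ih =>
    intro a u hu n
    have h2 := ih (a + 1) _ (hu.dif_mul t) n
    rw [Function.iterate_succ_apply]
    rwa [show a + 1 + j = a + (j + 1) by ring] at h2

lemma Cl.mono {q : ℤ} {m a : ℕ} {u : ℕ → ℤ} (h : Cl q m a u) (t : ℕ) : Cl q (m * t) a u :=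
  fun j n => Cl.mono_aux q m t j a u h n

/-- along an arithmetic progression -/
lemma iter_comp (m a b : ℕ) (j : ℕ) : ∀ (u : ℕ → ℤ) (n : ℕ),
    (fwdDiff m)^[j] (fun n => u (a * n + b)) n = (fwdDiff (a * m))^[j] u (a * n + b) := by
  induction j with
  | zero => intro u n; rfl
  | succ j ih =>
    intro u n
    rw [Function.iterate_succ_apply, Function.iterate_succ_apply, ← ih (fwdDiff (a * m) u) n]
    have h1 : (fwdDiff m fun n => u (a * n + b)) = fun n => fwdDiff (a * m) u (a * n + b) := by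
      funext n
      simp only [fwdDiff]
      rw [Nat.mul_add, add_right_comm]
    rw [h1]

lemma Cl.comp {q : ℤ} {m c a b : ℕ} {u : ℕ → ℤ} (h : Cl q (a * m) c u) :
    Cl q m c (fun n => u (a * n + b)) := by
  intro j n
  rw [iter_comp]
  exact h j _

/-- zeros on a class -/
lemma Cl.zeros {p : ℕ} [hp : Fact p.Prime] {m : ℕ} {u : ℕ → ℤ} (h : Cl ((p : ℤ) ^ 2) m 0 u) (r : ℕ)
    (hinf : {k : ℕ | u (r + k * m) = 0}.Infinite) : ∀ k, u (r + k * m) = 0 := by
  have h1 : ∀ j, ∃ d : ℤ, (fwdDiff m)^[j] u r = (p : ℤ) ^ (2 * j) * d := by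
    intro j
    have h2 := h j r
    rw [zero_add, ← pow_mul] at h2
    exact h2
  choose d hd using h1
  refine hansel p d (fun k => u (r + k * m)) ?_ hinf
  intro k
  have h2 := shift_eq_sum_fwdDiff_iter m u k r
  simp only [smul_eq_mul] at h2
  rw [h2]
  refine sum_congr rfl fun j _ => ?_
  rw [hd j]
  simp

/-- finitely many exceptions -/
lemma Cl.eventually {p : ℕ} [hp : Fact p.Prime] {m : ℕ} (hm : 0 < m) {u : ℕ → ℤ}
    (h : Cl ((p : ℤ) ^ 2) m 0 u) : ∃ n0 : ℕ, ∀ n ≥ n0, u n = 0 → ∀ k, u (n + k * m) = 0 := by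
  classical
  have h1 : ∀ r : ℕ, ∃ K : ℕ, ∀ k ≥ K, u (r + k * m) = 0 → ∀ k, u (r + k * m) = 0 := by
    intro r
    by_cases hinf : {k : ℕ | u (r + k * m) = 0}.Infinite
    · exact ⟨0, fun _ _ _ => h.zeros r hinf⟩
    · rw [Set.not_infinite] at hinf
      obtain ⟨K, hK⟩ := hinf.bddAbove
      refine ⟨K + 1, fun k hk h0 => ?_⟩
      have h2 : k ≤ K := hK h0
      omega
  choose K hK using h1
  refine ⟨(range m).sup (fun r => r + K r * m) , fun n hn h0 k => ?_⟩
  set r := n % m with hr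
  have hrm : r < m := Nat.mod_lt _ hm
  have h2 : r + K r * m ≤ n := (le_sup (f := fun r => r + K r * m) (mem_range.2 hrm)).trans hn
  have h3 : n = r + (n / m) * m := by
    rw [hr]
    have := Nat.mod_add_div n m
    rw [Nat.mul_comm] at this
    exact this.symm
  have h4 : K r ≤ n / m := by
    by_contra h5
    push Not at h5
    have h6 : (n / m) * m < K r * m := Nat.mul_lt_mul_of_pos_right h5 hm
    omega
  have h5 := hK r (n / m) h4 (by rw [← h3]; exact h0) (n / m + k)
  rwa [Nat.add_mul, ← Nat.add_assoc, ← h3] at h5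

end Pool.Agent.Lib.MP_5893d7_nt.Af
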